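import Mathlib

set_option autoImplicit false

/-!
# Roots of unity in finite extensions of `ℚ_p`
-/

namespace Pool.Agent.Helper79.UN

open Polynomial

section

variable {p : ℕ} [hp : Fact p.Prime] {E : Type*} [Field E] [Algebra ℤ_[p] E]

theorem pa_int {ζ : E} {m : ℕ} (hm : 0 < m) (h : ζ ^ m = 1) : IsIntegral ℤ_[p] ζ := by
  refine ⟨X ^ m - 1, monic_X_pow_sub_C 1 hm.ne', ?_⟩
  rw [eval₂_sub, eval₂_X_pow, eval₂_one, h, sub_self]

/-- roots of unity of order prime to `p` -/
theorem pa_tame [Module.IsTorsionFree ℤ_[p] E] {ζ : E} {m : ℕ} (hm : 0 < m) (hpm : ¬ p ∣ m)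
    (h : IsPrimitiveRoot ζ m) : m ≤ p ^ (minpoly ℤ_[p] ζ).natDegree := by
  have hint := pa_int (p := p) hm h.pow_eq_one
  have hmon := minpoly.monic hint
  have hdeg := minpoly.natDegree_pos hint
  have hdvd : minpoly ℤ_[p] ζ ∣ X ^ m - 1 := by
    refine minpoly.isIntegrallyClosed_dvd hint ?_
    rw [map_sub, map_pow, aeval_X, map_one, h.pow_eq_one, sub_self]
  set gb := (minpoly ℤ_[p] ζ).map (PadicInt.toZMod (p := p)) with hgb
  have hmonb : gb.Monic := hmon.map _
  have hdegb : gb.natDegree = (minpoly ℤ_[p] ζ).natDegree := hmon.natDegree_map _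
  have hdvdb : gb ∣ (X ^ m - 1 : (ZMod p)[X]) := by
    have := Polynomial.map_dvd (PadicInt.toZMod (p := p)) hdvd
    rwa [Polynomial.map_sub, Polynomial.map_pow, map_X, Polynomial.map_one] at this
  have hsep : (X ^ m - 1 : (ZMod p)[X]).Separable := by
    rw [X_pow_sub_one_separable_iff]
    rwa [Ne, ZMod.natCast_eq_zero_iff]
  have hρm : (AdjoinRoot.root gb) ^ m = 1 := by
    have h2 := AdjoinRoot.mk_eq_zero.2 hdvdb
    rw [map_sub, map_pow, map_one, AdjoinRoot.mk_X] at h2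
    exact sub_eq_zero.1 h2
  have hord : orderOf (AdjoinRoot.root gb) = m := by
    obtain ⟨s, hs⟩ := orderOf_dvd_of_pow_eq_one hρm
    set t := orderOf (AdjoinRoot.root gb) with ht
    by_contra hne
    have ht0 : 0 < t := Nat.pos_of_ne_zero fun h0 => by
      rw [h0, zero_mul] at hs
      omega
    have htm : t < m := lt_of_le_of_ne (Nat.le_of_dvd hm ⟨s, hs⟩) hne
    have hfac : ∀ {A : Type _} [CommRing A], (X ^ m - 1 : A[X]) = (X ^ t - 1) * ∑ i ∈ Finset.range s, (X ^ t) ^ i := by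
      intro A _
      rw [mul_geom_sum, ← pow_mul, ← hs]
    have hζ : aeval ζ (∑ i ∈ Finset.range s, ((X : ℤ_[p][X]) ^ t) ^ i) = 0 := by
      have h1 : aeval ζ (X ^ m - 1 : ℤ_[p][X]) = 0 := by
        rw [map_sub, map_pow, aeval_X, map_one, h.pow_eq_one, sub_self]
      rw [hfac, map_mul] at h1
      rcases mul_eq_zero.1 h1 with h2 | h2
      · exfalso
        rw [map_sub, map_pow, aeval_X, map_one, sub_eq_zero] at h2
        exact h.pow_ne_one_of_pos_of_lt ht0.ne' htm h2
      · exact h2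
    have h3 := Polynomial.map_dvd (PadicInt.toZMod (p := p)) (minpoly.isIntegrallyClosed_dvd hint hζ)
    have h4 : gb ∣ (X ^ t - 1 : (ZMod p)[X]) := by
      rw [← AdjoinRoot.mk_eq_zero, map_sub, map_pow, map_one, AdjoinRoot.mk_X, ht, pow_orderOf_eq_one, sub_self]
    have h5 : gb * gb ∣ (X ^ m - 1 : (ZMod p)[X]) := by
      rw [hfac]
      refine mul_dvd_mul h4 ?_
      have h6 : (∑ i ∈ Finset.range s, ((X : ℤ_[p][X]) ^ t) ^ i).map (PadicInt.toZMod (p := p)) =
          ∑ i ∈ Finset.range s, ((X : (ZMod p)[X]) ^ t) ^ i := by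
        rw [Polynomial.map_sum]
        refine Finset.sum_congr rfl fun i _ => ?_
        rw [Polynomial.map_pow, Polynomial.map_pow, map_X]
      rwa [h6] at h3
    have h7 := hsep.squarefree gb h5
    have h8 := natDegree_eq_zero_of_isUnit h7
    omega
  have hu : orderOf (Units.ofPowEqOne (AdjoinRoot.root gb) m hρm hm.ne') = m := by
    rw [← orderOf_units]
    exact hord
  have hfr : Module.finrank (ZMod p) (AdjoinRoot gb) = gb.natDegree := finrank_quotient_span_eq_natDegree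
  have hfd : FiniteDimensional (ZMod p) (AdjoinRoot gb) := (AdjoinRoot.powerBasis hmonb.ne_zero).finite
  have hfin : Finite (AdjoinRoot gb) := Module.finite_of_finite (ZMod p)
  have hcard : Nat.card (AdjoinRoot gb) = p ^ gb.natDegree := by
    rw [Module.natCard_eq_pow_finrank (K := ZMod p), hfr, Nat.card_zmod]
  calc m = orderOf (Units.ofPowEqOne (AdjoinRoot.root gb) m hρm hm.ne') := hu.symm
    _ ≤ Nat.card (AdjoinRoot gb)ˣ := orderOf_le_card
    _ ≤ Nat.card (AdjoinRoot gb) := Nat.card_le_card_of_injective _ Units.val_injective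
    _ = p ^ (minpoly ℤ_[p] ζ).natDegree := by rw [hcard, hdegb]

/-- roots of unity of order a power of `p` -/
theorem pa_wild [Module.IsTorsionFree ℤ_[p] E] {ζ : E} {a : ℕ} (h : IsPrimitiveRoot ζ (p ^ (a + 1))) :
    p ^ a * (p - 1) ≤ (minpoly ℤ_[p] ζ).natDegree := by
  have hm : 0 < p ^ (a + 1) := pow_pos hp.out.pos _
  have hint := pa_int (p := p) hm h.pow_eq_one
  have hmon := minpoly.monic hint
  have hroot : aeval ζ (cyclotomic (p ^ (a + 1)) ℤ_[p]) = 0 := by
    have h1 := h.isRoot_cyclotomic hm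
    rw [← map_cyclotomic (p ^ (a + 1)) (algebraMap ℤ_[p] E), IsRoot.def, eval_map_algebraMap] at h1
    exact h1
  obtain ⟨q, hq⟩ := minpoly.isIntegrallyClosed_dvd hint hroot
  have hqmon : q.Monic := Monic.of_mul_monic_left hmon (by rw [← hq]; exact cyclotomic.monic _ _)
  have hdeg : (minpoly ℤ_[p] ζ).natDegree + q.natDegree = p ^ a * (p - 1) := by
    rw [← hmon.natDegree_mul hqmon, ← hq, natDegree_cyclotomic, Nat.totient_prime_pow_succ hp.out]
  by_cases hq0 : q.natDegree = 0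
  · omega
  exfalso
  -- a monic factor of positive degree is divisible by `p` at `1`
  have key : ∀ g : ℤ_[p][X], g.Monic → g.natDegree ≠ 0 → g ∣ cyclotomic (p ^ (a + 1)) ℤ_[p] →
      (p : ℤ_[p]) ∣ g.eval 1 := by
    intro g hg hgd hgdvd
    have h1 : g.map (PadicInt.toZMod (p := p)) ∣ ((X : (ZMod p)[X]) - C 1) ^ (p ^ (a + 1)) := by
      have h2 : g ∣ (X : ℤ_[p][X]) ^ (p ^ (a + 1)) - 1 :=
        hgdvd.trans (cyclotomic.dvd_X_pow_sub_one _ _)
      have h3 := Polynomial.map_dvd (PadicInt.toZMod (p := p)) h2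
      rw [Polynomial.map_sub, Polynomial.map_pow, map_X, Polynomial.map_one] at h3
      rw [sub_pow_char_pow, ← C_pow, one_pow, C_1]
      exact h3
    have h4 : ¬ IsUnit (g.map (PadicInt.toZMod (p := p))) := by
      intro hu
      have := natDegree_eq_zero_of_isUnit hu
      rw [hg.natDegree_map] at this
      exact hgd this
    have h0 : g.map (PadicInt.toZMod (p := p)) ≠ 0 := (hg.map _).ne_zero
    obtain ⟨r, hr, hrd⟩ := WfDvdMonoid.exists_irreducible_factor h4 h0
    have h5 : r ∣ (X : (ZMod p)[X]) - C 1 := hr.prime.dvd_of_dvd_pow (hrd.trans h1)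
    have h6 : ((X : (ZMod p)[X]) - C 1) ∣ r := (hr.dvd_symm (irreducible_X_sub_C 1)) h5
    have h7 := dvd_iff_isRoot.1 (h6.trans hrd)
    rw [IsRoot.def, eval_map, eval₂_at_one] at h7
    have h8 : g.eval 1 ∈ RingHom.ker (PadicInt.toZMod (p := p)) := h7
    rw [PadicInt.ker_toZMod, PadicInt.maximalIdeal_eq_span_p, Ideal.mem_span_singleton] at h8
    exact h8
  have h1 := key _ hmon (minpoly.natDegree_pos hint).ne' ⟨q, hq⟩
  have h2 := key q hqmon hq0 ⟨_, by rw [mul_comm]; exact hq⟩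
  have h3 : (p : ℤ_[p]) * p ∣ p := by
    have h4 : (cyclotomic (p ^ (a + 1)) ℤ_[p]).eval 1 = p := eval_one_cyclotomic_prime_pow a
    rw [hq, eval_mul] at h4
    have h5 := mul_dvd_mul h1 h2
    rwa [h4] at h5
  obtain ⟨c, hc⟩ := h3
  have hp0 : (p : ℤ_[p]) ≠ 0 := PadicInt.prime_p.ne_zero
  have h4 : (p : ℤ_[p]) * c = 1 := by
    apply mul_left_cancel₀ hp0
    rw [mul_one, ← mul_assoc]
    exact hc.symm
  exact PadicInt.prime_p.not_unit (IsUnit.of_mul_eq_one _ h4)

end

/-- the order of the roots of unity in a field of degree at most `r` over `ℚ_p` -/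
theorem pa_order {p : ℕ} [hp : Fact p.Prime] {E : Type*} [Field E] [Algebra ℚ_[p] E] [FiniteDimensional ℚ_[p] E]
    {r : ℕ} (hr : Module.finrank ℚ_[p] E ≤ r) {ζ : E} {m : ℕ} (hm : 0 < m) (h : IsPrimitiveRoot ζ m) :
    m ≤ 2 * r * p ^ r := by
  let _ : Algebra ℤ_[p] E := ((algebraMap ℚ_[p] E).comp (algebraMap ℤ_[p] ℚ_[p])).toAlgebra
  have tow : IsScalarTower ℤ_[p] ℚ_[p] E := IsScalarTower.of_algebraMap_eq fun x => rfl
  have hinj : Function.Injective (algebraMap ℤ_[p] E) :=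
    (algebraMap ℚ_[p] E).injective.comp (IsFractionRing.injective ℤ_[p] ℚ_[p])
  have htf : Module.IsTorsionFree ℤ_[p] E := (faithfulSMul_iff_algebraMap_injective ℤ_[p] E).2 hinj |>.to_isTorsionFree
  have hdeg : ∀ {x : E} {n : ℕ}, 0 < n → x ^ n = 1 → (minpoly ℤ_[p] x).natDegree ≤ r := by
    intro x n hn hx
    have hint := pa_int (p := p) hn hx
    have h1 := minpoly.isIntegrallyClosed_eq_field_fractions' ℚ_[p] hint
    have h2 : (minpoly ℤ_[p] x).natDegree = (minpoly ℚ_[p] x).natDegree := by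
      rw [h1, (minpoly.monic hint).natDegree_map]
    rw [h2]
    exact (minpoly.natDegree_le x).trans hr
  obtain ⟨a, m', hpm', rfl⟩ := Nat.exists_eq_pow_mul_and_not_dvd hm.ne' p hp.out.ne_one
  have hm' : 0 < m' := Nat.pos_of_ne_zero fun h0 => hpm' (by rw [h0]; exact dvd_zero p)
  have hr0 : 0 < r := Module.finrank_pos.trans_le hr
  have h1 : m' ≤ p ^ r := by
    have h2 : IsPrimitiveRoot (ζ ^ (p ^ a)) m' := h.pow hm rfl
    exact (pa_tame hm' hpm' h2).trans (Nat.pow_le_pow_right hp.out.pos (hdeg hm' h2.pow_eq_one))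
  have h2 : p ^ a ≤ 2 * r := by
    rcases a with _ | a
    · rw [pow_zero]
      omega
    · have h3 : IsPrimitiveRoot (ζ ^ m') (p ^ (a + 1)) := h.pow hm (mul_comm _ _)
      have h4 := (pa_wild h3).trans (hdeg (pow_pos hp.out.pos _) h3.pow_eq_one)
      have h5 := hp.out.two_le
      calc p ^ (a + 1) = p ^ a * p := pow_succ _ _
        _ ≤ p ^ a * (2 * (p - 1)) := Nat.mul_le_mul_left _ (by omega)
        _ = 2 * (p ^ a * (p - 1)) := by ring
        _ ≤ 2 * r := by omega
  exact Nat.mul_le_mul h2 h1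

end Pool.Agent.Helper79.UN
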