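import Pool.Agent.Helper79.UN.NU
import Pool.Agent.Helper79.UN.PA

set_option autoImplicit false

/-!
# Fields with few roots of unity
-/

set_option linter.unusedSectionVars false

namespace Pool.Agent.Helper79.UN

open IntermediateField Polynomial
open Pool.Agent.Helper79.RG

universe u

/-- the roots of unity of degree at most `m` over `K` are of order at most `R m` -/
def Few (K : Type*) [Field K] (R : ℕ → ℕ) : Prop :=
  ∀ (m N : ℕ) (ζ : AlgebraicClosure K), 0 < N → IsPrimitiveRoot ζ N → (minpoly K ζ).natDegree ≤ m → N ≤ R m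

theorem few_rb {K : Type*} [Field K] {R : ℕ → ℕ} (h : Few K R) (D : ℕ) : RB K D (R D).factorial := by
  refine ⟨Nat.factorial_pos _, ?_⟩
  rintro P hP hPD ⟨n, hn, hPn⟩
  obtain ⟨ζ, hζ⟩ := IsAlgClosed.exists_aeval_eq_zero (AlgebraicClosure K) P (by
    rw [degree_eq_natDegree hP.ne_zero]
    exact_mod_cast hP.natDegree_pos.ne')
  have hint : IsIntegral K ζ := Algebra.IsIntegral.isIntegral ζ
  have hζn : ζ ^ n = 1 := by
    obtain ⟨q, hq⟩ := hPn
    have h1 : aeval ζ (X ^ n - 1 : K[X]) = 0 := by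
      rw [hq, map_mul, hζ, zero_mul]
    rw [map_sub, map_pow, aeval_X, map_one] at h1
    exact sub_eq_zero.1 h1
  have hdvd : minpoly K ζ ∣ P := minpoly.dvd K ζ hζ
  have hass : P ∣ minpoly K ζ := (minpoly.irreducible hint).dvd_symm hP hdvd
  have hpos : 0 < orderOf ζ := orderOf_pos_iff.2 (isOfFinOrder_iff_pow_eq_one.2 ⟨n, hn, hζn⟩)
  have hle : orderOf ζ ≤ R D :=
    h D _ ζ hpos (IsPrimitiveRoot.orderOf ζ) ((natDegree_le_of_dvd hdvd hP.ne_zero).trans hPD)
  refine hass.trans (minpoly.dvd K ζ ?_)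
  obtain ⟨c, hc⟩ := Nat.dvd_factorial hpos hle
  rw [map_sub, map_pow, aeval_X, map_one, hc, pow_mul, pow_orderOf_eq_one, one_pow, sub_self]

/-- fields whose algebraic numbers are of degree at most `n` -/
theorem few_of_deg {K : Type*} [Field K] [CharZero K] {n : ℕ}
    (hn : ∀ x : K, IsAlgebraic ℚ x → (minpoly ℚ x).natDegree ≤ n) :
    Few K (fun m => (n * m * (n * m + 1)).factorial) := by
  intro m N ζ hN hζ hdeg
  have hint : IsIntegral K ζ := Algebra.IsIntegral.isIntegral ζ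
  obtain ⟨hB, hRB⟩ := rb_unif K hn m
  have h1 := hRB (minpoly K ζ) (minpoly.irreducible hint) hdeg ⟨N, hN, minpoly.dvd K ζ (by
    rw [map_sub, map_pow, aeval_X, map_one, hζ.pow_eq_one, sub_self])⟩
  have h2 : ζ ^ (n * m * (n * m + 1)).factorial = 1 := by
    obtain ⟨q, hq⟩ := h1
    have h3 : aeval ζ (X ^ (n * m * (n * m + 1)).factorial - 1 : K[X]) = 0 := by
      rw [hq, map_mul, minpoly.aeval, zero_mul]
    rw [map_sub, map_pow, aeval_X, map_one] at h3
    exact sub_eq_zero.1 h3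
  exact Nat.le_of_dvd hB (hζ.dvd_of_pow_eq_one _ h2)

/-- `K` can be embedded in an extension of `ℚ_p` of degree at most `n` -/
def LocDeg (p n : ℕ) [Fact p.Prime] (K : Type*) [Field K] : Prop :=
  ∃ E : IntermediateField ℚ_[p] (AlgebraicClosure ℚ_[p]), FiniteDimensional ℚ_[p] E ∧
    Module.finrank ℚ_[p] E ≤ n ∧ Nonempty (K →+* E)

theorem few_of_loc {p n : ℕ} [Fact p.Prime] {K : Type*} [Field K] (h : LocDeg p n K) :
    Few K (fun m => 2 * (n * m) * p ^ (n * m)) := by
  obtain ⟨E, hE, hEn, ⟨i⟩⟩ := h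
  intro m N ζ hN hζ hdeg
  let Ω := AlgebraicClosure ℚ_[p]
  let _ : Algebra K E := i.toAlgebra
  let _ : Algebra K Ω := ((algebraMap E Ω).comp i).toAlgebra
  have tow : IsScalarTower K E Ω := IsScalarTower.of_algebraMap_eq fun x => rfl
  let j : AlgebraicClosure K →ₐ[K] Ω := IsAlgClosed.lift
  have hint : IsIntegral K ζ := Algebra.IsIntegral.isIntegral ζ
  have hζ' : IsPrimitiveRoot (j ζ) N := hζ.map_of_injective j.toRingHom.injective
  have hintE : IsIntegral E (j ζ) := Algebra.IsIntegral.isIntegral _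
  have hdegE : (minpoly E (j ζ)).natDegree ≤ m := by
    have h1 : minpoly E (j ζ) ∣ (minpoly K ζ).map (algebraMap K E) := by
      refine minpoly.dvd E _ ?_
      rw [aeval_map_algebraMap, aeval_algHom_apply, minpoly.aeval, map_zero]
    refine (natDegree_le_of_dvd h1 ((minpoly.monic hint).map _).ne_zero).trans ?_
    rw [(minpoly.monic hint).natDegree_map]
    exact hdeg
  have hfE : FiniteDimensional E E⟮j ζ⟯ := IntermediateField.adjoin.finiteDimensional hintE
  have hfr : Module.finrank E E⟮j ζ⟯ ≤ m := by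
    rw [IntermediateField.adjoin.finrank hintE]
    exact hdegE
  have hfin : FiniteDimensional ℚ_[p] E⟮j ζ⟯ := FiniteDimensional.trans ℚ_[p] E E⟮j ζ⟯
  have hfinrank : Module.finrank ℚ_[p] E⟮j ζ⟯ ≤ n * m := by
    rw [← Module.finrank_mul_finrank ℚ_[p] E E⟮j ζ⟯]
    exact Nat.mul_le_mul hEn hfr
  have hprim : IsPrimitiveRoot (IntermediateField.AdjoinSimple.gen E (j ζ)) N := by
    refine IsPrimitiveRoot.of_map_of_injective (f := algebraMap E⟮j ζ⟯ Ω) ?_ (algebraMap E⟮j ζ⟯ Ω).injective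
    rw [IntermediateField.AdjoinSimple.algebraMap_gen]
    exact hζ'
  exact pa_order hfinrank hN hprim

end Pool.Agent.Helper79.UN
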