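import Pool.Agent.Helper79.RG.RL

set_option autoImplicit false

/-!
# Roots of unity and tame symbols: uniform bounds
-/

set_option linter.unusedSectionVars false

namespace Pool.Agent.Helper79.UN

open scoped WithZero IntermediateField.algebraAdjoinAdjoin
open IntermediateField IsDedekindDomain
open Pool.Agent.Helper79.FE
open Pool.Agent.TH826.MK (KQ symb unitPart)
open Pool.Agent.Helper537_Sym (sy eq_cons)
open Pool.Agent.Helper79.RG

universe u v w

/-- the bound for the roots of unity, number fields -/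
theorem rb_nf_unif {n : ℕ} (K : Type*) [Field K] [NumberField K] (hn : Module.finrank ℚ K ≤ n) (D : ℕ) :
    RB K D (n * D * (n * D + 1)).factorial := by
  refine ⟨Nat.factorial_pos _, ?_⟩
  rintro P hP hPD ⟨m, hm, hPn⟩
  have : Fact (Irreducible P) := ⟨hP⟩
  have h1 : (AdjoinRoot.root P) ^ m = 1 := by
    have h2 := AdjoinRoot.mk_eq_zero.2 hPn
    rw [map_sub, map_pow, map_one, AdjoinRoot.mk_X] at h2
    exact sub_eq_zero.1 h2
  have h3 := nb_prim (K := K) D hm h1 P hP.ne_zero hPD (by rw [AdjoinRoot.aeval_eq, AdjoinRoot.mk_self])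
  have h4 : (Module.finrank ℚ K * D * (Module.finrank ℚ K * D + 1)).factorial ∣
      (n * D * (n * D + 1)).factorial := by
    refine Nat.factorial_dvd_factorial ?_
    have h5 : Module.finrank ℚ K * D ≤ n * D := Nat.mul_le_mul_right _ hn
    exact Nat.mul_le_mul h5 (by omega)
  obtain ⟨e, he⟩ := h4
  rw [← AdjoinRoot.mk_eq_zero, map_sub, map_pow, map_one, AdjoinRoot.mk_X, he, pow_mul, h3, one_pow, sub_self]

theorem fin_closure {F K : Type*} [Field F] [CharZero F] [Field K] [Algebra F K] {n : ℕ}
    (hn : ∀ x : K, IsAlgebraic F x → (minpoly F x).natDegree ≤ n) :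
    FiniteDimensional F (algebraicClosure F K) ∧ Module.finrank F (algebraicClosure F K) ≤ n := by
  have h0 : ∀ z : algebraicClosure F K, (minpoly F z).natDegree ≤ n := fun z => by
    have h2 : minpoly F (z : K) = minpoly F z := minpoly.algebraMap_eq (algebraMap (algebraicClosure F K) K).injective z
    rw [← h2]
    exact hn z (Algebra.IsAlgebraic.isAlgebraic (R := F) z).algebraMap
  have hfd : FiniteDimensional F (algebraicClosure F K) := by
    by_contra hnfd
    obtain ⟨E, hE, hlt⟩ := IntermediateField.exists_lt_finrank_of_infinite_dimensional hnfd n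
    obtain ⟨α, hα⟩ := Field.exists_primitive_element F E
    have h1 : Module.finrank F E = (minpoly F α).natDegree := by
      rw [← IntermediateField.adjoin.finrank (Algebra.IsIntegral.isIntegral α), hα, IntermediateField.finrank_top']
    have h2 : minpoly F (α : algebraicClosure F K) = minpoly F α :=
      minpoly.algebraMap_eq (algebraMap E (algebraicClosure F K)).injective α
    have h3 := h0 (α : algebraicClosure F K)
    rw [h2, ← h1] at h3
    omega
  refine ⟨hfd, ?_⟩
  obtain ⟨α, hα⟩ := Field.exists_primitive_element F (algebraicClosure F K)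
  have h1 : Module.finrank F (algebraicClosure F K) = (minpoly F α).natDegree := by
    rw [← IntermediateField.adjoin.finrank (Algebra.IsIntegral.isIntegral α), hα, IntermediateField.finrank_top']
  rw [h1]
  exact h0 α

/-- the bound for the roots of unity, fields whose algebraic numbers are of degree at most `n` -/
theorem rb_unif {n : ℕ} (K : Type*) [Field K] [CharZero K]
    (hn : ∀ x : K, IsAlgebraic ℚ x → (minpoly ℚ x).natDegree ≤ n) (D : ℕ) :
    RB K D (n * D * (n * D + 1)).factorial := by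
  obtain ⟨hfd, hle⟩ := fin_closure hn
  let K0 := algebraicClosure ℚ K
  have hal : (K0.algebra' : Algebra ℚ K0) = DivisionRing.toRatAlgebra := Subsingleton.elim _ _
  have hnf : NumberField K0 :=
    { to_charZero := inferInstance
      to_finiteDimensional := by
        convert hfd }
  have hle' : Module.finrank ℚ K0 ≤ n := by
    convert hle
  refine rb_ext (K := K0) (fun x hx => ?_) (rb_nf_unif K0 hle' D)
  exact ⟨⟨x, mem_algebraicClosure_iff.2 (hx.restrictScalars ℚ)⟩, rfl⟩

/-- the bound for the order of tame symbols -/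
theorem tame_bound_expl (K : Type u) [Field K] [CharZero K] {D B : ℕ} (h : RB K D B)
    {L : Type v} {E : Type w} [Field L] [Field E] [Algebra K L] [Algebra L E] (f g : Lˣ)
    (hf : FiniteDimensional K⟮(f : L)⟯ L) (hfD : Module.finrank K⟮(f : L)⟯ L ≤ D)
    (hg : FiniteDimensional K⟮(g : L)⟯ L) (hgD : Module.finrank K⟮(g : L)⟯ L ≤ D)
    (hsy : ∀ v ∈ VN K L, sy f g ∈ unitPart v 2)
    (w : Valuation E ℤᵐ⁰) (hw : ∀ x : K, x ≠ 0 → w (algebraMap L E (algebraMap K L x)) = 1) :
    TameTors w (2 * B) (algebraMap L E f) (algebraMap L E g) := by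
  let w' : Valuation L ℤᵐ⁰ := w.comap (algebraMap L E)
  have hww : ∀ x : L, w (algebraMap L E x) = w' x := fun x => rfl
  suffices hsuf : w' ((((-1) ^ (WithZero.log (w' (f : L)) * WithZero.log (w' (g : L))) *
      (f : L) ^ WithZero.log (w' (g : L)) / (g : L) ^ WithZero.log (w' (f : L)))) ^ (2 * B) - 1) < 1 by
    unfold TameTors
    rw [hww, hww]
    rw [← hww] at hsuf
    rw [map_sub, map_one, map_pow, map_div₀, map_mul, map_zpow₀, map_zpow₀, map_zpow₀, map_neg, map_one] at hsuf
    exact hsuf
  have hsq : ∀ n : ℤ, ((-1 : L) ^ n) ^ (2 * B) = 1 := by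
    intro n
    rw [pow_mul, ← zpow_natCast ((-1 : L) ^ n) 2, ← zpow_mul, mul_comm n, zpow_mul]
    norm_num
  rw [mul_div_assoc, mul_pow, hsq, one_mul]
  by_cases hne : w' (f : L) ≠ 1 ∨ w' (g : L) ≠ 1
  · obtain ⟨v, hvs, hv1⟩ := exists_norm w' (by
      rcases hne with h | h
      · exact ⟨f, f.ne_zero, h⟩
      · exact ⟨g, g.ne_zero, h⟩)
    have hvK : ∀ x : K, x ≠ 0 → v (algebraMap K L x) = 1 := fun x hx => (hv1 _).2 (hw x hx)
    have hne' : v (f : L) ≠ 1 ∨ v (g : L) ≠ 1 := by
      rcases hne with h2 | h2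
      · exact Or.inl fun h1 => h2 ((hv1 _).1 h1)
      · exact Or.inr fun h1 => h2 ((hv1 _).1 h1)
    have h1 := nbg_norm v hvs hvK h f g hf hfD hg hgD (hsy v ⟨hvs, hvK⟩) hne'
    -- the relation between the valuations
    obtain ⟨t, ht⟩ := hvs (WithZero.exp (-1 : ℤ))
    have ht0 : t ≠ 0 := by
      rintro rfl
      rw [map_zero] at ht
      exact WithZero.exp_ne_zero ht.symm
    have hlt : w' t < 1 := lt_of_same (v := v) (w := w') (fun a => (hv1 a).symm) (by
      rw [ht, ← WithZero.exp_zero, WithZero.exp_lt_exp]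
      norm_num)
    have hwt0 : w' t ≠ 0 := (Valuation.ne_zero_iff w').2 ht0
    obtain ⟨s, hs⟩ : ∃ s : ℤ, w' t = WithZero.exp s := ⟨_, (WithZero.exp_log hwt0).symm⟩
    have hs0 : s < 0 := by rwa [hs, ← WithZero.exp_zero, WithZero.exp_lt_exp] at hlt
    obtain ⟨e, he⟩ : ∃ e : ℕ, s = -e := ⟨s.natAbs, by omega⟩
    have hlog : ∀ x : Lˣ, WithZero.log (w' (x : L)) = e * WithZero.log (v (x : L)) := by
      intro x
      have hx0 : v (x : L) ≠ 0 := (Valuation.ne_zero_iff v).2 x.ne_zero
      obtain ⟨r, hr⟩ : ∃ r : ℤ, v (x : L) = WithZero.exp r := ⟨_, (WithZero.exp_log hx0).symm⟩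
      have h2 : v ((x : L) * t ^ r) = 1 := by
        rw [map_mul, map_zpow₀, ht, hr, ← WithZero.exp_zsmul, ← WithZero.exp_add, smul_eq_mul,
          show r + r * -1 = 0 by ring, WithZero.exp_zero]
      have h3 := (hv1 _).1 h2
      rw [map_mul, map_zpow₀, hs, ← WithZero.exp_zsmul, smul_eq_mul] at h3
      have h4 : w' (x : L) = WithZero.exp (-(r * s)) := by
        rw [WithZero.exp_neg]
        exact eq_inv_of_mul_eq_one_left h3
      rw [h4, hr, WithZero.log_exp, WithZero.log_exp, he]
      ring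
    rw [hlog, hlog]
    have h5 : ((f : L) ^ ((e : ℤ) * WithZero.log (v (g : L))) / (g : L) ^ ((e : ℤ) * WithZero.log (v (f : L)))) ^ (2 * B) =
        (((f : L) ^ WithZero.log (v (g : L)) / (g : L) ^ WithZero.log (v (f : L))) ^ (2 * B)) ^ e := by
      rw [mul_comm (e : ℤ), mul_comm (e : ℤ), zpow_mul, zpow_mul, zpow_natCast, zpow_natCast, ← div_pow, ← pow_mul,
        ← pow_mul, mul_comm]
    rw [h5]
    exact lt_of_same (v := v) (w := w') (fun a => (hv1 a).symm) (nb_pow v h1 e)
  · push Not at hne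
    rw [hne.1, hne.2, WithZero.log_one, zpow_zero, zpow_zero, div_one, one_pow, sub_self, map_zero]
    exact zero_lt_one


end Pool.Agent.Helper79.UN
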