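import Pool.Agent.Helper79.UN.UG
import Pool.Agent.Helper79.UN.NU
import Pool.Agent.Helper79.RG.FIN

set_option autoImplicit false

/-!
# Uniform boundedness of the number of pairs over fields with few roots of unity
-/

set_option linter.unusedSectionVars false

universe u

namespace Pool.Agent.Helper79.UN

open scoped WithZero
open Filter
open IntermediateField
open Pool.Agent.Helper79.FE
open Pool.Agent.TH826.MK (KQ symb unitPart)
open Pool.Agent.Helper537_Sym
open Pool.Agent.Helper79.RG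

theorem uniform_pairs_rb (D B0 : ℕ) : ∃ B : ℕ, ∀ (K L : Type u) [Field K] [CharZero K] [Field L] [Algebra K L],
    RB K D B0 → IsFun K L →
    {p : Lˣ × Lˣ | Transcendental K (p.1 : L) ∧ Module.finrank K⟮(p.1 : L)⟯ L ≤ D ∧ Transcendental K (p.2 : L) ∧
        Module.finrank K⟮(p.2 : L)⟯ L ≤ D ∧ (∀ v ∈ VN K L, sy p.1 p.2 ∈ unitPart v 2) ∧
        TwoRegT K (IntermediateField.adjoin K {(p.1 : L), (p.2 : L)})}.encard ≤ B := by
  by_cases hB0 : 0 < B0
  swap
  · exact ⟨0, fun K L _ _ _ _ hRB => absurd hRB.1 hB0⟩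
  obtain ⟨B, hB⟩ := uniform_pairs_core.{u} D (N := 2 * B0) (by omega)
  refine ⟨B, fun K L _ _ _ _ hRB hL => ?_⟩
  obtain ⟨k, L0, _, _, _, _, _, _, _, _, _, _, _, hL0, htr, hdeg⟩ := exists_bc hL
  let F : Lˣ × Lˣ → L0 × L0 := fun p => (algebraMap L L0 (p.1 : L), algebraMap L L0 (p.2 : L))
  have hF : Function.Injective F := fun p q h =>
    Prod.ext (Units.ext ((algebraMap L L0).injective (congrArg Prod.fst h)))
      (Units.ext ((algebraMap L L0).injective (congrArg Prod.snd h)))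
  rw [← hF.encard_image]
  refine (Set.encard_le_encard ?_).trans (hB k L0 hL0)
  rintro _ ⟨⟨f, g⟩, ⟨hf, hfd, hg, hgd, hun, h2⟩, rfl⟩
  refine ⟨htr _ hf, (hdeg _ hf).trans hfd, htr _ hg, (hdeg _ hg).trans hgd, fun v hv => ?_,
    (twoReg_bc hL0 hL htr h2).twoReg⟩
  refine tame_bound_expl K hRB f g (hL.alg hf) hfd (hL.alg hg) hgd hun v fun x hx => ?_
  rw [← IsScalarTower.algebraMap_apply K L L0, IsScalarTower.algebraMap_apply K k L0]
  exact hv.2 _ ((map_ne_zero _).2 hx)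

/-- **uniform boundedness of the number of pairs** -/
theorem uniform_pairs (D n : ℕ) : ∃ B : ℕ, ∀ (K L : Type u) [Field K] [CharZero K] [Field L] [Algebra K L],
    (∀ x : K, IsAlgebraic ℚ x → (minpoly ℚ x).natDegree ≤ n) → IsFun K L →
    {p : Lˣ × Lˣ | Transcendental K (p.1 : L) ∧ Module.finrank K⟮(p.1 : L)⟯ L ≤ D ∧ Transcendental K (p.2 : L) ∧
        Module.finrank K⟮(p.2 : L)⟯ L ≤ D ∧ (∀ v ∈ VN K L, sy p.1 p.2 ∈ unitPart v 2) ∧
        TwoRegT K (IntermediateField.adjoin K {(p.1 : L), (p.2 : L)})}.encard ≤ B := by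
  obtain ⟨B, hB⟩ := uniform_pairs_rb.{u} D (n * D * (n * D + 1)).factorial
  exact ⟨B, fun K L _ _ _ _ hn hL => hB K L (rb_unif K hn D) hL⟩

end Pool.Agent.Helper79.UN
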