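import Pool.Agent.Helper79.UN.UW
import Pool.Agent.Helper79.UN.UH
import Pool.Agent.Helper79.UN.PB
import Pool.Agent.Helper79.RG.TR

set_option autoImplicit false

/-!
# Absolute uniform boundedness: all fields of characteristic zero, tame symbols of bounded order
-/

set_option linter.unusedSectionVars false

universe u

namespace Pool.Agent.Helper79.UN

open scoped WithZero
open Filter
open IntermediateField
open Pool.Agent.Helper79.FE
open Pool.Agent.TH826.MK (KQ symb unitPart)
open Pool.Agent.Helper537_Sym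
open Pool.Agent.Helper79.RG

/-- **absolute uniform boundedness**, tame symbols of order dividing `N`, all fields -/
theorem uniform_abs (D : ℕ) {N : ℕ} (hN : 0 < N) : ∃ B : ℕ, ∀ (K L : Type u) [Field K] [CharZero K] [Field L] [Algebra K L],
    IsFun K L → (∀ x : L, IsAlgebraic K x → ∃ c : K, algebraMap K L c = x) →
    {z : KQ L 2 ⧸ LinearMap.range (KQ.map 2 (algebraMap K L)) | ∃ f g : Lˣ, (Module.finrank K⟮(f : L)⟯ L ≤ D ∧
      Module.finrank K⟮(g : L)⟯ L ≤ D ∧ ∀ v ∈ VN K L, TameTors v N (f : L) (g : L)) ∧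
      z = Submodule.Quotient.mk (sy f g)}.encard ≤ B := by
  obtain ⟨B, hB⟩ := uniform_core.{u} D hN
  refine ⟨B + 1, fun K L _ _ _ _ hL hK => ?_⟩
  obtain ⟨k, L0, _, _, _, _, _, _, _, _, _, _, _, hL0, htr, hdeg⟩ := exists_bc hL
  have hLL0 : Algebra.IsAlgebraic L L0 := by
    obtain ⟨x, hx, -⟩ := hL
    have := hL0.alg (htr x hx)
    exact alg_bc (K := K) (k := k) x
  -- the map on quotients
  let Φ : (KQ L 2 ⧸ LinearMap.range (KQ.map 2 (algebraMap K L))) →ₗ[ℚ]
      (KQ L0 2 ⧸ LinearMap.range (KQ.map 2 (algebraMap k L0))) :=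
    Submodule.mapQ _ _ (KQ.map 2 (algebraMap L L0)) (by
      rintro _ ⟨y, rfl⟩
      refine ⟨KQ.map 2 (algebraMap K k) y, ?_⟩
      rw [kmap_map (algebraMap K k) (algebraMap k L0) (algebraMap K L0)
        (fun x => (IsScalarTower.algebraMap_apply K k L0 x).symm),
        kmap_map (algebraMap K L) (algebraMap L L0) (algebraMap K L0)
        (fun x => (IsScalarTower.algebraMap_apply K L L0 x).symm)])
  have hΦ : Function.Injective Φ := by
    rw [injective_iff_map_eq_zero]
    intro z hz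
    obtain ⟨δ, rfl⟩ := Submodule.Quotient.mk_surjective _ z
    have h1 : Φ (Submodule.Quotient.mk δ) = Submodule.Quotient.mk (KQ.map 2 (algebraMap L L0) δ) := rfl
    rw [h1, Submodule.Quotient.mk_eq_zero] at hz
    obtain ⟨y, hy⟩ := hz
    rw [Submodule.Quotient.mk_eq_zero]
    exact descent hK δ y hy.symm
  set S1 := {z : KQ L0 2 ⧸ LinearMap.range (KQ.map 2 (algebraMap k L0)) | ∃ f g : L0ˣ, Transcendental k (f : L0) ∧
    Module.finrank k⟮(f : L0)⟯ L0 ≤ D ∧ Transcendental k (g : L0) ∧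
      Module.finrank k⟮(g : L0)⟯ L0 ≤ D ∧ (∀ v ∈ VN k L0, TameTors v N (f : L0) (g : L0)) ∧
      z = Submodule.Quotient.mk (sy f g)} with hS1
  have hS1B : S1.encard ≤ B := hB k L0 hL0 S1 fun z hz => hz
  rw [← hΦ.encard_image]
  have hsub : Φ '' {z : KQ L 2 ⧸ LinearMap.range (KQ.map 2 (algebraMap K L)) | ∃ f g : Lˣ,
      (Module.finrank K⟮(f : L)⟯ L ≤ D ∧ Module.finrank K⟮(g : L)⟯ L ≤ D ∧ ∀ v ∈ VN K L, TameTors v N (f : L) (g : L)) ∧
      z = Submodule.Quotient.mk (sy f g)} ⊆ S1 ∪ {0} := by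
    rintro _ ⟨z, ⟨f, g, ⟨hfd, hgd, hta⟩, rfl⟩, rfl⟩
    have hun : ∀ v ∈ VN K L, sy f g ∈ unitPart v 2 := fun v hv => tame_unit v hv.1 hN f g (hta v hv)
    by_cases hf : Transcendental K (f : L)
    · by_cases hg : Transcendental K (g : L)
      · left
        refine ⟨Units.map ((algebraMap L L0 : L →+* L0) : L →* L0) f,
          Units.map ((algebraMap L L0 : L →+* L0) : L →* L0) g, htr _ hf, (hdeg _ hf).trans hfd, htr _ hg,
          (hdeg _ hg).trans hgd, fun v hv => ?_, ?_⟩
        · refine tame_res f.ne_zero g.ne_zero hta v fun x hx => ?_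
          rw [← IsScalarTower.algebraMap_apply K L L0, IsScalarTower.algebraMap_apply K k L0]
          exact hv.2 _ ((map_ne_zero _).2 hx)
        · show Submodule.Quotient.mk (KQ.map 2 (algebraMap L L0) (sy f g)) = _
          rw [map_sy']
      · right
        have hg' : ∃ a : K, algebraMap K L a = g := by
          obtain ⟨c, hc⟩ := hK g (not_not.1 hg)
          exact ⟨c, hc⟩
        have h1 : sy f g = 0 := by
          rw [sy_swap, one_const' hL g f (fun v hv => unitPart_swap v f g (hun v hv)) hg' hf, neg_zero]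
        rw [h1, Submodule.Quotient.mk_zero, map_zero]
        rfl
    · right
      obtain ⟨a, ha⟩ := hK f (not_not.1 hf)
      by_cases hg : Transcendental K (g : L)
      · rw [one_const' hL f g hun ⟨a, ha⟩ hg, Submodule.Quotient.mk_zero, map_zero]
        rfl
      · obtain ⟨b, hb⟩ := hK g (not_not.1 hg)
        obtain ⟨a', ha'⟩ := unit_sub a f ha
        obtain ⟨b', hb'⟩ := unit_sub b g hb
        have h1 : (Submodule.Quotient.mk (sy f g) : KQ L 2 ⧸ LinearMap.range (KQ.map 2 (algebraMap K L))) = 0 := by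
          rw [Submodule.Quotient.mk_eq_zero]
          exact ⟨sy a' b', by rw [map_sy', ha', hb']⟩
        rw [h1, map_zero]
        rfl
  calc (Φ '' _).encard ≤ (S1 ∪ {0}).encard := Set.encard_le_encard hsub
    _ ≤ S1.encard + ({0} : Set _).encard := Set.encard_union_le _ _
    _ ≤ (B : ℕ∞) + 1 := by
        rw [Set.encard_singleton]
        exact add_le_add hS1B le_rfl
    _ = ((B + 1 : ℕ) : ℕ∞) := by rw [Nat.cast_add, Nat.cast_one]

/-- the one-dimensional case, inside the algebraic closure of `L` -/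
theorem uniform_curve_abs (D : ℕ) {N : ℕ} (hN : 0 < N) : ∃ B : ℕ, ∀ (K L : Type u) [Field K] [CharZero K] [Field L] [Algebra K L],
    IsFun K L → ∀ (C : Type u) [Field C] [Algebra C (AlgebraicClosure L)],
    (∀ x : AlgebraicClosure L, IsAlgebraic K x → ∃ c : C, algebraMap C (AlgebraicClosure L) c = x) →
    {z : KQ (AlgebraicClosure L) 2 ⧸ LinearMap.range (KQ.map 2 (algebraMap C (AlgebraicClosure L))) |
      ∃ f g : Lˣ, Module.finrank K⟮(f : L)⟯ L ≤ D ∧ Module.finrank K⟮(g : L)⟯ L ≤ D ∧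
      (∀ v ∈ VN K L, TameTors v N (f : L) (g : L)) ∧
      z = Submodule.Quotient.mk (KQ.map 2 (algebraMap L (AlgebraicClosure L)) (sy f g))}.encard ≤ B := by
  obtain ⟨B, hB⟩ := uniform_core.{u} D hN
  refine ⟨B + 1, fun K L _ _ _ _ hL C _ _ hC => ?_⟩
  obtain ⟨k, L0, _, _, _, _, _, _, _, _, _, _, _, _, _, _, _, _, hL0, htr, hdeg⟩ := exists_bc2 hL
  -- `k → C`
  obtain ⟨i, hi⟩ := exists_hom (R1 := k) (R2 := C) (L := AlgebraicClosure L)
    (algebraMap C (AlgebraicClosure L)).injective (fun a => hC _ (by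
      exact (Algebra.IsAlgebraic.isAlgebraic (R := K) a).algebraMap))
  let Φ : (KQ L0 2 ⧸ LinearMap.range (KQ.map 2 (algebraMap k L0))) →ₗ[ℚ]
      (KQ (AlgebraicClosure L) 2 ⧸ LinearMap.range (KQ.map 2 (algebraMap C (AlgebraicClosure L)))) :=
    Submodule.mapQ _ _ (KQ.map 2 (algebraMap L0 (AlgebraicClosure L))) (by
      rintro _ ⟨y, rfl⟩
      refine ⟨KQ.map 2 i y, ?_⟩
      rw [kmap_map i (algebraMap C (AlgebraicClosure L)) (algebraMap k (AlgebraicClosure L)) hi,
        kmap_map (algebraMap k L0) (algebraMap L0 (AlgebraicClosure L)) (algebraMap k (AlgebraicClosure L))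
        (fun x => (IsScalarTower.algebraMap_apply k L0 (AlgebraicClosure L) x).symm)])
  set S1 := {z : KQ L0 2 ⧸ LinearMap.range (KQ.map 2 (algebraMap k L0)) | ∃ f g : L0ˣ, Transcendental k (f : L0) ∧
    Module.finrank k⟮(f : L0)⟯ L0 ≤ D ∧ Transcendental k (g : L0) ∧
      Module.finrank k⟮(g : L0)⟯ L0 ≤ D ∧ (∀ v ∈ VN k L0, TameTors v N (f : L0) (g : L0)) ∧
      z = Submodule.Quotient.mk (sy f g)} with hS1
  have hS1B : S1.encard ≤ B := hB k L0 hL0 S1 fun z hz => hz
  have hsub : {z : KQ (AlgebraicClosure L) 2 ⧸ LinearMap.range (KQ.map 2 (algebraMap C (AlgebraicClosure L))) |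
      ∃ f g : Lˣ, Module.finrank K⟮(f : L)⟯ L ≤ D ∧ Module.finrank K⟮(g : L)⟯ L ≤ D ∧
      (∀ v ∈ VN K L, TameTors v N (f : L) (g : L)) ∧
      z = Submodule.Quotient.mk (KQ.map 2 (algebraMap L (AlgebraicClosure L)) (sy f g))} ⊆ Φ '' S1 ∪ {0} := by
    rintro z ⟨f, g, hfd, hgd, hta, rfl⟩
    have hun : ∀ v ∈ VN K L, sy f g ∈ unitPart v 2 := fun v hv => tame_unit v hv.1 hN f g (hta v hv)
    by_cases hf : Transcendental K (f : L)
    · by_cases hg : Transcendental K (g : L)
      · left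
        let f0 : L0ˣ := Units.map ((algebraMap L L0 : L →+* L0) : L →* L0) f
        let g0 : L0ˣ := Units.map ((algebraMap L L0 : L →+* L0) : L →* L0) g
        have hm : (Submodule.Quotient.mk (sy f0 g0) : KQ L0 2 ⧸ LinearMap.range (KQ.map 2 (algebraMap k L0))) ∈ S1 := by
          refine ⟨f0, g0, htr (f : L) hf, (hdeg (f : L) hf).trans hfd, htr (g : L) hg,
            (hdeg (g : L) hg).trans hgd, fun v hv => ?_, rfl⟩
          refine tame_res f.ne_zero g.ne_zero hta v fun x hx => ?_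
          rw [← IsScalarTower.algebraMap_apply K L L0, IsScalarTower.algebraMap_apply K k L0]
          exact hv.2 _ ((map_ne_zero _).2 hx)
        refine ⟨_, hm, ?_⟩
        show Submodule.Quotient.mk (KQ.map 2 (algebraMap L0 (AlgebraicClosure L)) (sy f0 g0)) = _
        have h3 : sy f0 g0 = KQ.map 2 (algebraMap L L0) (sy f g) := by rw [map_sy']
        rw [h3, kmap_map (algebraMap L L0) (algebraMap L0 (AlgebraicClosure L)) (algebraMap L (AlgebraicClosure L))
          (fun x => (IsScalarTower.algebraMap_apply L L0 (AlgebraicClosure L) x).symm)]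
      · right
        have h1 : sy f g = 0 := by
          rw [sy_swap, one_alg hL g f (fun v hv => unitPart_swap v f g (hun v hv)) (not_not.1 hg) hf, neg_zero]
        rw [h1, map_zero, Submodule.Quotient.mk_zero]
        rfl
    · right
      by_cases hg : Transcendental K (g : L)
      · rw [one_alg hL f g hun (not_not.1 hf) hg, map_zero, Submodule.Quotient.mk_zero]
        rfl
      · obtain ⟨a, ha⟩ := hC (algebraMap L (AlgebraicClosure L) (f : L)) (not_not.1 hf).algebraMap
        obtain ⟨b, hb⟩ := hC (algebraMap L (AlgebraicClosure L) (g : L)) (not_not.1 hg).algebraMap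
        let F : (AlgebraicClosure L)ˣ := Units.map ((algebraMap L (AlgebraicClosure L) : L →+* _) : L →* _) f
        let G : (AlgebraicClosure L)ˣ := Units.map ((algebraMap L (AlgebraicClosure L) : L →+* _) : L →* _) g
        have hF : algebraMap C (AlgebraicClosure L) a = (F : AlgebraicClosure L) := ha
        have hG : algebraMap C (AlgebraicClosure L) b = (G : AlgebraicClosure L) := hb
        obtain ⟨a', ha'⟩ := unit_sub a F hF
        obtain ⟨b', hb'⟩ := unit_sub b G hG
        rw [map_sy']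
        have h2 : (Submodule.Quotient.mk (sy F G) :
            KQ (AlgebraicClosure L) 2 ⧸ LinearMap.range (KQ.map 2 (algebraMap C (AlgebraicClosure L)))) = 0 := by
          rw [Submodule.Quotient.mk_eq_zero]
          exact ⟨sy a' b', by rw [map_sy', ha', hb']⟩
        exact h2
  calc _ ≤ (Φ '' S1 ∪ {0}).encard := Set.encard_le_encard hsub
    _ ≤ (Φ '' S1).encard + ({0} : Set _).encard := Set.encard_union_le _ _
    _ ≤ (B : ℕ∞) + 1 := by
        rw [Set.encard_singleton]
        exact add_le_add ((Set.encard_image_le _ _).trans hS1B) le_rfl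
    _ = ((B + 1 : ℕ) : ℕ∞) := by rw [Nat.cast_add, Nat.cast_one]

/-- **absolute uniform boundedness**, finitely generated extensions -/
theorem uniform_var_abs (D d : ℕ) {N : ℕ} (hN : 0 < N) : ∃ B : ℕ, ∀ (K L : Type u) [Field K] [CharZero K] [Field L] [Algebra K L],
    (∃ S : Finset L, IntermediateField.adjoin K (S : Set L) = ⊤) →
    (∀ x : L, IsAlgebraic K x → ∃ c : K, algebraMap K L c = x) → ∀ u : Set L, u.Finite → u.ncard ≤ d →
    IsTranscendenceBasis K ((↑) : u → L) →
    {z : KQ L 2 ⧸ LinearMap.range (KQ.map 2 (algebraMap K L)) | ∃ f g : Lˣ,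
      ((∀ t ∈ u, Module.finrank (IntermediateField.adjoin K (u \ {t}))⟮(f : L)⟯ L ≤ D ∧
        Module.finrank (IntermediateField.adjoin K (u \ {t}))⟮(g : L)⟯ L ≤ D) ∧
      ∀ v ∈ VN K L, TameTors v N (f : L) (g : L)) ∧ z = Submodule.Quotient.mk (sy f g)}.encard ≤ B := by
  obtain ⟨B, hB⟩ := uniform_curve_abs.{u} D hN
  refine ⟨(B + 1) ^ d, fun K L _ _ _ _ hfg hK u hufin hud hu => ?_⟩
  classical
  obtain ⟨S, hS⟩ := hfg
  have hLc : CharZero L := charZero_of_injective_algebraMap (algebraMap K L).injective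
  let Ω := AlgebraicClosure L
  have hufin' : Finite u := hufin.to_subtype
  -- the constants of the intermediate fields
  have hKu : ∀ j : L, (∀ x : IntermediateField.adjoin K (u \ {j}), IsAlgebraic K x →
      ∃ c : K, algebraMap K (IntermediateField.adjoin K (u \ {j})) c = x) := by
    intro j x hx
    obtain ⟨c, hc⟩ := hK (x : L) (hx.algebraMap)
    exact ⟨c, Subtype.ext hc⟩
  -- the finite sets
  let Z : (j : u) → Set (KQ Ω 2 ⧸ LinearMap.range (KQ.map 2 (algebraMap (KA K Ω (u \ {(j : L)})) Ω))) := fun j =>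
    {z | ∃ f g : Lˣ, Module.finrank (IntermediateField.adjoin K (u \ {(j : L)}))⟮(f : L)⟯ L ≤ D ∧
        Module.finrank (IntermediateField.adjoin K (u \ {(j : L)}))⟮(g : L)⟯ L ≤ D ∧
        (∀ v ∈ VN (IntermediateField.adjoin K (u \ {(j : L)})) L, TameTors v N (f : L) (g : L)) ∧
      z = Submodule.Quotient.mk (KQ.map 2 (algebraMap L Ω) (sy f g))}
  have hZ : ∀ j, (Z j).encard ≤ ((B + 1 : ℕ) : ℕ∞) := by
    intro j
    refine (hB (IntermediateField.adjoin K (u \ {(j : L)})) L (basis_isFun hu S hS j.2)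
      (KA K Ω (u \ {(j : L)})) (fun x hx => ?_)).trans (by exact_mod_cast Nat.le_succ B)
    exact ⟨⟨x, (mem_KA Ω _ x).2 hx⟩, rfl⟩
  -- the map
  have hle : ∀ j : u, LinearMap.range (KQ.map 2 (algebraMap K L)) ≤
      LinearMap.ker ((LinearMap.range (KQ.map 2 (algebraMap (KA K Ω (u \ {(j : L)})) Ω))).mkQ.comp
        (KQ.map 2 (algebraMap L Ω))) := by
    rintro j _ ⟨y, rfl⟩
    rw [LinearMap.mem_ker, LinearMap.comp_apply, Submodule.mkQ_apply, Submodule.Quotient.mk_eq_zero]
    refine ⟨KQ.map 2 (algebraMap K (KA K Ω (u \ {(j : L)}))) y, ?_⟩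
    rw [kmap_map (algebraMap K (KA K Ω (u \ {(j : L)}))) (algebraMap _ Ω) (algebraMap K Ω) (fun x => rfl),
      kmap_map (algebraMap K L) (algebraMap L Ω) (algebraMap K Ω)
        (fun x => (IsScalarTower.algebraMap_apply K L Ω x).symm)]
  let Ψ : (KQ L 2 ⧸ LinearMap.range (KQ.map 2 (algebraMap K L))) →ₗ[ℚ]
      ((j : u) → (KQ Ω 2 ⧸ LinearMap.range (KQ.map 2 (algebraMap (KA K Ω (u \ {(j : L)})) Ω)))) :=
    LinearMap.pi fun j => (LinearMap.range (KQ.map 2 (algebraMap K L))).liftQ _ (hle j)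
  have hΨ : ∀ (x : KQ L 2) (j : u), Ψ (Submodule.Quotient.mk x) j =
      Submodule.Quotient.mk (KQ.map 2 (algebraMap L Ω) x) := fun x j => rfl
  have hinj : Function.Injective Ψ := by
    rw [injective_iff_map_eq_zero]
    intro z hz
    obtain ⟨δ, rfl⟩ := Submodule.Quotient.mk_surjective _ z
    rw [Submodule.Quotient.mk_eq_zero]
    have h1 : ∀ j ∈ u, KQ.map 2 (algebraMap L Ω) δ ∈
        LinearMap.range (KQ.map 2 (algebraMap (KA K Ω (u \ {j})) Ω)) := by
      intro j hj
      have h2 := congrFun hz ⟨j, hj⟩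
      rw [hΨ] at h2
      exact (Submodule.Quotient.mk_eq_zero _).1 h2
    have h3 := inter_all u hu _ h1 hufin.toFinset (by rw [hufin.coe_toFinset])
    rw [hufin.coe_toFinset, Set.diff_self] at h3
    obtain ⟨y, hy⟩ := h3
    have c1 := KA_closed (K := K) Ω (∅ : Set L)
    have c2 : Algebra.IsAlgebraic K (KA K Ω (∅ : Set L)) := by
      constructor
      intro x
      have h4 := (mem_KA Ω (∅ : Set L) (x : Ω)).1 x.2
      refine alg_over (Ω := Ω) (F1 := IntermediateField.adjoin K (∅ : Set L)) (fun a => ?_) x h4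
      have h5 : (a : L) ∈ (⊥ : IntermediateField K L) := by
        rw [← IntermediateField.adjoin_empty]
        exact a.2
      obtain ⟨c, hc⟩ := IntermediateField.mem_bot.1 h5
      refine ⟨c, ?_⟩
      have h6 : algebraMap (IntermediateField.adjoin K (∅ : Set L)) Ω a = algebraMap L Ω (a : L) := rfl
      rw [h6, ← hc, ← IsScalarTower.algebraMap_apply K L Ω]
      rfl
    exact descent hK δ y hy.symm
  rw [← hinj.encard_image]
  refine (Set.encard_le_encard (t := Set.pi Set.univ Z) ?_).trans ((encard_pi_le Z (B + 1) hZ).trans ?_)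
  · rintro _ ⟨z, ⟨f, g, ⟨hfg, hun⟩, rfl⟩, rfl⟩ j _
    refine ⟨f, g, (hfg j j.2).1, (hfg j j.2).2, fun v hv => hun v ⟨hv.1, fun x hx => ?_⟩, hΨ _ _⟩
    rw [IsScalarTower.algebraMap_apply K (IntermediateField.adjoin K (u \ {(j : L)})) L]
    exact hv.2 _ ((map_ne_zero _).2 hx)
  · rw [Nat.card_coe_set_eq]
    refine Nat.cast_le.2 ?_
    exact Nat.pow_le_pow_right (by omega) hud

/-- **absolute uniform boundedness of the number of pairs** -/
theorem uniform_pairs_abs (D : ℕ) {N : ℕ} (hN : 0 < N) : ∃ B : ℕ, ∀ (K L : Type u) [Field K] [CharZero K] [Field L] [Algebra K L],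
    IsFun K L →
    {p : Lˣ × Lˣ | Transcendental K (p.1 : L) ∧ Module.finrank K⟮(p.1 : L)⟯ L ≤ D ∧ Transcendental K (p.2 : L) ∧
        Module.finrank K⟮(p.2 : L)⟯ L ≤ D ∧ (∀ v ∈ VN K L, TameTors v N (p.1 : L) (p.2 : L)) ∧
        TwoRegT K (IntermediateField.adjoin K {(p.1 : L), (p.2 : L)})}.encard ≤ B := by
  obtain ⟨B, hB⟩ := uniform_pairs_core.{u} D hN
  refine ⟨B, fun K L _ _ _ _ hL => ?_⟩
  obtain ⟨k, L0, _, _, _, _, _, _, _, _, _, _, _, hL0, htr, hdeg⟩ := exists_bc hL
  let F : Lˣ × Lˣ → L0 × L0 := fun p => (algebraMap L L0 (p.1 : L), algebraMap L L0 (p.2 : L))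
  have hF : Function.Injective F := fun p q h =>
    Prod.ext (Units.ext ((algebraMap L L0).injective (congrArg Prod.fst h)))
      (Units.ext ((algebraMap L L0).injective (congrArg Prod.snd h)))
  rw [← hF.encard_image]
  refine (Set.encard_le_encard ?_).trans (hB k L0 hL0)
  rintro _ ⟨⟨f, g⟩, ⟨hf, hfd, hg, hgd, hun, h2⟩, rfl⟩
  refine ⟨htr _ hf, (hdeg _ hf).trans hfd, htr _ hg, (hdeg _ hg).trans hgd, fun v hv => ?_,
    (twoReg_bc hL0 hL htr h2).twoReg⟩
  refine tame_res f.ne_zero g.ne_zero hun v fun x hx => ?_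
  rw [← IsScalarTower.algebraMap_apply K L L0, IsScalarTower.algebraMap_apply K k L0]
  exact hv.2 _ ((map_ne_zero _).2 hx)

/-- few roots of unity -/
theorem few_tame {K : Type u} [Field K] [CharZero K] {R : ℕ → ℕ} (h : Few K R) {D : ℕ} {L : Type u} [Field L]
    [Algebra K L] (hL : IsFun K L) (f g : Lˣ) (hf : Transcendental K (f : L))
    (hfD : Module.finrank K⟮(f : L)⟯ L ≤ D) (hg : Transcendental K (g : L)) (hgD : Module.finrank K⟮(g : L)⟯ L ≤ D)
    (hsy : ∀ v ∈ VN K L, sy f g ∈ unitPart v 2) : ∀ v ∈ VN K L, TameTors v (2 * (R D).factorial) (f : L) (g : L) :=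
  fun v hv => tame_bound_expl K (few_rb h D) f g (hL.alg hf) hfD (hL.alg hg) hgD hsy v hv.2

end Pool.Agent.Helper79.UN
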