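import Pool.Agent.Helper79.UN.UX

set_option autoImplicit false

/-!
# Uniform boundedness for coverings of varieties
-/

set_option linter.unusedSectionVars false

universe u

namespace Pool.Agent.Helper79.UN

open scoped WithZero IntermediateField.algebraAdjoinAdjoin
open Filter
open IntermediateField
open Pool.Agent.Helper79.FE
open Pool.Agent.TH826.MK (KQ symb unitPart)
open Pool.Agent.Helper537_Sym
open Pool.Agent.Helper79.RG
open Pool.Agent.Helper79.QP (up gg mem_UU norm_mem sy_prod_left UU)

/-- transcendence bases and algebraic extensions -/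
theorem basis_ext {K K' L M : Type u} [Field K] [Field K'] [Field L] [Field M] [Algebra K K'] [Algebra K L]
    [Algebra K M] [Algebra K' M] [Algebra L M] [IsScalarTower K K' M] [IsScalarTower K L M]
    [Algebra.IsAlgebraic K K'] [Algebra.IsAlgebraic L M] {u : Set L} (hu : IsTranscendenceBasis K ((↑) : u → L)) :
    IsTranscendenceBasis K' ((↑) : (algebraMap L M '' u) → M) := by
  have h1 : IsTranscendenceBasis K (algebraMap L M ∘ ((↑) : u → L)) := hu.algebraMap_comp
  have hr : Set.range (algebraMap L M ∘ ((↑) : u → L)) = algebraMap L M '' u := by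
    rw [Set.range_comp, Subtype.range_coe]
  refine IsTranscendenceBasis.to_subtype_range' (x := algebraMap L M ∘ ((↑) : u → L)) ?_ hr
  rw [isTranscendenceBasis_iff_algebraicIndependent_isAlgebraic]
  refine ⟨h1.1.extendScalars K', ?_⟩
  have h2 := h1.isAlgebraic
  constructor
  intro x
  rw [IsFractionRing.isAlgebraic_iff (Algebra.adjoin K' (Set.range (algebraMap L M ∘ ((↑) : u → L))))
    (IntermediateField.adjoin K' (Set.range (algebraMap L M ∘ ((↑) : u → L)))) M]
  have h3 : IsAlgebraic (IntermediateField.adjoin K (Set.range (algebraMap L M ∘ ((↑) : u → L)))) x :=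
    (IsFractionRing.isAlgebraic_iff (Algebra.adjoin K (Set.range (algebraMap L M ∘ ((↑) : u → L))))
      (IntermediateField.adjoin K (Set.range (algebraMap L M ∘ ((↑) : u → L)))) M).1 (h2.isAlgebraic x)
  refine alg_over (Ω := M) (F1 := IntermediateField.adjoin K (Set.range (algebraMap L M ∘ ((↑) : u → L))))
    (fun a => ?_) x h3
  have hle : IntermediateField.adjoin K (Set.range (algebraMap L M ∘ ((↑) : u → L))) ≤
      (IntermediateField.adjoin K' (Set.range (algebraMap L M ∘ ((↑) : u → L)))).restrictScalars K :=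
    IntermediateField.adjoin_le_iff.2 (IntermediateField.subset_adjoin K' _)
  exact ⟨⟨a, hle a.2⟩, rfl⟩

/-- the main step -/
theorem uniform_rel_var_core (D m B0 r : ℕ) : ∃ B : ℕ, ∀ (K F L M : Type u) [Field K] [CharZero K] [Field F] [Field L]
    [Field M] [Algebra K F] [Algebra K L] [Algebra F L] [Algebra K M] [Algebra F M] [Algebra L M]
    [IsScalarTower K F L] [IsScalarTower K L M] [IsScalarTower F L M] [IsScalarTower K F M]
    [FiniteDimensional F M] [IsGalois F M] [FiniteDimensional L M], Module.finrank F M ≤ m →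
    RB K ((2 * (D * m) * (D * m) + D * m) * m) B0 → (∃ S : Finset L, IntermediateField.adjoin K (S : Set L) = ⊤) →
    (∀ x : L, IsAlgebraic K x → ∃ c : K, algebraMap K L c = x) → ∀ u : Set L, u.Finite → u.ncard ≤ r →
    IsTranscendenceBasis K ((↑) : u → L) → (∀ t ∈ u, ∃ a : F, algebraMap F L a = t) →
    {z : KQ L 2 ⧸ LinearMap.range (KQ.map 2 (algebraMap F L)) | ∃ (f : Lˣ) (w : Fˣ) (β : KQ L 2),
      β ∈ LinearMap.range (KQ.map 2 (algebraMap F L)) ∧
      (∀ t ∈ u, Module.finrank (IntermediateField.adjoin K (u \ {t}))⟮(f : L)⟯ L ≤ D) ∧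
      (∀ t ∈ u, Module.finrank (IntermediateField.adjoin K (u \ {t}))⟮algebraMap F L w⟯ L ≤ D) ∧
      (∀ v ∈ VN K L, sy f (up F L w) + β ∈ unitPart v 2) ∧
      z = Submodule.Quotient.mk (sy f (up F L w))}.encard ≤ B := by
  obtain ⟨B1, hB1⟩ := uniform_var_rb.{u} (2 * (D * m) * (D * m) + D * m) B0 r
  refine ⟨(B1 + 1) ^ m, ?_⟩
  intro K F L M _ _ _ _ _ _ _ _ _ _ _ _ _ _ _ _ _ _ hm hRB hL hK u hufin hur hu huF
  classical
  have hfinG : Fintype (M ≃ₐ[F] M) := Fintype.ofFinite _
  set R := LinearMap.range (KQ.map 2 (algebraMap F L)) with hR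
  set RM := LinearMap.range (KQ.map 2 (algebraMap F M)) with hRM
  have hMc : CharZero M := charZero_of_injective_algebraMap (algebraMap K M).injective
  -- the constants of `M`
  let K' := algebraicClosure K M
  obtain ⟨hK'fin, hK'le⟩ := fin_closure (F := K) (K := M) (n := Module.finrank L M) fun x hx =>
    deg_le_of_closed (K := K) (L := L) hK x hx
  have hLMm : Module.finrank L M ≤ m := by
    have h1 := Module.finrank_mul_finrank F L M
    have hFL : FiniteDimensional F L := FiniteDimensional.left F L M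
    have h2 : 0 < Module.finrank F L := Module.finrank_pos
    calc Module.finrank L M ≤ Module.finrank F L * Module.finrank L M := Nat.le_mul_of_pos_left _ h2
      _ = Module.finrank F M := h1
      _ ≤ m := hm
  have hK'c : CharZero K' := charZero_of_injective_algebraMap (algebraMap K K').injective
  have hK' : ∀ x : M, IsAlgebraic K' x → ∃ c : K', algebraMap K' M c = x := by
    intro x hx
    exact ⟨⟨x, mem_algebraicClosure_iff.2 (hx.restrictScalars K)⟩, rfl⟩
  have hRB' : RB K' (2 * (D * m) * (D * m) + D * m) B0 :=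
    rb_fin' (RB.mono hRB (Nat.mul_le_mul_left _ (hK'le.trans hLMm)))
  obtain ⟨S, hS⟩ := id hL
  have hfg' : ∃ S : Finset M, IntermediateField.adjoin K' (S : Set M) = ⊤ := by
    obtain ⟨S, hS⟩ := fg_ext (K := K) (L := L) (M := M) hL
    refine ⟨S, ?_⟩
    rw [eq_top_iff]
    intro x _
    have h2 : x ∈ IntermediateField.adjoin K (S : Set M) := by rw [hS]; exact IntermediateField.mem_top
    have h3 : IntermediateField.adjoin K (S : Set M) ≤
        (IntermediateField.adjoin K' (S : Set M)).restrictScalars K :=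
      IntermediateField.adjoin_le_iff.2 (IntermediateField.subset_adjoin K' (S : Set M))
    exact h3 h2
  set RK := LinearMap.range (KQ.map 2 (algebraMap K' M)) with hRK
  -- the transcendence basis of `M`
  let uM : Set M := algebraMap L M '' u
  have huM : IsTranscendenceBasis K' ((↑) : uM → M) := basis_ext hu
  have hcls := hB1 K' M hRB' hfg' hK' uM (hufin.image _) ((Set.ncard_image_le hufin).trans hur) huM
  set Z : Set (KQ M 2 ⧸ RK) := {z | ∃ f g : Mˣ,
      ((∀ t ∈ uM, Module.finrank (IntermediateField.adjoin K' (uM \ {t}))⟮(f : M)⟯ M ≤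
          2 * (D * m) * (D * m) + D * m ∧
        Module.finrank (IntermediateField.adjoin K' (uM \ {t}))⟮(g : M)⟯ M ≤ 2 * (D * m) * (D * m) + D * m) ∧
      ∀ v ∈ VN K' M, sy f g ∈ unitPart v 2) ∧ z = Submodule.Quotient.mk (sy f g)} with hZ
  -- degrees
  have hdeg : ∀ t ∈ u, IsFun (IntermediateField.adjoin K (u \ {t})) M ∧
      ∀ (x : M) (A : ℕ), Module.finrank (IntermediateField.adjoin K (u \ {t}))⟮x⟯ M ≤ A →
        Module.finrank (IntermediateField.adjoin K' (uM \ {algebraMap L M t}))⟮x⟯ M ≤ A := by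
    intro t ht
    have hf1 : IsFun (IntermediateField.adjoin K (u \ {t})) L := basis_isFun hu S hS ht
    have hf2 : IsFun (IntermediateField.adjoin K (u \ {t})) M := isFun_ext (L := L) hf1
    refine ⟨hf2, fun x A hx => ?_⟩
    have hmem : ∀ a ∈ IntermediateField.adjoin K (u \ {t}),
        algebraMap L M a ∈ IntermediateField.adjoin K' (uM \ {algebraMap L M t}) := by
      intro a ha
      induction ha using IntermediateField.adjoin_induction with
      | mem y hy =>
        refine IntermediateField.subset_adjoin _ _ ⟨⟨y, hy.1, rfl⟩, fun h => hy.2 ?_⟩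
        exact (algebraMap L M).injective h
      | algebraMap y =>
        rw [← IsScalarTower.algebraMap_apply K L M, IsScalarTower.algebraMap_apply K K' M]
        exact IntermediateField.algebraMap_mem _ _
      | add x y _ _ hx hy => rw [map_add]; exact add_mem hx hy
      | inv x _ hx => rw [map_inv₀]; exact inv_mem hx
      | mul x y _ _ hx hy => rw [map_mul]; exact mul_mem hx hy
    let i : IntermediateField.adjoin K (u \ {t}) →+* IntermediateField.adjoin K' (uM \ {algebraMap L M t}) :=
      ((algebraMap L M).comp (algebraMap (IntermediateField.adjoin K (u \ {t})) L)).codRestrict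
        (IntermediateField.adjoin K' (uM \ {algebraMap L M t})).toSubring.toSubsemiring fun a => hmem a a.2
    let _ : Algebra (IntermediateField.adjoin K (u \ {t}))
      (IntermediateField.adjoin K' (uM \ {algebraMap L M t})) := i.toAlgebra
    have tow : IsScalarTower (IntermediateField.adjoin K (u \ {t}))
      (IntermediateField.adjoin K' (uM \ {algebraMap L M t})) M := IsScalarTower.of_algebraMap_eq fun a => rfl
    have halg : Algebra.IsAlgebraic (IntermediateField.adjoin K (u \ {t}))
        (IntermediateField.adjoin K' (uM \ {algebraMap L M t})) := by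
      constructor
      rintro ⟨y, hy⟩
      have key : ∀ y ∈ IntermediateField.adjoin K' (uM \ {algebraMap L M t}),
          IsAlgebraic (IntermediateField.adjoin K (u \ {t})) y := by
        intro y hy
        induction hy using IntermediateField.adjoin_induction with
        | mem y hy =>
          obtain ⟨⟨a, ha, rfl⟩, h2⟩ := hy
          have ha' : a ∈ IntermediateField.adjoin K (u \ {t}) :=
            IntermediateField.subset_adjoin _ _ ⟨ha, fun h => h2 (by
              rw [Set.mem_singleton_iff] at h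
              rw [h]
              exact Set.mem_singleton _)⟩
          exact isAlgebraic_algebraMap (A := M) (⟨a, ha'⟩ : IntermediateField.adjoin K (u \ {t}))
        | algebraMap y =>
          have h3 : IsAlgebraic K (algebraMap K' M y) :=
            (Algebra.IsAlgebraic.isAlgebraic (R := K) y).algebraMap
          exact IsAlgebraic.tower_top (IntermediateField.adjoin K (u \ {t})) h3
        | add x y _ _ hx hy => exact hx.add hy
        | inv x _ hx => exact hx.inv
        | mul x y _ _ hx hy => exact hx.mul hy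
      exact (isAlgebraic_algebraMap_iff (algebraMap (IntermediateField.adjoin K' (uM \ {algebraMap L M t})) M).injective).1
        (key y hy)
    exact deg_le_ext (K := IntermediateField.adjoin K (u \ {t})) hf2 hx
  have hfix : ∀ t ∈ u, ∀ (σ : M ≃ₐ[F] M) (a : IntermediateField.adjoin K (u \ {t})),
      σ (algebraMap L M (a : L)) = algebraMap L M (a : L) := by
    intro t ht σ a
    have h1 : ∀ a ∈ IntermediateField.adjoin K (u \ {t}), ∃ b : F, algebraMap F L b = a := by
      intro a ha
      induction ha using IntermediateField.adjoin_induction with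
      | mem y hy => exact huF y hy.1
      | algebraMap y => exact ⟨algebraMap K F y, (IsScalarTower.algebraMap_apply K F L y).symm⟩
      | add x y _ _ hx hy =>
        obtain ⟨b, rfl⟩ := hx
        obtain ⟨c, rfl⟩ := hy
        exact ⟨b + c, map_add _ _ _⟩
      | inv x _ hx =>
        obtain ⟨b, rfl⟩ := hx
        exact ⟨b⁻¹, map_inv₀ _ _⟩
      | mul x y _ _ hx hy =>
        obtain ⟨b, rfl⟩ := hx
        obtain ⟨c, rfl⟩ := hy
        exact ⟨b * c, map_mul _ _ _⟩
    obtain ⟨b, hb⟩ := h1 a a.2
    rw [← hb, ← IsScalarTower.algebraMap_apply F L M, σ.commutes]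
  -- the maps
  have hρ0 : R ≤ LinearMap.ker ((RM ⊔ RK).mkQ.comp (KQ.map 2 (algebraMap L M))) := by
    rintro _ ⟨y, rfl⟩
    rw [LinearMap.mem_ker, LinearMap.comp_apply, Submodule.mkQ_apply, Submodule.Quotient.mk_eq_zero]
    refine Submodule.mem_sup_left ⟨y, ?_⟩
    rw [kmap_map (algebraMap F L) (algebraMap L M) (algebraMap F M)
      (fun x => (IsScalarTower.algebraMap_apply F L M x).symm)]
  let ρ : (KQ L 2 ⧸ R) →ₗ[ℚ] (KQ M 2 ⧸ (RM ⊔ RK)) := R.liftQ _ hρ0
  have hρ : ∀ x, ρ (Submodule.Quotient.mk x) = Submodule.Quotient.mk (KQ.map 2 (algebraMap L M) x) := fun x => rfl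
  have hinj : Function.Injective ρ := by
    rw [injective_iff_map_eq_zero]
    intro z hz
    obtain ⟨δ, rfl⟩ := Submodule.Quotient.mk_surjective _ z
    rw [hρ, Submodule.Quotient.mk_eq_zero] at hz
    obtain ⟨_, ⟨b, rfl⟩, _, ⟨y, rfl⟩, hby⟩ := Submodule.mem_sup.1 hz
    rw [Submodule.Quotient.mk_eq_zero]
    obtain ⟨y0, hy0⟩ := descent2 (K := K) (M := M) hK (δ - KQ.map 2 (algebraMap F L) b) y (by
      rw [map_sub, ← hby, kmap_map (algebraMap F L) (algebraMap L M) (algebraMap F M)
        (fun x => (IsScalarTower.algebraMap_apply F L M x).symm), add_sub_cancel_left])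
    refine ⟨b + KQ.map 2 (algebraMap K F) y0, ?_⟩
    rw [map_add, kmap_map (algebraMap K F) (algebraMap F L) (algebraMap K L)
      (fun x => (IsScalarTower.algebraMap_apply K F L x).symm), hy0, add_sub_cancel]
  let τ : (KQ M 2 ⧸ RK) →ₗ[ℚ] (KQ M 2 ⧸ (RM ⊔ RK)) := RK.mapQ _ LinearMap.id (by
    rw [Submodule.comap_id]
    exact le_sup_right)
  let T : ((M ≃ₐ[F] M) → (KQ M 2 ⧸ RK)) → (KQ M 2 ⧸ (RM ⊔ RK)) := fun c =>
    -(((Fintype.card (M ≃ₐ[F] M) : ℕ) : ℚ)⁻¹ • ∑ σ, τ (c σ))
  have hcard : ((Fintype.card (M ≃ₐ[F] M) : ℕ) : ℚ) ≠ 0 := by exact_mod_cast Fintype.card_ne_zero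
  have hpi := encard_pi_le (ι := M ≃ₐ[F] M) (X := fun _ => (KQ M 2 ⧸ RK)) (fun _ => Z) (B1 + 1)
    (fun _ => hcls.trans (by exact_mod_cast Nat.le_succ B1))
  rw [← hinj.encard_image]
  refine (Set.encard_le_encard (t := T '' Set.pi Set.univ fun _ => Z) ?_).trans
    ((Set.encard_image_le _ _).trans (hpi.trans ?_))
  swap
  · refine Nat.cast_le.2 (Nat.pow_le_pow_right (by omega) ?_)
    rw [IsGalois.card_aut_eq_finrank]
    exact hm
  rintro _ ⟨z, ⟨f, w, β, hβ, hf, hw, hun, rfl⟩, rfl⟩
  have hUU : w ∈ (UU K M f : Subgroup Fˣ) := by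
    refine mem_UU (k := K) (M := M) f 1 one_ne_zero w β hβ ?_
    rw [one_smul, Submodule.mem_iInf]
    intro v
    rw [Submodule.mem_iInf]
    exact hun v
  refine ⟨fun σ => Submodule.Quotient.mk (sy (gg (up L M f) σ) (up F M w)), ?_, ?_⟩
  · intro σ _
    refine ⟨gg (up L M f) σ, up F M w, ⟨?_, fun v hv => hUU σ v ⟨hv.1, fun x hx => ?_⟩⟩, rfl⟩
    · rintro _ ⟨t, ht, rfl⟩
      obtain ⟨hf2, hd⟩ := hdeg t ht
      constructor
      · have h1 : ((gg (up L M f) σ : Mˣ) : M) = σ (algebraMap L M (f : L)) / algebraMap L M (f : L) := by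
          rw [gg, Units.val_mul, Units.val_inv_eq_inv_val, Units.coe_map, div_eq_mul_inv]
          rfl
        rw [h1]
        refine hd _ _ ?_
        let k0 := IntermediateField.adjoin K (u \ {t})
        let τ' : M ≃ₐ[k0] M := AlgEquiv.ofRingEquiv (f := (σ : M ≃+* M)) fun a => hfix t ht σ a
        have hτ' : ∀ x : M, σ x = τ' x := fun x => rfl
        by_cases hft : Transcendental k0 (f : L)
        · have hft' : Transcendental k0 (algebraMap L M (f : L)) := fun h =>
            hft ((isAlgebraic_algebraMap_iff (algebraMap L M).injective).1 h)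
          have hfd : Module.finrank k0⟮algebraMap L M (f : L)⟯ M ≤ D * m := by
            rw [deg_map (K := k0) (L := L) (M := M)]
            exact Nat.mul_le_mul (hf t ht) hLMm
          have h2 : Transcendental k0 (τ' (algebraMap L M (f : L))) := by
            intro h
            exact hft' ((isAlgebraic_algHom_iff (τ' : M →ₐ[k0] M) τ'.injective).1 h)
          rw [hτ']
          refine (deg_div hf2 h2 hft').trans ?_
          rw [deg_aut τ']
          calc (Module.finrank k0⟮algebraMap L M (f : L)⟯ M + Module.finrank k0⟮algebraMap L M (f : L)⟯ M) *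
                Module.finrank k0⟮algebraMap L M (f : L)⟯ M ≤ (D * m + D * m) * (D * m) :=
              Nat.mul_le_mul (Nat.add_le_add hfd hfd) hfd
            _ = 2 * (D * m) * (D * m) := by ring
            _ ≤ 2 * (D * m) * (D * m) + D * m := Nat.le_add_right _ _
        · have h2 : IsAlgebraic k0 (algebraMap L M (f : L)) := (not_not.1 hft).algebraMap
          have h3 : IsAlgebraic k0 (τ' (algebraMap L M (f : L))) := h2.algHom (τ' : M →ₐ[k0] M)
          rw [hτ', div_eq_mul_inv, deg_const hf2 (h3.mul h2.inv)]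
          exact Nat.zero_le _
      · have h2 : ((up F M w : Mˣ) : M) = algebraMap L M (algebraMap F L w) :=
          IsScalarTower.algebraMap_apply F L M (w : F)
        rw [h2]
        refine (hd _ (D * m) ?_).trans (by omega)
        rw [deg_map (K := IntermediateField.adjoin K (u \ {t})) (L := L) (M := M)]
        exact Nat.mul_le_mul (hw t ht) hLMm
    · rw [IsScalarTower.algebraMap_apply K K' M]
      exact hv.2 _ ((map_ne_zero _).2 hx)
  · -- the average
    obtain ⟨Nf, hNf⟩ := norm_mem (F := F) (up L M f)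
    have hprod : ∏ σ : M ≃ₐ[F] M, gg (up L M f) σ = up F M Nf * ((up L M f) ^ (Fintype.card (M ≃ₐ[F] M)))⁻¹ := by
      rw [hNf]
      simp only [gg, Finset.prod_mul_distrib, Finset.prod_const, Finset.card_univ, inv_pow]
    have havg : ∑ σ : M ≃ₐ[F] M, sy (gg (up L M f) σ) (up F M w) =
        sy (up F M Nf) (up F M w) - ((Fintype.card (M ≃ₐ[F] M) : ℕ) : ℚ) • sy (up L M f) (up F M w) := by
      rw [← Pool.Agent.Helper79.QP.sy_prod_left, hprod, sy_mul_left, sy_inv_left, sy_pow_left]
      abel
    have hN : sy (up F M Nf) (up F M w) ∈ RM ⊔ RK := by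
      refine Submodule.mem_sup_left ⟨sy Nf w, ?_⟩
      rw [map_sy']
      rfl
    have h1 : KQ.map 2 (algebraMap L M) (sy f (up F L w)) = sy (up L M f) (up F M w) := by
      rw [map_sy']
      congr 1
      apply Units.ext
      exact (IsScalarTower.algebraMap_apply F L M (w : F)).symm
    show T _ = ρ _
    rw [hρ, h1]
    show -(((Fintype.card (M ≃ₐ[F] M) : ℕ) : ℚ)⁻¹ • ∑ σ : M ≃ₐ[F] M,
      (RM ⊔ RK).mkQ (sy (gg (up L M f) σ) (up F M w))) = (RM ⊔ RK).mkQ (sy (up L M f) (up F M w))
    have h3 : ∑ σ : M ≃ₐ[F] M, (RM ⊔ RK).mkQ (sy (gg (up L M f) σ) (up F M w)) =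
        (RM ⊔ RK).mkQ (∑ σ : M ≃ₐ[F] M, sy (gg (up L M f) σ) (up F M w)) := (map_sum _ _ _).symm
    have h4 : (RM ⊔ RK).mkQ (sy (up F M Nf) (up F M w)) = 0 := by
      rw [Submodule.mkQ_apply, Submodule.Quotient.mk_eq_zero]
      exact hN
    rw [h3, havg, map_sub, map_smul, h4, zero_sub, smul_neg, neg_neg, smul_smul, inv_mul_cancel₀ hcard, one_smul]

/-- **uniform boundedness for coverings of varieties** -/
theorem uniform_rel_var (D n e r : ℕ) : ∃ B : ℕ, ∀ (K F L : Type u) [Field K] [CharZero K] [Field F] [Field L]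
    [Algebra K F] [Algebra K L] [Algebra F L] [IsScalarTower K F L] [FiniteDimensional F L],
    Module.finrank F L ≤ e → (∀ x : K, IsAlgebraic ℚ x → (minpoly ℚ x).natDegree ≤ n) →
    (∃ S : Finset L, IntermediateField.adjoin K (S : Set L) = ⊤) →
    (∀ x : L, IsAlgebraic K x → ∃ c : K, algebraMap K L c = x) → ∀ u : Set L, u.Finite → u.ncard ≤ r →
    IsTranscendenceBasis K ((↑) : u → L) → (∀ t ∈ u, ∃ a : F, algebraMap F L a = t) →
    {z : KQ L 2 ⧸ LinearMap.range (KQ.map 2 (algebraMap F L)) | ∃ (f : Lˣ) (w : Fˣ) (β : KQ L 2),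
      β ∈ LinearMap.range (KQ.map 2 (algebraMap F L)) ∧
      (∀ t ∈ u, Module.finrank (IntermediateField.adjoin K (u \ {t}))⟮(f : L)⟯ L ≤ D) ∧
      (∀ t ∈ u, Module.finrank (IntermediateField.adjoin K (u \ {t}))⟮algebraMap F L w⟯ L ≤ D) ∧
      (∀ v ∈ VN K L, sy f (up F L w) + β ∈ unitPart v 2) ∧
      z = Submodule.Quotient.mk (sy f (up F L w))}.encard ≤ B := by
  set m := e.factorial with hm
  set D' := (2 * (D * m) * (D * m) + D * m) * m with hD'
  obtain ⟨B, hB⟩ := uniform_rel_var_core.{u} D m (n * D' * (n * D' + 1)).factorial r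
  refine ⟨B, ?_⟩
  intro K F L _ _ _ _ _ _ _ _ _ hFe hn hL hK u hufin hur hu huF
  have hFc : CharZero F := charZero_of_injective_algebraMap (algebraMap K F).injective
  obtain ⟨M, _, _, _, _, hgal, hfd, hle⟩ := exists_galois (F := F) (L := L)
  let _ : Algebra K M := ((algebraMap L M).comp (algebraMap K L)).toAlgebra
  have t1 : IsScalarTower K L M := IsScalarTower.of_algebraMap_eq fun x => rfl
  have t2 : IsScalarTower K F M := IsScalarTower.of_algebraMap_eq fun x => by
    rw [IsScalarTower.algebraMap_apply F L M (algebraMap K F x), ← IsScalarTower.algebraMap_apply K F L]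
    rfl
  have hLM : FiniteDimensional L M := FiniteDimensional.right F L M
  exact hB K F L M (hle.trans (Nat.factorial_le hFe)) (rb_unif K hn D') hL hK u hufin hur hu huF

end Pool.Agent.Helper79.UN
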