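import Pool.Agent.Helper79.UN.RE

set_option autoImplicit false

/-!
# Degrees of functions
-/

set_option linter.unusedSectionVars false

universe u

namespace Pool.Agent.Helper79.UN

open IntermediateField
open Pool.Agent.Helper79.RG

/-- constants: `K⟮x⟯` is finite over `K` but `M` is not finite over `K` (else the transcendental element of
`IsFun` would be algebraic), so `M` is not finite over `K⟮x⟯` and `Module.finrank_of_not_finite` -/
theorem deg_const {K M : Type*} [Field K] [Field M] [Algebra K M] (hM : IsFun K M) {x : M} (hx : IsAlgebraic K x) :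
    Module.finrank K⟮x⟯ M = 0 := by
  by_contra h
  have h1 : FiniteDimensional K⟮x⟯ M := FiniteDimensional.of_finrank_pos (Nat.pos_of_ne_zero h)
  have h2 : FiniteDimensional K K⟮x⟯ := adjoin.finiteDimensional hx.isIntegral
  have h3 : FiniteDimensional K M := FiniteDimensional.trans K K⟮x⟯ M
  obtain ⟨y, hy, -⟩ := hM
  exact hy ((Algebra.IsAlgebraic.of_finite K M).isAlgebraic y)

/-- finite extensions: `K⟮x⟯` and its image `K⟮algebraMap L M x⟯` (`IntermediateField.equivMap`, `adjoin_map`,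
`Algebra.finrank_eq_of_equiv_equiv`), and `Module.finrank_mul_finrank` -/
theorem deg_map {K L M : Type*} [Field K] [Field L] [Field M] [Algebra K L] [Algebra K M] [Algebra L M]
    [IsScalarTower K L M] (x : L) :
    Module.finrank K⟮algebraMap L M x⟯ M = Module.finrank K⟮x⟯ L * Module.finrank L M := by
  rw [Module.finrank_mul_finrank]
  have h1 : K⟮x⟯.map (IsScalarTower.toAlgHom K L M) = K⟮algebraMap L M x⟯ := by
    rw [adjoin_map, Set.image_singleton]
    rfl
  rw [← h1]
  exact (Algebra.finrank_eq_of_equiv_equiv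
    (K⟮x⟯.equivMap (IsScalarTower.toAlgHom K L M)).toRingEquiv (RingEquiv.refl M) (by
      ext y
      rfl)).symm

/-- automorphisms (same tools) -/
theorem deg_aut {K M : Type*} [Field K] [Field M] [Algebra K M] (σ : M ≃ₐ[K] M) (x : M) :
    Module.finrank K⟮σ x⟯ M = Module.finrank K⟮x⟯ M := by
  have h1 : K⟮x⟯.map (σ : M →ₐ[K] M) = K⟮σ x⟯ := by
    rw [adjoin_map, Set.image_singleton]
    rfl
  rw [← h1]
  exact (Algebra.finrank_eq_of_equiv_equiv
    (K⟮x⟯.equivMap (σ : M →ₐ[K] M)).toRingEquiv σ.toRingEquiv (by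
      ext y
      rfl)).symm

/-- towers of intermediate fields -/
theorem deg_tower {K M : Type*} [Field K] [Field M] [Algebra K M] {F1 F2 : IntermediateField K M} (h : F1 ≤ F2)
    [FiniteDimensional F1 M] : Module.finrank F2 M ≤ Module.finrank F1 M := by
  let _ : Algebra F1 F2 := (inclusion h).toRingHom.toAlgebra
  have : IsScalarTower F1 F2 M := IsScalarTower.of_algebraMap_eq fun y => rfl
  have h1 : FiniteDimensional F1 F2 := FiniteDimensional.left F1 F2 M
  have h2 : 0 < Module.finrank F1 F2 := Module.finrank_pos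
  rw [← Module.finrank_mul_finrank F1 F2 M]
  exact Nat.le_mul_of_pos_left _ h2

/-- larger fields of constants: `K⟮x⟯ ≤ (K'⟮x⟯).restrictScalars K`; for a tower `F1 ≤ F2 ≤ M` with `M` finite over
`F1` one has `[M : F2] ≤ [M : F1]` -/
theorem deg_ext {K K' M : Type*} [Field K] [Field K'] [Field M] [Algebra K K'] [Algebra K M] [Algebra K' M]
    [IsScalarTower K K' M] (x : M) [FiniteDimensional K⟮x⟯ M] :
    Module.finrank K'⟮x⟯ M ≤ Module.finrank K⟮x⟯ M := by
  have h1 : K⟮x⟯ ≤ K'⟮x⟯.restrictScalars K := by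
    rw [adjoin_simple_le_iff]
    exact mem_adjoin_simple_self K' x
  exact deg_tower h1

/-- quotients: if `a / b` is a constant use `deg_const`. Otherwise `t = a / b` is transcendental; by `rel_deg`
`Rel K B A a b` with `A = [M : K(a)]`, `B = [M : K(b)]`; substituting `a = t b`, `c_ij a^i b^j = c_ij t^i b^(i+j)`,
one has `Rel K B (A + B) t b`, so by `Rel.alg` `b` is of degree at most `A + B` over `K(t)`; and
`[M : K(t)(b)] ≤ [M : K(b)]` -/
theorem deg_div {K M : Type*} [Field K] [CharZero K] [Field M] [Algebra K M] (hM : IsFun K M) {a b : M}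
    (ha : Transcendental K a) (hb : Transcendental K b) :
    Module.finrank K⟮a / b⟯ M ≤ (Module.finrank K⟮a⟯ M + Module.finrank K⟮b⟯ M) * Module.finrank K⟮b⟯ M := by
  classical
  by_cases ht : IsAlgebraic K (a / b)
  · rw [deg_const hM ht]
    exact Nat.zero_le _
  have ht' : Transcendental K (a / b) := ht
  have hfa : FiniteDimensional K⟮a⟯ M := hM.alg ha
  have hfb : FiniteDimensional K⟮b⟯ M := hM.alg hb
  have hb0 : b ≠ 0 := by
    rintro rfl
    exact hb isAlgebraic_zero
  obtain ⟨A, hA⟩ : ∃ A, A = Module.finrank K⟮a⟯ M := ⟨_, rfl⟩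
  obtain ⟨B, hB⟩ : ∃ B, B = Module.finrank K⟮b⟯ M := ⟨_, rfl⟩
  obtain ⟨t, htt⟩ : ∃ t, t = a / b := ⟨_, rfl⟩
  have hat : a = t * b := by rw [htt, div_mul_cancel₀ _ hb0]
  have h1 : Rel K B A a b := by
    rw [hA, hB]
    exact rel_deg ha hb
  have h2 : Rel K B (A + B) t b := by
    obtain ⟨c, ⟨i0, j0, hc⟩, hs⟩ := h1
    obtain ⟨d, hd⟩ : ∃ d : Fin (B + 1) → Fin (A + B + 1) → K, ∀ i l, d i l =
        if h : (i : ℕ) ≤ l ∧ (l : ℕ) - i < A + 1 then c i ⟨l - i, h.2⟩ else 0 := ⟨_, fun _ _ => rfl⟩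
    have hd1 : ∀ (i : Fin (B + 1)) (j : Fin (A + 1)) (l : Fin (A + B + 1)), (l : ℕ) = i + j →
        d i l = c i j := by
      intro i j l hl
      have h3 : (i : ℕ) ≤ l ∧ (l : ℕ) - i < A + 1 := by
        have := j.2
        omega
      rw [hd, dif_pos h3]
      congr 1
      exact Fin.ext (by simp only; omega)
    refine ⟨d, ⟨i0, ⟨i0 + j0, by omega⟩, ?_⟩, ?_⟩
    · rw [hd1 i0 j0 _ rfl]
      exact hc
    · rw [← hs]
      refine Finset.sum_congr rfl fun i _ => ?_
      symm
      refine Finset.sum_of_injOn (fun j : Fin (A + 1) => (⟨i + j, by omega⟩ : Fin (A + B + 1))) ?_ ?_ ?_ ?_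
      · intro j _ j' _ h
        have := congrArg Fin.val h
        exact Fin.ext (by simp only at this; omega)
      · intro j _
        simp
      · intro l _ hl
        have : ¬ ((i : ℕ) ≤ l ∧ (l : ℕ) - i < A + 1) := by
          rintro ⟨h3, h4⟩
          apply hl
          refine ⟨⟨l - i, h4⟩, by simp, Fin.ext ?_⟩
          simp only
          omega
        rw [hd, dif_neg this, map_zero, zero_mul, zero_mul]
      · intro j _
        rw [hd1 i j _ rfl]
        have h6 : a ^ (i : ℕ) = t ^ (i : ℕ) * b ^ (i : ℕ) := by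
          rw [← mul_pow, ← hat]
        simp only
        rw [h6, pow_add]
        ring
  rw [← htt] at ht' ⊢
  rw [← hA, ← hB]
  obtain ⟨h3, h4⟩ := h2.alg ht'
  have h5 : Module.finrank K⟮t⟯⟮b⟯ M ≤ B := by
    rw [hB]
    exact deg_ext b
  rw [← Module.finrank_mul_finrank K⟮t⟯ K⟮t⟯⟮b⟯ M, adjoin.finrank h3.isIntegral]
  exact Nat.mul_le_mul h4 h5

end Pool.Agent.Helper79.UN
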