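import Pool.Agent.Helper79.UN.NU

set_option autoImplicit false

/-!
# Galois closures of bounded degree
-/

set_option linter.unusedSectionVars false

universe u

namespace Pool.Agent.Helper79.UN

open IntermediateField Polynomial
open Pool.Agent.Helper79.RG

/-- a Galois extension which contains a given finite extension -/
theorem exists_galois {F L : Type u} [Field F] [CharZero F] [Field L] [Algebra F L] [FiniteDimensional F L] :
    ∃ (M : Type u) (_ : Field M) (_ : Algebra F M) (_ : Algebra L M) (_ : IsScalarTower F L M),
      IsGalois F M ∧ FiniteDimensional F M ∧ Module.finrank F M ≤ (Module.finrank F L).factorial := by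
  classical
  obtain ⟨α, hα⟩ := Field.exists_primitive_element F L
  have hint : IsIntegral F α := Algebra.IsIntegral.isIntegral α
  let p := minpoly F α
  have hirr : Irreducible p := minpoly.irreducible hint
  have hsep : p.Separable := hirr.separable
  have hdeg : p.natDegree = Module.finrank F L := by
    rw [← IntermediateField.adjoin.finrank hint, hα, IntermediateField.finrank_top']
  let M := p.SplittingField
  have hgal : IsGalois F M := IsGalois.of_separable_splitting_field hsep
  have hsplit : (p.map (algebraMap F M)).Splits := SplittingField.splits p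
  obtain ⟨j⟩ : Nonempty (L →ₐ[F] M) := by
    refine IntermediateField.nonempty_algHom_of_adjoin_splits (S := {α}) (fun s hs => ?_) hα
    rw [Set.mem_singleton_iff] at hs
    rw [hs]
    exact ⟨hint, hsplit⟩
  have hf : Fact ((p.map (algebraMap F M)).Splits) := ⟨hsplit⟩
  let aLM : Algebra L M := j.toRingHom.toAlgebra
  have tLM : IsScalarTower F L M := IsScalarTower.of_algebraMap_eq fun x => (j.commutes x).symm
  refine ⟨M, inferInstance, inferInstance, aLM, tLM, hgal, inferInstance, ?_⟩
  have h1 : Nat.card (M ≃ₐ[F] M) = Module.finrank F M := IsGalois.card_aut_eq_finrank F M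
  rw [← h1, ← hdeg]
  have h2 : Nat.card p.Gal ≤ Nat.card (Equiv.Perm (p.rootSet M)) :=
    Nat.card_le_card_of_injective _ (Gal.galActionHom_injective p M)
  refine h2.trans ?_
  rw [Nat.card_perm]
  refine Nat.factorial_le ?_
  rw [Nat.card_coe_set_eq]
  exact p.ncard_rootSet_le M

theorem RB.mono {K : Type*} [Field K] {D D' B : ℕ} (h : RB K D B) (hD : D' ≤ D) : RB K D' B :=
  ⟨h.1, fun P hP hPD hn => h.2 P hP (hPD.trans hD) hn⟩

/-- the bound for the roots of unity passes to finite extensions -/
theorem rb_fin' {K K1 : Type*} [Field K] [CharZero K] [Field K1] [Algebra K K1] [FiniteDimensional K K1] {D B : ℕ}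
    (hB : RB K (D * Module.finrank K K1) B) : RB K1 D B := by
  refine ⟨hB.1, ?_⟩
  rintro P hP hPD ⟨n, hn, hPn⟩
  have : Fact (Irreducible P) := ⟨hP⟩
  have hP0 := hP.ne_zero
  let R := AdjoinRoot P
  have hR : FiniteDimensional K1 R := (AdjoinRoot.powerBasis hP0).finite
  have hR2 : Module.finrank K1 R = P.natDegree := by
    rw [(AdjoinRoot.powerBasis hP0).finrank, AdjoinRoot.powerBasis_dim]
  have : IsScalarTower K K1 R := inferInstance
  have hR3 : FiniteDimensional K R := FiniteDimensional.trans K K1 R
  have hr : (AdjoinRoot.root P) ^ n = 1 := by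
    have h2 := AdjoinRoot.mk_eq_zero.2 hPn
    rw [map_sub, map_pow, map_one, AdjoinRoot.mk_X] at h2
    exact sub_eq_zero.1 h2
  have hint : IsIntegral K (AdjoinRoot.root P : R) := Algebra.IsIntegral.isIntegral _
  have hdeg : (minpoly K (AdjoinRoot.root P : R)).natDegree ≤ D * Module.finrank K K1 := by
    refine (minpoly.natDegree_le _).trans ?_
    rw [← Module.finrank_mul_finrank K K1 R, hR2, mul_comm]
    exact Nat.mul_le_mul_right _ hPD
  have h3 := nbg_prim hB hn hr (minpoly K (AdjoinRoot.root P : R)) (minpoly.ne_zero hint) hdeg (minpoly.aeval _ _)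
  rw [← AdjoinRoot.mk_eq_zero, map_sub, map_pow, map_one, AdjoinRoot.mk_X, h3, sub_self]

end Pool.Agent.Helper79.UN
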