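import Pool.Agent.Helper79.UN.UL

set_option autoImplicit false

/-!
# Module VR: valuation subrings of function fields of one variable, separation of places, bounds
-/

set_option linter.unusedSectionVars false

universe u

namespace Pool.Agent.Helper79.UN

open scoped WithZero
open IntermediateField
open Pool.Agent.Helper79.FE (VN)
open Pool.Agent.Helper79.RG

section aux

variable {k M : Type*} [Field k] [Field M] [Algebra k M]

theorem vr_k {w : Valuation M ℤᵐ⁰} (hw : w ∈ VN k M) (c : k) : w (algebraMap k M c) ≤ 1 := by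
  by_cases hc : c = 0
  · rw [hc, map_zero, map_zero]; exact zero_le_one
  · rw [hw.2 c hc]

theorem vr_B {w : Valuation M ℤᵐ⁰} (hw : w ∈ VN k M) {x : M} (hx : w x ≤ 1)
    (c : integralClosure (Algebra.adjoin k {x}) M) : w (c : M) ≤ 1 := by
  refine Pool.Agent.Helper79.FE.val_int (B := Algebra.adjoin k {x}) w (fun b => ?_) _ c.2
  obtain ⟨b, hb⟩ := b
  change w b ≤ 1
  induction hb using Algebra.adjoin_induction with
  | mem y hy =>
    rw [Set.mem_singleton_iff] at hy
    rw [hy]
    exact hx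
  | algebraMap r => exact vr_k hw r
  | add y z _ _ hy hz => exact (w.map_add y z).trans (max_le hy hz)
  | mul y z _ _ hy hz => rw [map_mul]; exact mul_le_one' hy hz

theorem vr_poly {w : Valuation M ℤᵐ⁰} (hw : w ∈ VN k M) {x : M} (hx : 1 < w x) {p : Polynomial k}
    (hp : p ≠ 0) : w (Polynomial.aeval x p) = w x ^ p.natDegree := by
  have h1 : Polynomial.aeval x p = (∑ i ∈ Finset.range p.natDegree, algebraMap k M (p.coeff i) * x ^ i) +
      algebraMap k M p.leadingCoeff * x ^ p.natDegree := by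
    rw [Polynomial.aeval_eq_sum_range, Finset.sum_range_succ]
    simp only [Algebra.smul_def]
    rfl
  have hlc : w (algebraMap k M p.leadingCoeff * x ^ p.natDegree) = w x ^ p.natDegree := by
    rw [map_mul, hw.2 _ (Polynomial.leadingCoeff_ne_zero.2 hp), one_mul, map_pow]
  have hx0 : w x ≠ 0 := (zero_lt_one.trans hx).ne'
  have h2 : w (∑ i ∈ Finset.range p.natDegree, algebraMap k M (p.coeff i) * x ^ i) <
      w (algebraMap k M p.leadingCoeff * x ^ p.natDegree) := by
    rw [hlc]
    refine Valuation.map_sum_lt w (pow_ne_zero _ hx0) fun i hi => ?_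
    rw [map_mul, map_pow]
    refine (mul_le_of_le_one_left' (vr_k hw _)).trans_lt ?_
    exact pow_lt_pow_right₀ hx (Finset.mem_range.1 hi)
  rw [h1, Valuation.map_add_eq_of_lt_right w h2, hlc]

theorem vr_deg1 {w : Valuation M ℤᵐ⁰} (hw : w ∈ VN k M) {x : M} (hx : 1 < w x) {c : M}
    (hc : c ∈ k⟮x⟯) (hc0 : c ≠ 0) : ∃ m : ℤ, w c = w x ^ m := by
  obtain ⟨r, s, hrs⟩ := (IntermediateField.mem_adjoin_simple_iff k c).1 hc
  have hr : r ≠ 0 := by
    rintro rfl
    rw [map_zero, zero_div] at hrs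
    exact hc0 hrs
  have hs : s ≠ 0 := by
    rintro rfl
    rw [map_zero, div_zero] at hrs
    exact hc0 hrs
  refine ⟨(r.natDegree : ℤ) - s.natDegree, ?_⟩
  have hx0 : w x ≠ 0 := (zero_lt_one.trans hx).ne'
  rw [hrs, map_div₀, vr_poly hw hx hr, vr_poly hw hx hs, zpow_sub₀ hx0, zpow_natCast, zpow_natCast]

/-- the values of the elements of `k(x)` -/
theorem vr_deg {w : Valuation M ℤᵐ⁰} (hw : w ∈ VN k M) {x : M} (hx0 : x ≠ 0) (hx : w x ≠ 1) {c : M}
    (hc : c ∈ k⟮x⟯) (hc0 : c ≠ 0) : ∃ m : ℤ, w c = w x ^ m := by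
  rcases lt_or_gt_of_ne hx with h | h
  · have h1 : k⟮x⟯ ≤ k⟮x⁻¹⟯ := by
      rw [adjoin_simple_le_iff]
      have := inv_mem (mem_adjoin_simple_self k x⁻¹)
      rwa [inv_inv] at this
    have h2 : 1 < w x⁻¹ := by
      rw [map_inv₀]
      exact (one_lt_inv₀ (zero_lt_iff.2 ((Valuation.ne_zero_iff w).2 hx0))).2 h
    obtain ⟨m, hm⟩ := vr_deg1 hw h2 (h1 hc) hc0
    refine ⟨-m, ?_⟩
    rw [hm, map_inv₀, inv_zpow, zpow_neg]
  · exact vr_deg1 hw h hc hc0

end aux

/-- a proper valuation subring which contains the constants is the valuation ring of a place -/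
theorem val_ring {k L : Type*} [Field k] [CharZero k] [Field L] [Algebra k L] (hL : IsFun k L)
    (O : ValuationSubring L) (hk : ∀ c : k, algebraMap k L c ∈ O) (hO : ∃ y : L, y ∉ O) :
    ∃ w ∈ VN k L, ∀ y : L, w y ≤ 1 ↔ y ∈ O := by
  obtain ⟨x0, hx0, hfin0⟩ := id hL
  obtain ⟨x, hx, hxO⟩ : ∃ x : L, Transcendental k x ∧ x ∈ O := by
    rcases O.mem_or_inv_mem x0 with h | h
    · exact ⟨x0, hx0, h⟩
    · exact ⟨x0⁻¹, Pool.Agent.Helper79.FE.trans_inv hx0, h⟩
  have hfin : FiniteDimensional k⟮x⟯ L := hL.alg hx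
  obtain ⟨hded, hfrac⟩ := Pool.Agent.Helper79.FE.ded_closure x hx
  -- the integral closure is contained in `O`
  have hA : ∀ b : Algebra.adjoin k {x}, (b : L) ∈ O := by
    rintro ⟨b, hb⟩
    change b ∈ O
    induction hb using Algebra.adjoin_induction with
    | mem y hy =>
      rw [Set.mem_singleton_iff] at hy
      rw [hy]
      exact hxO
    | algebraMap r => exact hk r
    | add y z _ _ hy hz => exact O.add_mem _ _ hy hz
    | mul y z _ _ hy hz => exact O.mul_mem _ _ hy hz
  let f : Algebra.adjoin k {x} →+* O :=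
    (algebraMap (Algebra.adjoin k {x}) L).codRestrict O.toSubring hA
  have hB : ∀ c : integralClosure (Algebra.adjoin k {x}) L, (c : L) ∈ O := by
    intro c
    obtain ⟨p, hp, hpc⟩ := c.2
    have h1 : IsIntegral O (c : L) := by
      refine ⟨p.map f, hp.map f, ?_⟩
      rw [Polynomial.eval₂_map]
      exact hpc
    obtain ⟨z, hz⟩ := (IsIntegrallyClosed.isIntegral_iff (R := O) (K := L)).1 h1
    rw [← hz]
    exact z.2
  -- the centre
  have hV : ∀ c : integralClosure (Algebra.adjoin k {x}) L, O.valuation (c : L) ≤ 1 := fun c =>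
    (O.valuation_le_one_iff _).2 (hB c)
  let P : Ideal (integralClosure (Algebra.adjoin k {x}) L) :=
    { carrier := {c | O.valuation (c : L) < 1}
      add_mem' := fun {a b} ha hb => by
        change O.valuation ((a : L) + b) < 1
        exact Valuation.map_add_lt _ ha hb
      zero_mem' := by
        change O.valuation (0 : L) < 1
        rw [map_zero]
        exact zero_lt_one
      smul_mem' := fun a b hb => by
        change O.valuation ((a : L) * b) < 1
        rw [map_mul]
        exact (mul_le_of_le_one_left' (hV a)).trans_lt hb }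
  have hPmem : ∀ c : integralClosure (Algebra.adjoin k {x}) L, c ∈ P ↔ O.valuation (c : L) < 1 :=
    fun c => Iff.rfl
  have hPp : P.IsPrime := by
    rw [Ideal.isPrime_iff]
    constructor
    · intro h
      have h1 : (1 : integralClosure (Algebra.adjoin k {x}) L) ∈ P := by rw [h]; trivial
      rw [hPmem] at h1
      have h2 : O.valuation (1 : L) < 1 := h1
      rw [map_one] at h2
      exact lt_irrefl _ h2
    · intro a b hab
      rw [hPmem] at hab
      have hab' : O.valuation ((a : L) * b) < 1 := hab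
      rw [map_mul] at hab'
      by_contra hcon
      push Not at hcon
      rw [hPmem, hPmem, not_lt, not_lt] at hcon
      have h1 := le_antisymm (hV a) hcon.1
      have h2 := le_antisymm (hV b) hcon.2
      rw [h1, h2, one_mul] at hab'
      exact lt_irrefl _ hab'
  have hP0 : P ≠ ⊥ := by
    intro h
    obtain ⟨y, hy⟩ := hO
    apply hy
    have h1 : ∀ c : integralClosure (Algebra.adjoin k {x}) L, c ≠ 0 → O.valuation (c : L) = 1 := by
      intro c hc
      refine le_antisymm (hV c) (not_lt.1 fun h2 => hc ?_)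
      rw [← hPmem, h, Ideal.mem_bot] at h2
      exact h2
    obtain ⟨c, d, hd, rfl⟩ := IsFractionRing.div_surjective
      (A := integralClosure (Algebra.adjoin k {x}) L) y
    rw [← O.valuation_le_one_iff, map_div₀]
    have h2 : O.valuation (algebraMap (integralClosure (Algebra.adjoin k {x}) L) L d) = 1 :=
      h1 d (nonZeroDivisors.ne_zero hd)
    rw [h2, div_one]
    exact hV c
  let Q : IsDedekindDomain.HeightOneSpectrum (integralClosure (Algebra.adjoin k {x}) L) :=
    ⟨P, hPp, hP0⟩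
  have hw1 : ∀ c : integralClosure (Algebra.adjoin k {x}) L,
      Q.valuation L (algebraMap _ L c) ≤ 1 := fun c => Q.valuation_le_one (K := L) c
  have hwk : ∀ q : k, Q.valuation L (algebraMap k L q) ≤ 1 := by
    intro q
    exact hw1 (algebraMap (Algebra.adjoin k {x}) _ (algebraMap k _ q))
  have hw : Q.valuation L ∈ VN k L := by
    refine ⟨Q.valuation_surjective L, ?_⟩
    intro q hq
    refine le_antisymm (hwk q) ?_
    have h3 : Q.valuation L (algebraMap k L q) * Q.valuation L (algebraMap k L q⁻¹) = 1 := by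
      rw [← map_mul, ← map_mul, mul_inv_cancel₀ hq, map_one, map_one]
    calc (1 : ℤᵐ⁰) = Q.valuation L (algebraMap k L q) * Q.valuation L (algebraMap k L q⁻¹) :=
          h3.symm
      _ ≤ Q.valuation L (algebraMap k L q) * 1 := mul_le_mul_right (hwk q⁻¹) _
      _ = _ := mul_one _
  have hwP : ∀ c : integralClosure (Algebra.adjoin k {x}) L,
      Q.valuation L (algebraMap _ L c) < 1 ↔ O.valuation (c : L) < 1 := fun c =>
    Q.valuation_lt_one_iff_mem (K := L) c
  have hunit : ∀ c : integralClosure (Algebra.adjoin k {x}) L,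
      Q.valuation L (algebraMap _ L c) = 1 → O.valuation (c : L) = 1 := by
    intro c hc
    refine le_antisymm (hV c) (not_lt.1 fun h => ?_)
    rw [← hwP, hc] at h
    exact lt_irrefl _ h
  refine ⟨Q.valuation L, hw, fun y => ⟨fun hy => ?_, fun hy => ?_⟩⟩
  · obtain ⟨p, q, hq, hqp⟩ := frac_unit (Q.valuation L) hw1 hy
    have h1 : O.valuation (q : L) * O.valuation y = O.valuation (p : L) := by
      rw [← map_mul]
      exact congrArg O.valuation hqp
    rw [hunit q hq, one_mul] at h1
    rw [← O.valuation_le_one_iff, h1]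
    exact hV p
  · by_contra hcon
    push Not at hcon
    have hy0 : y ≠ 0 := by
      rintro rfl
      rw [map_zero] at hcon
      exact not_lt_zero hcon
    have h0 : Q.valuation L y⁻¹ < 1 := by
      rw [map_inv₀]
      exact inv_lt_one_of_one_lt₀ hcon
    obtain ⟨p, q, hq, hqp⟩ := frac_unit (Q.valuation L) hw1 h0.le
    have h1 : O.valuation (q : L) * O.valuation y⁻¹ = O.valuation (p : L) := by
      rw [← map_mul]
      exact congrArg O.valuation hqp
    rw [hunit q hq, one_mul] at h1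
    have h2 : Q.valuation L (algebraMap _ L p) < 1 := by
      rw [← hqp, map_mul, hq, one_mul]
      exact h0
    rw [hwP, ← h1] at h2
    have h3 : O.valuation y * O.valuation y⁻¹ = 1 := by
      rw [← map_mul, mul_inv_cancel₀ hy0, map_one]
    have h4 : O.valuation y ≤ 1 := (O.valuation_le_one_iff y).2 hy
    have h5 : O.valuation y * O.valuation y⁻¹ < 1 := (mul_le_of_le_one_left' h4).trans_lt h2
    rw [h3] at h5
    exact lt_irrefl _ h5

/-- places are separated by two functions -/
theorem sep_place {k M : Type*} [Field k] [CharZero k] [Field M] [Algebra k M] (hM : IsFun k M)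
    {v : Valuation M ℤᵐ⁰} (hv : v ∈ VN k M) : ∃ s b : M, Transcendental k s ∧ v s < 1 ∧ v b < 1 ∧
      ∀ u ∈ VN k M, u s < 1 → u b < 1 → u = v := by
  classical
  obtain ⟨s, hs⟩ := hv.1 (WithZero.exp (-1 : ℤ))
  have hst : Transcendental k s := unif_trans hv hs
  have hvs : v s < 1 := by
    rw [hs, ← WithZero.exp_zero, WithZero.exp_lt_exp]
    omega
  have hfin : FiniteDimensional k⟮s⟯ M := hM.alg hst
  obtain ⟨hded, hfrac⟩ := Pool.Agent.Helper79.FE.ded_closure s hst
  have hs0 : s ≠ 0 := by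
    rintro rfl
    exact hst isAlgebraic_zero
  have hcen : ∀ u : Valuation M ℤᵐ⁰, ∃ P : Ideal (integralClosure (Algebra.adjoin k {s}) M),
      (u ∈ VN k M ∧ u s < 1) → P.IsPrime ∧
        ∀ c : integralClosure (Algebra.adjoin k {s}) M, u (algebraMap _ M c) < 1 ↔ c ∈ P := by
    intro u
    by_cases h : u ∈ VN k M ∧ u s < 1
    · obtain ⟨P, hP⟩ := Pool.Agent.Helper79.FE.exists_centre
        (C := integralClosure (Algebra.adjoin k {s}) M) u (fun c => vr_B h.1 h.2.le c)
      exact ⟨P, fun _ => hP⟩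
    · exact ⟨⊥, fun h2 => absurd h2 h⟩
  choose PP hPP using hcen
  have hne : ∀ u, u ∈ VN k M ∧ u s < 1 → PP u ≠ ⊥ := by
    intro u hu h
    have h1 := ((hPP u hu).2 (algebraMap (Algebra.adjoin k {s}) _
      ⟨s, Algebra.self_mem_adjoin_singleton k s⟩)).1 hu.2
    rw [h, Ideal.mem_bot] at h1
    exact hs0 (congrArg (fun z : integralClosure (Algebra.adjoin k {s}) M => (z : M)) h1)
  have hdet : ∀ u, u ∈ VN k M ∧ u s < 1 → PP u = PP v → u = v := by
    intro u hu heq
    obtain ⟨kk, hkk⟩ := Pool.Agent.Helper79.FE.val_det (F := M) (PP v) (hPP v ⟨hv, hvs⟩).1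
      (hne v ⟨hv, hvs⟩)
    ext y
    by_cases hy : y = 0
    · rw [hy, map_zero, map_zero]
    · rw [hkk v hv.1 (fun c => vr_B hv hvs.le c) (hPP v ⟨hv, hvs⟩).2 y hy,
        hkk u hu.1.1 (fun c => vr_B hu.1 hu.2.le c) (fun c => by rw [← heq]; exact (hPP u hu).2 c) y hy]
  have hF := Pool.Agent.Helper79.FE.finite_zeros (E := M) s hst
  set T : Finset (Valuation M ℤᵐ⁰) := hF.toFinset.erase v with hT
  have hTm : ∀ u, u ∈ T ↔ u ≠ v ∧ (u ∈ VN k M ∧ u s < 1) := by
    intro u
    rw [hT, Finset.mem_erase, Set.Finite.mem_toFinset]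
    exact Iff.rfl
  obtain ⟨b, hb1, hb2⟩ : ∃ b ∈ PP v, ∀ u ∈ T, b ∉ PP u := by
    by_contra hcon
    push Not at hcon
    have h1 : (PP v : Set (integralClosure (Algebra.adjoin k {s}) M)) ⊆
        ⋃ u ∈ (T : Set (Valuation M ℤᵐ⁰)), (PP u : Set _) := by
      intro b hb
      obtain ⟨u, hu, hbu⟩ := hcon b hb
      exact Set.mem_biUnion hu hbu
    obtain ⟨u, hu, hle⟩ := (Ideal.subset_union_prime v v
      (fun u hu _ _ => (hPP u ((hTm u).1 hu).2).1)).1 h1
    have hmax : (PP v).IsMaximal := (hPP v ⟨hv, hvs⟩).1.isMaximal (hne v ⟨hv, hvs⟩)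
    have h2 := hmax.eq_of_le (hPP u ((hTm u).1 hu).2).1.ne_top hle
    exact ((hTm u).1 hu).1 (hdet u ((hTm u).1 hu).2 h2.symm)
  refine ⟨s, (b : M), hst, hvs, ((hPP v ⟨hv, hvs⟩).2 b).2 hb1, fun u hu hus hub => ?_⟩
  by_contra hne'
  exact hb2 u ((hTm u).2 ⟨hne', hu, hus⟩) (((hPP u ⟨hu, hus⟩).2 b).1 hub)

/-- the order of a zero or pole is at most the degree -/
theorem val_bound {k L : Type*} [Field k] [CharZero k] [Field L] [Algebra k L] {f : L} (hf : Transcendental k f)
    [FiniteDimensional k⟮f⟯ L] {w : Valuation L ℤᵐ⁰} (hw : w ∈ VN k L) :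
    |WithZero.log (w f)| ≤ Module.finrank k⟮f⟯ L := by
  classical
  have hf0 : f ≠ 0 := by
    rintro rfl
    exact hf isAlgebraic_zero
  have hwf0 : w f ≠ 0 := (Valuation.ne_zero_iff w).2 hf0
  by_cases h1 : w f = 1
  · rw [h1, WithZero.log_one, abs_zero]
    exact Int.natCast_nonneg _
  by_contra hcon
  push Not at hcon
  set n := Module.finrank k⟮f⟯ L with hn
  obtain ⟨z, hz⟩ := hw.1 (WithZero.exp (-1 : ℤ))
  have hdep : ¬ LinearIndependent k⟮f⟯ (fun i : Fin (n + 1) => z ^ (i : ℕ)) := by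
    intro h
    have := h.fintype_card_le_finrank
    rw [Fintype.card_fin] at this
    omega
  obtain ⟨g, hg, j, hj⟩ := Fintype.not_linearIndependent_iff.1 hdep
  have hz0 : z ≠ 0 := by
    rintro rfl
    rw [map_zero] at hz
    exact WithZero.exp_ne_zero hz.symm
  -- the largest term
  obtain ⟨i0, hi0⟩ := Finite.exists_max (fun i : Fin (n + 1) => w ((g i : L) * z ^ (i : ℕ)))
  have hjne : w ((g j : L) * z ^ (j : ℕ)) ≠ 0 := by
    rw [Valuation.ne_zero_iff]
    exact mul_ne_zero (fun h => hj (Subtype.ext h)) (pow_ne_zero _ hz0)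
  have hi0ne : w ((g i0 : L) * z ^ (i0 : ℕ)) ≠ 0 := by
    intro h
    have h2 := hi0 j
    simp only [h] at h2
    exact hjne (le_antisymm h2 zero_le)
  have hlog : ∀ i : Fin (n + 1), w ((g i : L) * z ^ (i : ℕ)) ≠ 0 → ∃ m : ℤ,
      w ((g i : L) * z ^ (i : ℕ)) = WithZero.exp (m * WithZero.log (w f) - i) := by
    intro i hi
    have hgi : (g i : L) ≠ 0 := by
      intro h
      rw [h, zero_mul, map_zero] at hi
      exact hi rfl
    obtain ⟨m, hm⟩ := vr_deg hw hf0 h1 (g i).2 hgi
    refine ⟨m, ?_⟩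
    rw [map_mul, map_pow, hm, hz]
    conv_lhs => rw [← WithZero.exp_log hwf0]
    rw [← WithZero.exp_zsmul, ← WithZero.exp_nsmul, ← WithZero.exp_add]
    congr 1
    rw [smul_eq_mul, nsmul_eq_mul]
    ring
  have hlt : ∀ i : Fin (n + 1), i ≠ i0 → w ((g i : L) * z ^ (i : ℕ)) <
      w ((g i0 : L) * z ^ (i0 : ℕ)) := by
    intro i hi
    refine lt_of_le_of_ne (hi0 i) fun heq => hi ?_
    have hine : w ((g i : L) * z ^ (i : ℕ)) ≠ 0 := by
      rw [heq]
      exact hi0ne
    obtain ⟨m, hm⟩ := hlog i hine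
    obtain ⟨m', hm'⟩ := hlog i0 hi0ne
    rw [hm, hm', WithZero.exp_inj] at heq
    have h2 : (i : ℤ) - i0 = (m - m') * WithZero.log (w f) := by linarith
    by_cases h3 : m - m' = 0
    · rw [h3, zero_mul] at h2
      exact Fin.ext (by omega)
    · exfalso
      have h4 : |(i : ℤ) - i0| ≤ n := by
        rw [abs_le]
        have := i.2
        have := i0.2
        constructor
        · omega
        · omega
      have h5 : |WithZero.log (w f)| ≤ |(i : ℤ) - i0| := by
        rw [h2, abs_mul]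
        exact le_mul_of_one_le_left (abs_nonneg _) (Int.one_le_abs h3)
      omega
  have hsum : ∑ i : Fin (n + 1), (g i : L) * z ^ (i : ℕ) = 0 := hg
  rw [← Finset.add_sum_erase _ _ (Finset.mem_univ i0)] at hsum
  have h2 : w (∑ i ∈ Finset.univ.erase i0, (g i : L) * z ^ (i : ℕ)) <
      w ((g i0 : L) * z ^ (i0 : ℕ)) :=
    Valuation.map_sum_lt w hi0ne fun i hi => hlt i (Finset.ne_of_mem_erase hi)
  have h3 := Valuation.map_add_eq_of_lt_left w h2
  rw [hsum, map_zero] at h3
  exact hi0ne h3.symm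

end Pool.Agent.Helper79.UN
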