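import Pool.Agent.Helper79.RG.STR
import Pool.Agent.Helper79.RG.TR
import Pool.Agent.Helper79.UN.VR

set_option autoImplicit false

/-!
# Function fields of genus at most one have at most one regular differential
-/

set_option linter.unusedSectionVars false

universe u

namespace Pool.Agent.Helper79.UN

open scoped WithZero
open IntermediateField
open Pool.Agent.Helper79.FE
open Pool.Agent.Helper79.RG

section ng

variable {k M : Type*} [Field k] [IsAlgClosed k] [CharZero k] [Field M] [Algebra k M]

theorem ng_exp {w : Valuation M ℤᵐ⁰} {f : M} (hf : f ≠ 0) : ∃ n : ℤ, w f = WithZero.exp n :=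
  ⟨WithZero.log (w f), (WithZero.exp_log ((Valuation.ne_zero_iff w).2 hf)).symm⟩

/-- the derivation does not kill uniformizers -/
theorem ng_ne (hM : IsFun k M) {w : Valuation M ℤᵐ⁰} (hw : w ∈ VN k M) {z : M}
    (hz : w z = WithZero.exp (-1 : ℤ)) {x : M} (d : Derivation ℤ M M)
    (hd : ∀ c : k, d (algebraMap k M c) = 0) (hdx : d x = 1) : d z ≠ 0 := by
  intro h0
  have hMc : CharZero M := charZero_of_injective_algebraMap (algebraMap k M).injective
  have hzt := z_trans hw hz
  have := hM.alg hzt
  have h1 := der_eq (k := k) (E := M) (M := M) z (Algebra.IsAlgebraic.of_finite _ _) d 0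
    (fun c => by rw [hd]; rfl) (by rw [h0]; rfl)
  rw [h1] at hdx
  exact zero_ne_one hdx

/-- the derivative of a function without pole -/
theorem ng_le (hM : IsFun k M) {w : Valuation M ℤᵐ⁰} (hw : w ∈ VN k M) {z : M}
    (hz : w z = WithZero.exp (-1 : ℤ)) (d : Derivation ℤ M M)
    (hd : ∀ c : k, d (algebraMap k M c) = 0) (hdz : d z ≠ 0) {a : M} (ha : w a ≤ 1) :
    w (d a) ≤ w (d z) := by
  have h1 := der_le hM hw hz ((d z)⁻¹ • d) (fun c => ⟨0, by
    rw [Derivation.smul_apply, hd, smul_zero, map_zero]⟩) ha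
  rw [Derivation.smul_apply, Derivation.smul_apply, smul_eq_mul, smul_eq_mul, inv_mul_cancel₀ hdz,
    map_one, max_self, map_mul, map_inv₀] at h1
  have h2 : 0 < w (d z) := zero_lt_iff.2 ((Valuation.ne_zero_iff w).2 hdz)
  rwa [inv_mul_le_iff₀ h2, mul_one] at h1

/-- the derivative of a function with a zero or a pole -/
theorem ng_log (hM : IsFun k M) {w : Valuation M ℤᵐ⁰} (hw : w ∈ VN k M) {z : M}
    (hz : w z = WithZero.exp (-1 : ℤ)) (d : Derivation ℤ M M)
    (hd : ∀ c : k, d (algebraMap k M c) = 0) (hdz : d z ≠ 0) {f : M} (hf0 : f ≠ 0) (hf : w f ≠ 1) :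
    w (d f) = w f * (w (d z) * WithZero.exp (1 : ℤ)) := by
  obtain ⟨n, u, hu, rfl, hvf⟩ := unif hz hf0
  have hz0 := z_ne hz
  have hn : n ≠ 0 := by
    rintro rfl
    rw [zpow_zero, one_mul] at hf
    exact hf hu
  have hvDz : w (d z) ≠ 0 := (Valuation.ne_zero_iff w).2 hdz
  have h2 : w (n * (d z / z) * u) = w (d z) * WithZero.exp (1 : ℤ) := by
    rw [map_mul, map_mul, v_int hw hn, hu, map_div₀, hz, one_mul, mul_one, div_eq_mul_inv,
      ← WithZero.exp_neg, neg_neg]
  have h4 : w (d u) < w (n * (d z / z) * u) := by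
    refine (ng_le hM hw hz d hd hdz hu.le).trans_lt ?_
    rw [h2]
    conv_lhs => rw [← mul_one (w (d z))]
    refine (mul_lt_mul_iff_right₀ (zero_lt_iff.2 hvDz)).2 ?_
    rw [← WithZero.exp_zero, WithZero.exp_lt_exp]; omega
  rw [der_unif hz0, map_mul, map_mul w (z ^ n) u, hu, mul_one,
    Valuation.map_add_eq_of_lt_right w h4, h2]

/-- values on `k(u)` -/
theorem ng_val {w : Valuation M ℤᵐ⁰} (hw : w ∈ VN k M) {u : M} {L : ℤ} (hL : L ≠ 0)
    (hu : w u = WithZero.exp L) {c : M} (hc : c ∈ k⟮u⟯) (hc0 : c ≠ 0) :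
    ∃ m : ℤ, w c = WithZero.exp (m * L) := by
  have hu0 : u ≠ 0 := by
    rintro rfl
    rw [map_zero] at hu
    exact WithZero.exp_ne_zero hu.symm
  have hu1 : w u ≠ 1 := by
    rw [hu, ← WithZero.exp_zero, Ne, WithZero.exp_inj]
    exact hL
  obtain ⟨m, hm⟩ := vr_deg hw hu0 hu1 hc hc0
  exact ⟨m, by rw [hm, hu, ← WithZero.exp_zsmul, smul_eq_mul]⟩

theorem ng_shift (u : M) (a : k) {c : M} (hc : c ∈ k⟮u⟯) : c ∈ k⟮u - algebraMap k M a⟯ := by
  have h1 : k⟮u⟯ ≤ k⟮u - algebraMap k M a⟯ := by
    rw [adjoin_simple_le_iff]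
    have := add_mem (mem_adjoin_simple_self k (u - algebraMap k M a))
      (IntermediateField.algebraMap_mem k⟮u - algebraMap k M a⟯ a)
    rwa [sub_add_cancel] at this
  exact h1 hc

theorem ng_sub_ne {u : M} (hu : Transcendental k u) (a : k) : u - algebraMap k M a ≠ 0 := by
  intro h
  rw [sub_eq_zero] at h
  exact hu (h ▸ isAlgebraic_algebraMap a)

/-- no multiple of a nonzero non-unit is one -/
theorem ng_unit {L m : ℤ} (hL : L < 0) (h : m * L = -1) : L = -1 := by
  rcases Int.eq_one_or_neg_one_of_mul_eq_neg_one' h with ⟨_, h2⟩ | ⟨_, h2⟩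
  · exact h2
  · omega

/-- rational function fields -/
theorem not_twoReg_rat {u : M}
    (hu : Transcendental k u) (hg : ∀ m : M, m ∈ k⟮u⟯) : ¬ TwoReg k M := by
  rintro ⟨x, d, h₁, h₂, hx, hd, hdx, hli, hr1, hr2⟩
  have hMc : CharZero M := charZero_of_injective_algebraMap (algebraMap k M).injective
  have hfin : FiniteDimensional k⟮u⟯ M := by
    refine Module.Finite.of_surjective (Algebra.linearMap k⟮u⟯ M) fun m => ⟨⟨m, hg m⟩, rfl⟩
  have hM : IsFun k M := ⟨u, hu, hfin⟩
  have hu0 : u ≠ 0 := by
    rintro rfl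
    exact hu isAlgebraic_zero
  have hdu : d u ≠ 0 := by
    intro h0
    have h1 := der_eq (k := k) (E := M) (M := M) u (Algebra.IsAlgebraic.of_finite _ _) d 0
      (fun c => by rw [hd]; rfl) (by rw [h0]; rfl)
    rw [h1] at hdx
    exact zero_ne_one hdx
  have key : ∀ h : M, Reg k d h → h = 0 := by
    intro h hr
    have hinf : ∀ w ∈ VN k M, 1 < w u → w (h / d u) < 1 := by
      intro w hw hwu
      obtain ⟨L, hL⟩ := ng_exp (w := w) hu0
      have hL0 : 0 < L := by
        rw [hL, ← WithZero.exp_zero, WithZero.exp_lt_exp] at hwu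
        exact hwu
      obtain ⟨y, hy⟩ := hw.1 (WithZero.exp (-1 : ℤ))
      obtain ⟨m, hm⟩ := ng_val hw (L := L) hL0.ne' hL (hg y) (z_ne hy)
      rw [hm, WithZero.exp_inj] at hy
      have h3 : L = 1 := by
        have := ng_unit (L := -L) (m := -m) (by omega) (by rw [neg_mul_neg]; exact hy)
        omega
      rw [h3] at hL
      have hz : w u⁻¹ = WithZero.exp (-1 : ℤ) := by
        rw [map_inv₀, hL, WithZero.exp_neg]
      have h4 := hr w hw u⁻¹ hz
      rw [d.leibniz_inv, smul_eq_mul, map_mul, Valuation.map_neg, map_pow, hz] at h4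
      rw [map_div₀, div_lt_one₀ (zero_lt_iff.2 ((Valuation.ne_zero_iff w).2 hdu))]
      refine h4.trans_lt ?_
      conv_rhs => rw [← one_mul (w (d u))]
      refine (mul_lt_mul_iff_left₀ (zero_lt_iff.2 ((Valuation.ne_zero_iff w).2 hdu))).2 ?_
      rw [← WithZero.exp_nsmul, ← WithZero.exp_zero, WithZero.exp_lt_exp]
      norm_num
    have hall : ∀ w ∈ VN k M, w (h / d u) ≤ 1 := by
      intro w hw
      rcases le_or_gt (w u) 1 with hwu | hwu
      · obtain ⟨a, ha⟩ := exists_res hM hw hwu
        obtain ⟨L, hL⟩ := ng_exp (w := w) (ng_sub_ne hu a)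
        have hL0 : L < 0 := by
          rw [hL, ← WithZero.exp_zero, WithZero.exp_lt_exp] at ha
          exact ha
        obtain ⟨y, hy⟩ := hw.1 (WithZero.exp (-1 : ℤ))
        obtain ⟨m, hm⟩ := ng_val hw (L := L) hL0.ne hL (ng_shift u a (hg y)) (z_ne hy)
        rw [hm, WithZero.exp_inj] at hy
        rw [ng_unit hL0 hy] at hL
        have h4 := hr w hw _ hL
        rw [map_sub, hd, sub_zero] at h4
        rw [map_div₀]
        exact (div_le_one₀ (zero_lt_iff.2 ((Valuation.ne_zero_iff w).2 hdu))).2 h4
      · exact (hinf w hw hwu).le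
    obtain ⟨c, hc⟩ := g1_const hM hall
    have hui : Transcendental k u⁻¹ := fun h => hu (by simpa using h.inv)
    have := hM.alg hui
    obtain ⟨v, hv, hlt⟩ := exists_zero (N := k) u⁻¹ hui
    have hvu : 1 < v u := by
      rw [map_inv₀] at hlt
      exact (inv_lt_one₀ (zero_lt_iff.2 ((Valuation.ne_zero_iff v).2 hu0))).1 hlt
    have h5 := hinf v hv hvu
    rw [← hc] at h5
    have hc0 : c = 0 := by
      by_contra hc0
      rw [hv.2 c hc0] at h5
      exact lt_irrefl _ h5
    rw [hc0, map_zero] at hc
    have := (div_eq_zero_iff.1 hc.symm).resolve_right hdu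
    exact this
  exact hli.ne_zero 0 (key _ hr1)

/-- the representation of the elements of `k(u, v)` -/
theorem ng_rep {u v : M} (hv2 : v ^ 2 ∈ k⟮u⟯)
    (hg : ∀ m : M, m ∈ IntermediateField.adjoin k ({u, v} : Set M)) (m : M) :
    ∃ A ∈ k⟮u⟯, ∃ B ∈ k⟮u⟯, m = A + B * v := by
  have h1 : m ∈ (k⟮u⟯⟮v⟯ : IntermediateField k⟮u⟯ M) := by
    have h2 : IntermediateField.adjoin k ({u, v} : Set M) ≤ (k⟮u⟯⟮v⟯).restrictScalars k := by
      rw [adjoin_le_iff]
      rintro y (rfl | hy)
      · exact IntermediateField.algebraMap_mem k⟮y⟯⟮v⟯ (⟨y, mem_adjoin_simple_self k y⟩ : k⟮y⟯)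
      · rw [Set.mem_singleton_iff] at hy
        rw [hy]
        exact mem_adjoin_simple_self _ v
    exact h2 (hg m)
  have hint : IsIntegral k⟮u⟯ v := by
    refine ⟨Polynomial.X ^ 2 - Polynomial.C (⟨v ^ 2, hv2⟩ : k⟮u⟯),
      Polynomial.monic_X_pow_sub_C _ (by norm_num), ?_⟩
    rw [Polynomial.eval₂_sub, Polynomial.eval₂_X_pow, Polynomial.eval₂_C]
    exact sub_self _
  have h3 : m ∈ Algebra.adjoin k⟮u⟯ {v} := by
    have h4 := adjoin_simple_toSubalgebra_of_isAlgebraic hint.isAlgebraic
    rw [← h4]
    exact h1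
  clear h1
  induction h3 using Algebra.adjoin_induction with
  | mem y hy =>
    rw [Set.mem_singleton_iff] at hy
    rw [hy]
    exact ⟨0, zero_mem _, 1, one_mem _, by ring⟩
  | algebraMap y => exact ⟨y, y.2, 0, zero_mem _, by rw [zero_mul, add_zero]; rfl⟩
  | add y z _ _ hy hz =>
    obtain ⟨A, hA, B, hB, rfl⟩ := hy
    obtain ⟨A', hA', B', hB', rfl⟩ := hz
    exact ⟨A + A', add_mem hA hA', B + B', add_mem hB hB', by ring⟩
  | mul y z _ _ hy hz =>
    obtain ⟨A, hA, B, hB, rfl⟩ := hy
    obtain ⟨A', hA', B', hB', rfl⟩ := hz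
    exact ⟨A * A' + B * B' * v ^ 2, add_mem (mul_mem hA hA') (mul_mem (mul_mem hB hB') hv2),
      A * B' + A' * B, add_mem (mul_mem hA hB') (mul_mem hA' hB), by ring⟩

/-- the index of the value group -/
theorem ng_index {w : Valuation M ℤᵐ⁰} (hw : w ∈ VN k M) {u v : M} (hrep : ∀ m : M,
    ∃ A ∈ k⟮u⟯, ∃ B ∈ k⟮u⟯, m = A + B * v) (N : ℤ)
    (hF : ∀ c ∈ k⟮u⟯, c ≠ 0 → ∃ j : ℤ, w c = WithZero.exp (j * N))
    (hv : ∀ A ∈ k⟮u⟯, A + v ≠ 0 → ∃ j : ℤ, w (A + v) = WithZero.exp (j * N)) :
    ∃ j : ℤ, j * N = -1 := by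
  obtain ⟨y, hy⟩ := hw.1 (WithZero.exp (-1 : ℤ))
  obtain ⟨A, hA, B, hB, rfl⟩ := hrep y
  have hy0 := z_ne hy
  by_cases hB0 : B = 0
  · rw [hB0, zero_mul, add_zero] at hy hy0
    obtain ⟨j, hj⟩ := hF A hA hy0
    rw [hj, WithZero.exp_inj] at hy
    exact ⟨j, hy⟩
  · have e : A + B * v = B * (A / B + v) := by
      rw [mul_add, mul_div_cancel₀ _ hB0]
    rw [e] at hy hy0
    obtain ⟨j, hj⟩ := hF B hB hB0
    obtain ⟨i, hi⟩ := hv (A / B) (div_mem hA hB) (right_ne_zero_of_mul hy0)
    rw [map_mul, hj, hi, ← WithZero.exp_add, WithZero.exp_inj] at hy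
    exact ⟨j + i, by rw [add_mul]; exact hy⟩

/-- elliptic function fields -/
theorem not_twoReg_ell {u v : M} {p q : k}
    (hu : Transcendental k u) (h : v ^ 2 = u ^ 3 + algebraMap k M p * u + algebraMap k M q)
    (hd : 4 * p ^ 3 + 27 * q ^ 2 ≠ 0) (hg : ∀ m : M, m ∈ IntermediateField.adjoin k ({u, v} : Set M)) :
    ¬ TwoReg k M := by
  rintro ⟨x, d, h₁, h₂, hx, hdk, hdx, hli, hr1, hr2⟩
  have hMc : CharZero M := charZero_of_injective_algebraMap (algebraMap k M).injective
  have huF : u ∈ k⟮u⟯ := mem_adjoin_simple_self k u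
  have hcF : ∀ c : k, algebraMap k M c ∈ k⟮u⟯ := fun c => IntermediateField.algebraMap_mem _ c
  have hv2 : v ^ 2 ∈ k⟮u⟯ := by
    rw [h]
    exact add_mem (add_mem (pow_mem huF 3) (mul_mem (hcF p) huF)) (hcF q)
  have hrep := ng_rep hv2 hg
  have hfin : FiniteDimensional k⟮u⟯ M := by
    refine ⟨Submodule.fg_def.2 ⟨{1, v}, Set.toFinite _, ?_⟩⟩
    rw [eq_top_iff]
    intro m _
    obtain ⟨A, hA, B, hB, rfl⟩ := hrep m
    have h1 : A + B * v = (⟨A, hA⟩ : k⟮u⟯) • (1 : M) + (⟨B, hB⟩ : k⟮u⟯) • v := by
      rw [Algebra.smul_def, Algebra.smul_def, mul_one]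
      rfl
    rw [h1]
    exact add_mem (Submodule.smul_mem _ _ (Submodule.subset_span (by simp)))
      (Submodule.smul_mem _ _ (Submodule.subset_span (by simp)))
  have hM : IsFun k M := ⟨u, hu, hfin⟩
  have hu0 : u ≠ 0 := by
    rintro rfl
    exact hu isAlgebraic_zero
  have hdu : d u ≠ 0 := by
    intro h0
    have h1 := der_eq (k := k) (E := M) (M := M) u (Algebra.IsAlgebraic.of_finite _ _) d 0
      (fun c => by rw [hdk]; rfl) (by rw [h0]; rfl)
    rw [h1] at hdx
    exact zero_ne_one hdx
  have hv0 : v ≠ 0 := by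
    rintro rfl
    apply hu
    refine ⟨Polynomial.X ^ 3 + (Polynomial.C p * Polynomial.X + Polynomial.C q), ?_, ?_⟩
    · intro h0
      have h1 := congrArg (fun P => Polynomial.coeff P 3) h0
      simp at h1
    · simp only [map_add, map_mul, map_pow, Polynomial.aeval_X, Polynomial.aeval_C]
      rw [← add_assoc, ← h]
      ring
  have hvv : ∀ w : Valuation M ℤᵐ⁰, w (v ^ 2) = w v ^ 2 := fun w => map_pow _ _ _
  have key : ∀ h : M, Reg k d h → ∀ w ∈ VN k M, w (h * v) ≤ w (d u) := by
    intro g hr w hw
    have hwc : ∀ c : k, w (algebraMap k M c) ≤ 1 := fun c => val_k hw c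
    rcases le_or_gt (w u) 1 with hwu | hwu
    · obtain ⟨a, ha⟩ := exists_res hM hw hwu
      obtain ⟨t, ht⟩ : ∃ t, t = u - algebraMap k M a := ⟨_, rfl⟩
      have hut : u = t + algebraMap k M a := by rw [ht]; ring
      rw [← ht] at ha
      have ht0 : t ≠ 0 := by rw [ht]; exact ng_sub_ne hu a
      have hdt : d t = d u := by rw [ht, map_sub, hdk, sub_zero]
      obtain ⟨L, hL⟩ := ng_exp (w := w) ht0
      have hL0 : L < 0 := by
        rw [hL, ← WithZero.exp_zero, WithZero.exp_lt_exp] at ha
        exact ha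
      have hFt : ∀ c ∈ k⟮u⟯, c ≠ 0 → ∃ j : ℤ, w c = WithZero.exp (j * L) := by
        intro c hc hc0
        have := ng_shift u a hc
        rw [← ht] at this
        exact ng_val hw hL0.ne hL this hc0
      have hwv : w v ≤ 1 := by
        have h1 : w (v ^ 2) ≤ 1 := by
          rw [h]
          refine (w.map_add _ _).trans (max_le ((w.map_add _ _).trans (max_le ?_ ?_)) (hwc q))
          · rw [map_pow]; exact pow_le_one' hwu 3
          · rw [map_mul]; exact mul_le_one' (hwc p) hwu
        rw [hvv] at h1
        exact (pow_le_one_iff (by norm_num)).1 h1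
      obtain ⟨b, hb⟩ := exists_res hM hw hwv
      by_cases hb0 : b = 0
      · rw [hb0, map_zero, sub_zero] at hb
        -- a ramified point
        have e1 : v ^ 2 = t * (u ^ 2 + u * algebraMap k M a + algebraMap k M (a ^ 2 + p)) +
            algebraMap k M (a ^ 3 + p * a + q) := by
          rw [h, hut]
          simp only [map_add, map_mul, map_pow]
          ring
        have hcof : w (u ^ 2 + u * algebraMap k M a + algebraMap k M (a ^ 2 + p)) ≤ 1 := by
          refine (w.map_add _ _).trans (max_le ((w.map_add _ _).trans (max_le ?_ ?_)) (hwc _))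
          · rw [map_pow]; exact pow_le_one' hwu 2
          · rw [map_mul]; exact mul_le_one' hwu (hwc a)
        have e2 : a ^ 3 + p * a + q = 0 := by
          by_contra hne
          have h1 := hw.2 _ hne
          have h2 : algebraMap k M (a ^ 3 + p * a + q) =
              v ^ 2 - t * (u ^ 2 + u * algebraMap k M a + algebraMap k M (a ^ 2 + p)) := by
            rw [e1]; ring
          have h3 : w (algebraMap k M (a ^ 3 + p * a + q)) < 1 := by
            rw [h2]
            refine Valuation.map_sub_lt w ?_ ?_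
            · rw [hvv]; exact pow_lt_one₀ zero_le hb (by norm_num)
            · rw [map_mul]; exact (mul_le_of_le_one_right' hcof).trans_lt ha
          rw [h1] at h3
          exact lt_irrefl _ h3
        have e3 : 3 * a ^ 2 + p ≠ 0 := by
          intro h0
          apply hd
          have h1 : p = -(3 * a ^ 2) := by linear_combination h0
          have h2 : q = 2 * a ^ 3 := by
            rw [h1] at e2
            linear_combination e2
          rw [h1, h2]
          ring
        have hcof1 : w (u ^ 2 + u * algebraMap k M a + algebraMap k M (a ^ 2 + p)) = 1 := by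
          have e4 : u ^ 2 + u * algebraMap k M a + algebraMap k M (a ^ 2 + p) =
              t * (u + 2 * algebraMap k M a) + algebraMap k M (3 * a ^ 2 + p) := by
            rw [hut]
            simp only [map_add, map_mul, map_pow, map_ofNat]
            ring
          rw [e4]
          have h1 : w (t * (u + 2 * algebraMap k M a)) < w (algebraMap k M (3 * a ^ 2 + p)) := by
            rw [hw.2 _ e3, map_mul]
            refine (mul_le_of_le_one_right' ?_).trans_lt ha
            refine (w.map_add _ _).trans (max_le hwu ?_)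
            have : (2 : M) * algebraMap k M a = algebraMap k M (2 * a) := by rw [map_mul, map_ofNat]
            rw [this]
            exact hwc _
          rw [Valuation.map_add_eq_of_lt_right w h1, hw.2 _ e3]
        have e5 : w v ^ 2 = w t := by
          rw [← hvv, e1, e2, map_zero, add_zero, map_mul, hcof1, mul_one]
        obtain ⟨K, hK⟩ := ng_exp (w := w) hv0
        have hK0 : K < 0 := by
          rw [hK, ← WithZero.exp_zero, WithZero.exp_lt_exp] at hb
          exact hb
        have hLK : L = 2 * K := by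
          rw [hK, hL, ← WithZero.exp_nsmul, WithZero.exp_inj] at e5
          simpa using e5.symm
        obtain ⟨j, hj⟩ := ng_index hw hrep K (fun c hc hc0 => by
          obtain ⟨j, hj⟩ := hFt c hc hc0
          exact ⟨2 * j, by rw [hj, hLK]; congr 1; ring⟩) (fun A hA hAv => by
          by_cases hA0 : A = 0
          · rw [hA0, zero_add, hK]
            exact ⟨1, by rw [one_mul]⟩
          · obtain ⟨j, hj⟩ := hFt A hA hA0
            have hne : w A ≠ w v := by
              rw [hj, hK, Ne, WithZero.exp_inj, hLK]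
              intro h0
              have : (2 * j - 1) * K = 0 := by linear_combination h0
              rcases mul_eq_zero.1 this with h1 | h1
              · omega
              · omega
            rcases lt_or_gt_of_ne hne with h1 | h1
            · exact ⟨1, by rw [Valuation.map_add_eq_of_lt_right w h1, hK, one_mul]⟩
            · exact ⟨2 * j, by rw [Valuation.map_add_eq_of_lt_left w h1, hj, hLK]; congr 1; ring⟩)
        rw [ng_unit hK0 hj] at hK
        have h4 := hr w hw v hK
        have e6 : 2 * v * d v = (3 * u ^ 2 + algebraMap k M p) * d u := by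
          have h5 := congrArg d h
          rw [map_add, map_add, hdk, add_zero, d.leibniz, hdk, smul_zero, add_zero, d.leibniz_pow,
            d.leibniz_pow] at h5
          simp only [smul_eq_mul, nsmul_eq_mul] at h5
          push_cast at h5
          linear_combination h5
        have e7 : w (3 * u ^ 2 + algebraMap k M p) = 1 := by
          have e8 : 3 * u ^ 2 + algebraMap k M p =
              t * (3 * (u + algebraMap k M a)) + algebraMap k M (3 * a ^ 2 + p) := by
            rw [hut]
            simp only [map_add, map_mul, map_pow, map_ofNat]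
            ring
          rw [e8]
          have h1 : w (t * (3 * (u + algebraMap k M a))) < w (algebraMap k M (3 * a ^ 2 + p)) := by
            rw [hw.2 _ e3, map_mul]
            refine (mul_le_of_le_one_right' ?_).trans_lt ha
            have : (3 : M) = algebraMap k M 3 := (map_ofNat _ 3).symm
            rw [map_mul, this]
            exact mul_le_one' (hwc _) ((w.map_add _ _).trans (max_le hwu (hwc a)))
          rw [Valuation.map_add_eq_of_lt_right w h1, hw.2 _ e3]
        have e9 : w v * w (d v) = w (d u) := by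
          have h5 := congrArg w e6
          have h2 : w (2 : M) = 1 := by
            have h3 : (2 : M) = algebraMap k M 2 := (map_ofNat _ 2).symm
            rw [h3]
            exact hw.2 _ (by norm_num)
          rw [map_mul, map_mul, h2, one_mul, map_mul, e7, one_mul] at h5
          exact h5
        rw [map_mul, mul_comm, ← e9]
        exact mul_le_mul_right h4 _
      · -- an unramified point
        have hwv1 : w v = 1 := by
          have e : v = (v - algebraMap k M b) + algebraMap k M b := by ring
          rw [e, Valuation.map_add_eq_of_lt_right w (by rw [hw.2 b hb0]; exact hb), hw.2 b hb0]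
        obtain ⟨j, hj⟩ := ng_index hw hrep L hFt (fun A hA hAv => by
          by_cases hA0 : A = 0
          · rw [hA0, zero_add, hwv1]
            exact ⟨0, by rw [zero_mul, WithZero.exp_zero]⟩
          by_cases hA1 : w A = 1
          · obtain ⟨α, hα⟩ := exists_res hM hw hA1.le
            by_cases hab : α + b = 0
            · have e : A - v = ((A - algebraMap k M α) - (v - algebraMap k M b)) + algebraMap k M (α - b) := by
                rw [map_sub]; ring
              have hne : α - b ≠ 0 := by
                intro h0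
                apply hb0
                have : (2 : k) * b = 0 := by linear_combination hab - h0
                rcases mul_eq_zero.1 this with h1 | h1
                · exact absurd h1 (by norm_num)
                · exact h1
              have h1 : w (A - v) = 1 := by
                rw [e, Valuation.map_add_eq_of_lt_right w (by
                  rw [hw.2 _ hne]
                  exact Valuation.map_sub_lt w hα hb), hw.2 _ hne]
              have h2 : A - v ≠ 0 := by
                intro h0
                rw [h0, map_zero] at h1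
                exact zero_ne_one h1
              have h3 : A ^ 2 - v ^ 2 = (A + v) * (A - v) := by ring
              obtain ⟨j, hj⟩ := hFt (A ^ 2 - v ^ 2) (sub_mem (pow_mem hA 2) hv2) (by
                rw [h3]; exact mul_ne_zero hAv h2)
              rw [h3, map_mul, h1, mul_one] at hj
              exact ⟨j, hj⟩
            · have e : A + v = ((A - algebraMap k M α) + (v - algebraMap k M b)) + algebraMap k M (α + b) := by
                rw [map_add]; ring
              refine ⟨0, ?_⟩
              rw [e, Valuation.map_add_eq_of_lt_right w (by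
                rw [hw.2 _ hab]
                exact Valuation.map_add_lt w hα hb), hw.2 _ hab, zero_mul, WithZero.exp_zero]
          · rcases lt_or_gt_of_ne hA1 with h1 | h1
            · refine ⟨0, ?_⟩
              rw [Valuation.map_add_eq_of_lt_right w (by rw [hwv1]; exact h1), hwv1, zero_mul,
                WithZero.exp_zero]
            · obtain ⟨j, hj⟩ := hFt A hA hA0
              exact ⟨j, by rw [Valuation.map_add_eq_of_lt_left w (by rw [hwv1]; exact h1), hj]⟩)
        rw [ng_unit hL0 hj] at hL
        have h4 := hr w hw t hL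
        rw [hdt] at h4
        rw [map_mul, hwv1, mul_one]
        exact h4
    · -- a pole
      have hw30 : w (u ^ 3) = w u ^ 3 := map_pow _ _ _
      have h3 : 1 < w u ^ 3 := one_lt_pow₀ hwu (by norm_num)
      have e1 : w v ^ 2 = w u ^ 3 := by
        rw [← hvv, h, add_assoc, Valuation.map_add_eq_of_lt_left w, hw30]
        rw [hw30]
        refine Valuation.map_add_lt w ?_ ((hwc q).trans_lt h3)
        rw [map_mul]
        refine (mul_le_of_le_one_left' (hwc p)).trans_lt ?_
        calc w u = w u ^ 1 := (pow_one _).symm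
          _ < w u ^ 3 := pow_lt_pow_right₀ hwu (by norm_num)
      obtain ⟨L, hL⟩ := ng_exp (w := w) hu0
      have hL0 : 0 < L := by
        rw [hL, ← WithZero.exp_zero, WithZero.exp_lt_exp] at hwu
        exact hwu
      obtain ⟨K, hK⟩ := ng_exp (w := w) hv0
      have hKL : 2 * K = 3 * L := by
        rw [hK, hL, ← WithZero.exp_nsmul, ← WithZero.exp_nsmul, WithZero.exp_inj] at e1
        simpa using e1
      obtain ⟨m, hLm⟩ : ∃ m, L = 2 * m := ⟨K - L, by omega⟩
      have hKm : K = 3 * m := by omega
      have hFt : ∀ c ∈ k⟮u⟯, c ≠ 0 → ∃ j : ℤ, w c = WithZero.exp (j * L) :=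
        fun c hc hc0 => ng_val hw hL0.ne' hL hc hc0
      obtain ⟨j, hj⟩ := ng_index hw hrep m (fun c hc hc0 => by
        obtain ⟨j, hj⟩ := hFt c hc hc0
        exact ⟨2 * j, by rw [hj, hLm]; congr 1; ring⟩) (fun A hA hAv => by
        by_cases hA0 : A = 0
        · rw [hA0, zero_add, hK, hKm]
          exact ⟨3, rfl⟩
        · obtain ⟨j, hj⟩ := hFt A hA hA0
          have hne : w A ≠ w v := by
            rw [hj, hK, Ne, WithZero.exp_inj, hLm, hKm]
            intro h0
            have : (2 * j - 3) * m = 0 := by linear_combination h0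
            rcases mul_eq_zero.1 this with h1 | h1
            · omega
            · omega
          rcases lt_or_gt_of_ne hne with h1 | h1
          · exact ⟨3, by rw [Valuation.map_add_eq_of_lt_right w h1, hK, hKm]⟩
          · exact ⟨2 * j, by rw [Valuation.map_add_eq_of_lt_left w h1, hj, hLm]; congr 1; ring⟩)
      have hm1 : m = 1 := by
        have := ng_unit (L := -m) (m := -j) (by omega) (by rw [neg_mul_neg]; exact hj)
        omega
      rw [hm1] at hLm hKm
      rw [hLm] at hL
      rw [hKm] at hK
      have hz : w (u / v) = WithZero.exp (-1 : ℤ) := by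
        rw [map_div₀, hL, hK, ← WithZero.exp_sub]
        congr 1
      have h4 := hr w hw _ hz
      have hdz := ng_ne hM hw hz d hdk hdx
      have h5 := ng_log hM hw hz d hdk hdz hu0 (by
        rw [hL, ← WithZero.exp_zero, Ne, WithZero.exp_inj]; norm_num)
      rw [h5, map_mul, hL, hK, mul_comm (WithZero.exp (2 * 1 : ℤ)), mul_assoc, ← WithZero.exp_add]
      refine (mul_le_mul_left h4 _).trans (le_of_eq ?_)
      congr 2
  have hconst : ∀ g : M, Reg k d g → ∃ c : k, g * v = algebraMap k M c * d u := by
    intro g hr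
    obtain ⟨c, hc⟩ := g1_const hM (b := g * v / d u) (fun w hw => by
      rw [map_div₀]
      exact (div_le_one₀ (zero_lt_iff.2 ((Valuation.ne_zero_iff w).2 hdu))).2 (key g hr w hw))
    exact ⟨c, by rw [hc, div_mul_cancel₀ _ hdu]⟩
  obtain ⟨c1, hc1⟩ := hconst _ hr1
  obtain ⟨c2, hc2⟩ := hconst _ hr2
  rw [LinearIndependent.pair_iff] at hli
  have h6 : c2 • h₁ + (-c1) • h₂ = 0 := by
    have h7 : (c2 • h₁ + (-c1) • h₂) * v = 0 := by
      rw [Algebra.smul_def, Algebra.smul_def, map_neg]
      linear_combination (algebraMap k M c2) * hc1 - (algebraMap k M c1) * hc2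
    exact (mul_eq_zero.1 h7).resolve_right hv0
  obtain ⟨h8, h9⟩ := hli _ _ h6
  have hc10 : c1 = 0 := neg_eq_zero.1 h9
  rw [hc10, map_zero, zero_mul] at hc1
  have h10 : h₁ = 0 := (mul_eq_zero.1 hc1).resolve_right hv0
  obtain ⟨h11, -⟩ := hli 1 0 (by rw [h10, smul_zero, zero_smul, add_zero])
  exact one_ne_zero h11

end ng

end Pool.Agent.Helper79.UN
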