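import Pool.Agent.Helper79.RG.STR
import Pool.Agent.Helper79.RG.TR

set_option autoImplicit false

/-!
# Pull-back of regular differentials
-/

set_option linter.unusedSectionVars false

universe u

namespace Pool.Agent.Helper79.UN

open scoped WithZero
open IntermediateField
open Pool.Agent.Helper79.FE
open Pool.Agent.Helper79.RG

/-- pull-back of regular differentials -/
theorem pull_twoReg {k M1 M2 : Type*} [Field k] [IsAlgClosed k] [CharZero k] [Field M1] [Field M2] [Algebra k M1]
    [Algebra k M2] [Algebra M1 M2] [IsScalarTower k M1 M2] (h1 : IsFun k M1) (h2 : IsFun k M2) (h : TwoReg k M1) :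
    TwoReg k M2 := by
  obtain ⟨x, d, h₁, h₂, hx, hd, hdx, hli, hr1, hr2⟩ := h
  have hM1c : CharZero M1 := charZero_of_injective_algebraMap (algebraMap k M1).injective
  have hM2c : CharZero M2 := charZero_of_injective_algebraMap (algebraMap k M2).injective
  let j : M1 →+* M2 := algebraMap M1 M2
  have hjk : ∀ c : k, j (algebraMap k M1 c) = algebraMap k M2 c := fun c =>
    (IsScalarTower.algebraMap_apply k M1 M2 c).symm
  have hjx : Transcendental k (j x) := fun h0 => hx ((isAlgebraic_algebraMap_iff (algebraMap M1 M2).injective).1 h0)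
  have hfinx0 := h1.alg hx
  have halx0 : Algebra.IsAlgebraic k⟮x⟯ M1 := Algebra.IsAlgebraic.of_finite _ _
  have hfinx := h2.alg hjx
  have halx : Algebra.IsAlgebraic k⟮j x⟯ M2 := Algebra.IsAlgebraic.of_finite _ _
  obtain ⟨d', hd'1, hd'2⟩ := exists_der (K := k) (E := M2) (j x) hjx halx (fun _ => 0) (by simp) (by simp) 1
  have hcomp : ∀ a : M1, d' (j a) = j (d a) := by
    intro a
    have h1 := comp_der (k := k) (K0 := M1) (t := x) halx0 d hd hdx j d' (fun c => by rw [hjk]; exact hd'1 _) a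
    rw [h1, hd'2, one_mul]
  have hM12 : Algebra.IsAlgebraic M1 M2 := by
    constructor
    intro a
    have h3 := halx.isAlgebraic a
    have hle : ∀ y : k⟮j x⟯, ∃ z : M1, algebraMap M1 M2 z = (y : M2) := by
      intro y
      have h4 : k⟮j x⟯ ≤ (IsScalarTower.toAlgHom k M1 M2).fieldRange := by
        rw [IntermediateField.adjoin_simple_le_iff]
        exact ⟨x, rfl⟩
      exact h4 y.2
    exact alg_of_range (R1 := k⟮j x⟯) (R2 := M1) (L := M2) (algebraMap k⟮j x⟯ M2).injective
      (algebraMap M1 M2).injective (fun c => hle c) h3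
  -- regularity
  have hreg : ∀ h : M1, Reg k d h → Reg k d' (j h) := by
    intro h hr w hw z hz
    have hwK : ∀ c : k, c ≠ 0 → w (j (algebraMap k M1 c)) = 1 := fun c hc => by
      rw [hjk]
      exact hw.2 _ hc
    have hnt : ∃ a : M1, a ≠ 0 ∧ w (j a) ≠ 1 := by
      by_contra hcon
      push Not at hcon
      have hwM : w ∈ VN M1 M2 := ⟨hw.1, hcon⟩
      have hz0 : z ≠ 0 := z_ne hz
      have h1 := val_alg hwM hz0 (hM12.isAlgebraic z)
      rw [hz, ← WithZero.exp_zero, WithZero.exp_inj] at h1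
      omega
    obtain ⟨v, e, he, hvs, hv1, hvl⟩ := norm_pow (w.comap j) hnt
    have hv : v ∈ VN k M1 := ⟨hvs, fun c hc => (hv1 _).2 (hwK c hc)⟩
    obtain ⟨τ, hτ⟩ := hvs (WithZero.exp (-1 : ℤ))
    have h1' := hr v hv τ hτ
    have hτt : Transcendental k τ := unif_trans hv hτ
    have hfinτ := h1.alg hτt
    have hdτ : d τ ≠ 0 := der_ne (k := k) d hd hdx (Algebra.IsAlgebraic.of_finite k⟮τ⟯ M1)
    have hjdτ : j (d τ) ≠ 0 := (map_ne_zero _).2 hdτ
    have h2' : v (h / d τ) ≤ 1 := by
      rw [map_div₀]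
      exact (div_le_one₀ (zero_lt_iff.2 ((Valuation.ne_zero_iff v).2 hdτ))).2 h1'
    have h3 : w (j (h / d τ)) ≤ 1 := le_of_same (v := v) (w := w.comap j) (fun a => (hv1 a).symm) h2'
    rw [map_div₀, map_div₀] at h3
    have h4 := (div_le_one₀ (zero_lt_iff.2 ((Valuation.ne_zero_iff w).2 hjdτ))).1 h3
    refine h4.trans ?_
    rw [← hcomp]
    have h5 : w (j τ) < 1 := lt_of_same (v := v) (w := w.comap j) (fun a => (hv1 a).symm) (by
      rw [hτ, ← WithZero.exp_zero, WithZero.exp_lt_exp]; norm_num)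
    exact dx_le h2 hw hz d' hd'1 hd'2 h5.le
  refine ⟨j x, d', j h₁, j h₂, hjx, hd'1, hd'2, ?_, hreg _ hr1, hreg _ hr2⟩
  rw [LinearIndependent.pair_iff] at hli ⊢
  intro s t hst
  refine hli s t ?_
  apply (algebraMap M1 M2).injective
  rw [map_zero, ← hst, map_add, Algebra.smul_def, Algebra.smul_def, Algebra.smul_def, Algebra.smul_def, map_mul, map_mul]
  rw [← hjk, ← hjk]

end Pool.Agent.Helper79.UN
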