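import Pool.Agent.Helper79.UN.UY
import Pool.Agent.Helper79.UN.PB

set_option autoImplicit false

/-!
# The relative uniform theorems for fields with few roots of unity
-/

set_option linter.unusedSectionVars false

universe u

namespace Pool.Agent.Helper79.UN

open scoped WithZero
open Filter
open IntermediateField
open Pool.Agent.Helper79.FE
open Pool.Agent.TH826.MK (KQ symb unitPart)
open Pool.Agent.Helper537_Sym
open Pool.Agent.Helper79.RG
open Pool.Agent.Helper79.QP (up)

theorem uniform_rel_few (D e : ℕ) (R : ℕ → ℕ) : ∃ B : ℕ, ∀ (K F L : Type u) [Field K] [CharZero K] [Field F] [Field L] [Algebra K F]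
    [Algebra K L] [Algebra F L] [IsScalarTower K F L] [FiniteDimensional F L], Module.finrank F L ≤ e →
    Few K R → IsFun K L →
    (∀ x : L, IsAlgebraic K x → ∃ c : K, algebraMap K L c = x) →
    {z : KQ L 2 ⧸ LinearMap.range (KQ.map 2 (algebraMap F L)) | ∃ (f : Lˣ) (u : Fˣ) (β : KQ L 2),
      β ∈ LinearMap.range (KQ.map 2 (algebraMap F L)) ∧ Module.finrank K⟮(f : L)⟯ L ≤ D ∧
      Module.finrank K⟮algebraMap F L u⟯ L ≤ D ∧
      (∀ v ∈ VN K L, sy f (up F L u) + β ∈ unitPart v 2) ∧
      z = Submodule.Quotient.mk (sy f (up F L u))}.encard ≤ B := by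
  set m := e.factorial with hm
  set D' := (2 * (D * m) * (D * m) + D * m) * m with hD'
  obtain ⟨B, hB⟩ := uniform_rel_core.{u} D m (R D').factorial
  refine ⟨B, ?_⟩
  intro K F L _ _ _ _ _ _ _ _ _ hFe hn hL hK
  have hFc : CharZero F := charZero_of_injective_algebraMap (algebraMap K F).injective
  obtain ⟨M, _, _, _, _, hgal, hfd, hle⟩ := exists_galois (F := F) (L := L)
  let _ : Algebra K M := ((algebraMap L M).comp (algebraMap K L)).toAlgebra
  have t1 : IsScalarTower K L M := IsScalarTower.of_algebraMap_eq fun x => rfl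
  have t2 : IsScalarTower K F M := IsScalarTower.of_algebraMap_eq fun x => by
    rw [IsScalarTower.algebraMap_apply F L M (algebraMap K F x), ← IsScalarTower.algebraMap_apply K F L]
    rfl
  have hLM : FiniteDimensional L M := FiniteDimensional.right F L M
  exact hB K F L M (hle.trans (Nat.factorial_le hFe)) (few_rb hn D') hL hK

theorem uniform_rel_var_few (D e r : ℕ) (R : ℕ → ℕ) : ∃ B : ℕ, ∀ (K F L : Type u) [Field K] [CharZero K] [Field F] [Field L]
    [Algebra K F] [Algebra K L] [Algebra F L] [IsScalarTower K F L] [FiniteDimensional F L],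
    Module.finrank F L ≤ e → Few K R →
    (∃ S : Finset L, IntermediateField.adjoin K (S : Set L) = ⊤) →
    (∀ x : L, IsAlgebraic K x → ∃ c : K, algebraMap K L c = x) → ∀ u : Set L, u.Finite → u.ncard ≤ r →
    IsTranscendenceBasis K ((↑) : u → L) → (∀ t ∈ u, ∃ a : F, algebraMap F L a = t) →
    {z : KQ L 2 ⧸ LinearMap.range (KQ.map 2 (algebraMap F L)) | ∃ (f : Lˣ) (w : Fˣ) (β : KQ L 2),
      β ∈ LinearMap.range (KQ.map 2 (algebraMap F L)) ∧
      (∀ t ∈ u, Module.finrank (IntermediateField.adjoin K (u \ {t}))⟮(f : L)⟯ L ≤ D) ∧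
      (∀ t ∈ u, Module.finrank (IntermediateField.adjoin K (u \ {t}))⟮algebraMap F L w⟯ L ≤ D) ∧
      (∀ v ∈ VN K L, sy f (up F L w) + β ∈ unitPart v 2) ∧
      z = Submodule.Quotient.mk (sy f (up F L w))}.encard ≤ B := by
  set m := e.factorial with hm
  set D' := (2 * (D * m) * (D * m) + D * m) * m with hD'
  obtain ⟨B, hB⟩ := uniform_rel_var_core.{u} D m (R D').factorial r
  refine ⟨B, ?_⟩
  intro K F L _ _ _ _ _ _ _ _ _ hFe hn hL hK u hufin hur hu huF
  have hFc : CharZero F := charZero_of_injective_algebraMap (algebraMap K F).injective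
  obtain ⟨M, _, _, _, _, hgal, hfd, hle⟩ := exists_galois (F := F) (L := L)
  let _ : Algebra K M := ((algebraMap L M).comp (algebraMap K L)).toAlgebra
  have t1 : IsScalarTower K L M := IsScalarTower.of_algebraMap_eq fun x => rfl
  have t2 : IsScalarTower K F M := IsScalarTower.of_algebraMap_eq fun x => by
    rw [IsScalarTower.algebraMap_apply F L M (algebraMap K F x), ← IsScalarTower.algebraMap_apply K F L]
    rfl
  have hLM : FiniteDimensional L M := FiniteDimensional.right F L M
  exact hB K F L M (hle.trans (Nat.factorial_le hFe)) (few_rb hn D') hL hK u hufin hur hu huF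

end Pool.Agent.Helper79.UN
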