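import Pool.Agent.Helper79.UN.RE
import Pool.Agent.Helper79.UN.VR

set_option autoImplicit false

/-!
# Relations with a constant term
-/

set_option linter.unusedSectionVars false

universe u

namespace Pool.Agent.Helper79.UN

open IntermediateField Polynomial
open Pool.Agent.Helper79.FE (VN)
open Pool.Agent.Helper79.RG

variable {k L : Type*} [Field k] [Field L] [Algebra k L] {a b : ℕ} {x z : L}

/-- Gauss: an irreducible relation divides all relations -/
theorem irr_dvd (hx : Transcendental k x) {P Q : k[X][X]} (hP : Irreducible P)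
    (he : eval₂ (aeval x : k[X] →ₐ[k] L).toRingHom z P = 0)
    (hQ : eval₂ (aeval x : k[X] →ₐ[k] L).toRingHom z Q = 0) : P ∣ Q := by
  classical
  let _ := (phi k x).toAlgebra
  have := phi_frac hx
  have hprim : P.IsPrimitive := hP.isPrimitive (irr_pos hx hP he)
  have h1 : Irreducible (P.map (phi k x)) := hprim.irreducible_iff_irreducible_map_fraction_map.1 hP
  let _ : NormalizedGCDMonoid k[X] := UniqueFactorizationMonoid.toNormalizedGCDMonoid _
  have h2 : P.map (phi k x) ∣ Q.map (phi k x) := by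
    have h3 := minpoly.eq_of_irreducible h1 (show aeval z (P.map (phi k x)) = 0 by rw [phi_eval, he])
    have h4 : minpoly k⟮x⟯ z ∣ Q.map (phi k x) := minpoly.dvd _ _ (by rw [phi_eval, hQ])
    rw [← h3] at h4
    exact (dvd_mul_right _ _).trans h4
  exact hprim.dvd_of_fraction_map_dvd_fraction_map (K := k⟮x⟯) h2

/-- if there is no place at which `x` and `z` both vanish then there is a relation, of the same degrees as a given
one, with a constant term -/
theorem rel_const [CharZero k] (hx : Transcendental k x) [FiniteDimensional k⟮x⟯ L] (h : Rel k a b x z)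
    (hno : ¬ ∃ w ∈ VN k L, w x < 1 ∧ w z < 1) : ∃ c : Fin (a + 1) → Fin (b + 1) → k, c 0 0 ≠ 0 ∧
      ∑ i, ∑ j, algebraMap k L (c i j) * x ^ (i : ℕ) * z ^ (j : ℕ) = 0 := by
  classical
  obtain ⟨P, hP, hPb, hPa, he⟩ := exists_irr hx h
  by_cases h0 : (P.coeff 0).coeff 0 ≠ 0
  · refine ⟨fun i j => (P.coeff j).coeff i, h0, ?_⟩
    rw [Finset.sum_comm, ← he, eval₂_eq_sum_range' _ (Nat.lt_succ_of_le hPb), Finset.sum_range]
    refine Finset.sum_congr rfl fun j _ => ?_
    show _ = aeval x (P.coeff j) * z ^ (j : ℕ)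
    rw [aeval_eq_sum_range' (Nat.lt_succ_of_le (hPa j)), Finset.sum_range, Finset.sum_mul]
    refine Finset.sum_congr rfl fun i _ => ?_
    rw [Algebra.smul_def]
  exfalso
  apply hno
  rw [not_not] at h0
  let ε : k[X][X] →+* L := eval₂RingHom (aeval x : k[X] →ₐ[k] L).toRingHom z
  let κ : k[X][X] →+* k := (constantCoeff (R := k)).comp (constantCoeff (R := k[X]))
  have hκ : ∀ Q, κ Q = (Q.coeff 0).coeff 0 := fun Q => rfl
  have hI : (RingHom.ker κ).map ε.rangeRestrict ≠ ⊤ := by
    rw [Ideal.ne_top_iff_one]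
    intro h1
    rw [Ideal.mem_map_iff_of_surjective _ ε.rangeRestrict_surjective] at h1
    obtain ⟨Q, hQ, hQ1⟩ := h1
    have h2 : ε Q = 1 := by
      have := congrArg Subtype.val hQ1
      simpa using this
    have h3 : P ∣ 1 - Q := by
      refine irr_dvd hx hP he ?_
      show ε (1 - Q) = 0
      rw [map_sub, map_one, h2, sub_self]
    obtain ⟨R, hR⟩ := h3
    have h4 := congrArg κ hR
    rw [map_sub, map_one, (RingHom.mem_ker).1 hQ, map_mul, hκ P, h0, zero_mul, sub_zero] at h4
    exact one_ne_zero h4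
  obtain ⟨B, hB1, hB2⟩ := Ideal.image_subset_nonunits_valuationSubring _ hI
  have hmem : ∀ Q : k[X][X], ε Q ∈ B := fun Q => hB1 ⟨Q, rfl⟩
  have hnon : ∀ Q : k[X][X], κ Q = 0 → ε Q ∈ B.nonunits := fun Q hQ =>
    hB2 ⟨ε.rangeRestrict Q, Ideal.mem_map_of_mem _ (RingHom.mem_ker.2 hQ), rfl⟩
  have hxε : ε (C X) = x := by
    show eval₂ _ z (C X) = x
    rw [eval₂_C]
    exact aeval_X x
  have hzε : ε X = z := eval₂_X _ _
  have hxn : x ∈ B.nonunits := by
    rw [← hxε]
    refine hnon _ ?_
    rw [hκ]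
    simp
  have hzn : z ∈ B.nonunits := by
    rw [← hzε]
    refine hnon _ ?_
    rw [hκ]
    simp
  have hx0 : x ≠ 0 := by
    rintro rfl
    exact hx isAlgebraic_zero
  have hinv : ∀ y : L, y ≠ 0 → y ∈ B.nonunits → y⁻¹ ∉ B := by
    intro y hy hyn
    have h1 := (B.inv_mem_nonunits_iff (x := y⁻¹)).1 (by rwa [inv_inv])
    rcases h1 with h1 | h1
    · exact absurd h1 (inv_ne_zero hy)
    · exact h1
  obtain ⟨w, hw, hwB⟩ := val_ring ⟨x, hx, inferInstance⟩ B (fun c => by
    have := hmem (C (C c))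
    have h2 : ε (C (C c)) = algebraMap k L c := by
      show eval₂ _ z (C (C c)) = _
      rw [eval₂_C]
      exact aeval_C x c
    rwa [h2] at this) ⟨x⁻¹, hinv x hx0 hxn⟩
  have hlt : ∀ y : L, y ∈ B.nonunits → w y < 1 := by
    intro y hy
    by_cases hy0 : y = 0
    · rw [hy0, map_zero]
      exact zero_lt_one
    · have h1 := hinv y hy0 hy
      rw [← hwB, not_le, map_inv₀] at h1
      exact (one_lt_inv₀ (zero_lt_iff.2 ((Valuation.ne_zero_iff w).2 hy0))).1 h1
  exact ⟨w, hw, hlt x hxn, hlt z hzn⟩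

end Pool.Agent.Helper79.UN
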