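import Pool.Agent.Helper79.UN.UL

set_option autoImplicit false

/-!
# Module RE: algebraic relations of bounded degree in function fields of one variable
-/

set_option linter.unusedSectionVars false

universe u

namespace Pool.Agent.Helper79.UN

open IntermediateField Polynomial
open Pool.Agent.Helper79.FE (VN)
open Pool.Agent.Helper79.RG

/-- `x` and `z` satisfy a nontrivial polynomial relation of degree at most `a` in `x` and at most `b` in `z` -/
def Rel (k : Type*) {L : Type*} [Field k] [Field L] [Algebra k L] (a b : ℕ) (x z : L) : Prop :=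
  ∃ c : Fin (a + 1) → Fin (b + 1) → k, (∃ i j, c i j ≠ 0) ∧
    ∑ i, ∑ j, algebraMap k L (c i j) * x ^ (i : ℕ) * z ^ (j : ℕ) = 0

variable {k L : Type*} [Field k] [Field L] [Algebra k L] {a b : ℕ} {x z : L}

theorem Rel.swap (h : Rel k a b x z) : Rel k b a z x := by
  obtain ⟨c, ⟨i, j, hij⟩, hs⟩ := h
  refine ⟨fun j i => c i j, ⟨j, i, hij⟩, ?_⟩
  rw [Finset.sum_comm, ← hs]
  refine Finset.sum_congr rfl fun i _ => Finset.sum_congr rfl fun j _ => ?_
  ring

section fin

variable {R : Type*} [Semiring R]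

/-- the polynomial with given coefficients -/
noncomputable def mk1 {n : ℕ} (c : Fin (n + 1) → R) : R[X] := ∑ i : Fin (n + 1), C (c i) * X ^ (i : ℕ)

theorem mk1_coeff {n : ℕ} (c : Fin (n + 1) → R) (i : Fin (n + 1)) : (mk1 c).coeff i = c i := by
  classical
  unfold mk1
  rw [finsetSum_coeff, Finset.sum_eq_single i]
  · rw [coeff_C_mul_X_pow, if_pos rfl]
  · intro j _ hj
    rw [coeff_C_mul_X_pow, if_neg]
    intro h
    exact hj (Fin.ext h.symm)
  · intro h
    exact absurd (Finset.mem_univ _) h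

theorem mk1_natDegree {n : ℕ} (c : Fin (n + 1) → R) : (mk1 c).natDegree ≤ n := by
  unfold mk1
  refine natDegree_sum_le_of_forall_le _ _ fun i _ => ?_
  refine (natDegree_C_mul_X_pow_le _ _).trans ?_
  omega

end fin

/-- relations and polynomials in two variables -/
theorem rel_iff : Rel k a b x z ↔ ∃ P : k[X][X], P ≠ 0 ∧ P.natDegree ≤ b ∧ (∀ j, (P.coeff j).natDegree ≤ a) ∧
    eval₂ (aeval x : k[X] →ₐ[k] L).toRingHom z P = 0 := by
  constructor
  · rintro ⟨c, ⟨i0, j0, hij⟩, hs⟩
    refine ⟨mk1 fun j => mk1 fun i => c i j, ?_, mk1_natDegree _, fun j => ?_, ?_⟩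
    · intro h
      have h1 := mk1_coeff (fun j => mk1 fun i => c i j) j0
      rw [h, coeff_zero] at h1
      have h2 := mk1_coeff (fun i => c i j0) i0
      rw [← h1, coeff_zero] at h2
      exact hij h2.symm
    · by_cases hj : j < b + 1
      · have h1 := mk1_coeff (fun j => mk1 fun i => c i j) ⟨j, hj⟩
        rw [show ((⟨j, hj⟩ : Fin (b + 1)) : ℕ) = j from rfl] at h1
        rw [h1]
        exact mk1_natDegree _
      · rw [coeff_eq_zero_of_natDegree_lt ((mk1_natDegree _).trans_lt (by omega)), natDegree_zero]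
        exact Nat.zero_le _
    · rw [← hs, Finset.sum_comm]
      unfold mk1
      rw [eval₂_finset_sum]
      refine Finset.sum_congr rfl fun j _ => ?_
      rw [eval₂_mul, eval₂_C, eval₂_X_pow]
      show aeval x (∑ i : Fin (a + 1), C (c i j) * X ^ (i : ℕ)) * z ^ (j : ℕ) = _
      rw [map_sum, Finset.sum_mul]
      refine Finset.sum_congr rfl fun i _ => ?_
      rw [map_mul, aeval_C, map_pow, aeval_X]
  · rintro ⟨P, hP0, hPb, hPa, hP⟩
    refine ⟨fun i j => (P.coeff j).coeff i, ?_, ?_⟩
    · obtain ⟨j, hj⟩ : ∃ j, P.coeff j ≠ 0 := by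
        by_contra hcon
        push Not at hcon
        exact hP0 (ext fun j => by rw [hcon, coeff_zero])
      obtain ⟨i, hi⟩ : ∃ i, (P.coeff j).coeff i ≠ 0 := by
        by_contra hcon
        push Not at hcon
        exact hj (ext fun i => by rw [hcon, coeff_zero])
      have hjb : j ≤ b := (le_natDegree_of_ne_zero hj).trans hPb
      have hia : i ≤ a := (le_natDegree_of_ne_zero hi).trans (hPa j)
      exact ⟨⟨i, by omega⟩, ⟨j, by omega⟩, hi⟩
    · rw [Finset.sum_comm, ← hP, eval₂_eq_sum_range' _ (Nat.lt_succ_of_le hPb), Finset.sum_range]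
      refine Finset.sum_congr rfl fun j _ => ?_
      show _ = aeval x (P.coeff j) * z ^ (j : ℕ)
      rw [aeval_eq_sum_range' (Nat.lt_succ_of_le (hPa j)), Finset.sum_range, Finset.sum_mul]
      refine Finset.sum_congr rfl fun i _ => ?_
      rw [Algebra.smul_def]

/-- the coefficients as elements of `k(x)` -/
noncomputable def phi (k : Type*) {L : Type*} [Field k] [Field L] [Algebra k L] (x : L) : k[X] →+* k⟮x⟯ :=
  (aeval (AdjoinSimple.gen k x) : k[X] →ₐ[k] k⟮x⟯).toRingHom

theorem phi_val (x : L) (p : k[X]) : algebraMap k⟮x⟯ L (phi k x p) = aeval x p := by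
  show algebraMap k⟮x⟯ L (aeval (AdjoinSimple.gen k x) p) = _
  rw [← aeval_algebraMap_apply]
  rfl

theorem phi_inj (hx : Transcendental k x) : Function.Injective (phi k x) := by
  intro p q h
  have h1 : aeval x p = aeval x q := by rw [← phi_val, ← phi_val, h]
  exact (transcendental_iff_injective.1 hx) h1

theorem phi_eval (x z : L) (P : k[X][X]) : aeval z (P.map (phi k x)) =
    eval₂ (aeval x : k[X] →ₐ[k] L).toRingHom z P := by
  rw [aeval_def, eval₂_map]
  congr 1
  exact RingHom.ext fun p => phi_val x p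

theorem Rel.alg (hx : Transcendental k x) (h : Rel k a b x z) :
    IsAlgebraic k⟮x⟯ z ∧ (minpoly k⟮x⟯ z).natDegree ≤ b := by
  obtain ⟨P, hP0, hPb, hPa, hP⟩ := rel_iff.1 h
  have h0 : P.map (phi k x) ≠ 0 := (Polynomial.map_ne_zero_iff (phi_inj hx)).2 hP0
  have h1 : aeval z (P.map (phi k x)) = 0 := by rw [phi_eval, hP]
  refine ⟨⟨_, h0, h1⟩, ?_⟩
  refine (natDegree_le_natDegree (minpoly.degree_le_of_ne_zero _ z h0 h1)).trans ?_
  exact natDegree_map_le.trans hPb

/-- an irreducible relation -/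
theorem exists_irr (_hx : Transcendental k x) (h : Rel k a b x z) : ∃ P : Polynomial (Polynomial k),
    Irreducible P ∧ P.natDegree ≤ b ∧ (∀ j, (P.coeff j).natDegree ≤ a) ∧
      Polynomial.eval₂ (Polynomial.aeval x : Polynomial k →ₐ[k] L).toRingHom z P = 0 := by
  classical
  obtain ⟨P, hP0, hPb, hPa, hP⟩ := rel_iff.1 h
  obtain ⟨s, hs, hsP⟩ := UniqueFactorizationMonoid.exists_prime_factors P hP0
  let ε : k[X][X] →+* L := eval₂RingHom (aeval x : k[X] →ₐ[k] L).toRingHom z
  have hε : ∀ Q, ε Q = eval₂ (aeval x : k[X] →ₐ[k] L).toRingHom z Q := fun Q => rfl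
  have h1 : ε s.prod = 0 := by
    obtain ⟨u, hu⟩ := hsP
    have h2 : ε (s.prod * u) = 0 := by rw [hu, hε, hP]
    rw [map_mul] at h2
    exact (mul_eq_zero.1 h2).resolve_right (u.isUnit.map ε).ne_zero
  rw [map_multiset_prod, Multiset.prod_eq_zero_iff, Multiset.mem_map] at h1
  obtain ⟨P0, hP0s, hP0e⟩ := h1
  have hdvd : P0 ∣ P := (Multiset.dvd_prod hP0s).trans hsP.dvd
  refine ⟨P0, (hs P0 hP0s).irreducible, (natDegree_le_of_dvd hdvd hP0).trans hPb, ?_, hP0e⟩
  -- the degree in the other variable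
  have key : ∀ Q : k[X][X], ∀ n : ℕ, (Bivariate.swap Q).natDegree ≤ n ↔ ∀ j, (Q.coeff j).natDegree ≤ n := by
    have hcc : ∀ (Q : k[X][X]) (i j : ℕ), ((Bivariate.swap Q).coeff i).coeff j = (Q.coeff j).coeff i := by
      intro Q i j
      induction Q using Polynomial.induction_on' with
      | add p q hp hq => rw [map_add, coeff_add, coeff_add, hp, hq, coeff_add, coeff_add]
      | monomial n f =>
        induction f using Polynomial.induction_on' with
        | add p q hp hq =>
          rw [map_add, map_add, coeff_add, coeff_add, hp, hq, coeff_add, coeff_add]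
        | monomial m r =>
          rw [Bivariate.swap_monomial_monomial, coeff_monomial, coeff_monomial]
          by_cases h1 : m = i <;> by_cases h2 : n = j <;> simp [h1, h2, coeff_monomial]
    intro Q n
    rw [natDegree_le_iff_coeff_eq_zero]
    constructor
    · intro h j
      rw [natDegree_le_iff_coeff_eq_zero]
      intro m hm
      rw [← hcc, h m hm, coeff_zero]
    · intro h m hm
      ext j
      rw [hcc, coeff_zero]
      exact coeff_eq_zero_of_natDegree_lt ((h j).trans_lt hm)
  rw [← key]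
  have h3 : Bivariate.swap P ≠ 0 := (map_ne_zero_iff _ (Bivariate.swap (R := k)).injective).2 hP0
  exact (natDegree_le_of_dvd (map_dvd (Bivariate.swap (R := k)) hdvd) h3).trans ((key P a).2 hPa)

theorem irr_pos (hx : Transcendental k x) {P : k[X][X]} (hP : Irreducible P)
    (he : eval₂ (aeval x : k[X] →ₐ[k] L).toRingHom z P = 0) : P.natDegree ≠ 0 := by
  intro h
  rw [natDegree_eq_zero] at h
  obtain ⟨q, rfl⟩ := h
  rw [eval₂_C] at he
  have h1 : aeval x q = 0 := he
  have h2 : q = 0 := (transcendental_iff.1 hx) q h1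
  rw [h2, C_0] at hP
  exact not_irreducible_zero hP

theorem phi_frac (hx : Transcendental k x) :
    letI := (phi k x).toAlgebra; IsFractionRing k[X] k⟮x⟯ := by
  let _ := (phi k x).toAlgebra
  have : FaithfulSMul k[X] k⟮x⟯ := (faithfulSMul_iff_algebraMap_injective _ _).2 (phi_inj hx)
  refine IsFractionRing.of_field _ _ fun y => ?_
  obtain ⟨r, s, hrs⟩ := (mem_adjoin_simple_iff k (y : L)).1 y.2
  refine ⟨r, s, ?_⟩
  apply (algebraMap k⟮x⟯ L).injective
  rw [map_div₀]
  show (y : L) = algebraMap k⟮x⟯ L (phi k x r) / algebraMap k⟮x⟯ L (phi k x s)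
  rw [phi_val, phi_val]
  exact hrs

/-- the degree of an irreducible relation (Gauss) -/
theorem irr_degree (hx : Transcendental k x) {P : k[X][X]} (hP : Irreducible P)
    (he : eval₂ (aeval x : k[X] →ₐ[k] L).toRingHom z P = 0) :
    Irreducible (P.map (phi k x)) ∧ P.natDegree = (minpoly k⟮x⟯ z).natDegree := by
  let _ := (phi k x).toAlgebra
  have := phi_frac hx
  have hprim : P.IsPrimitive := hP.isPrimitive (irr_pos hx hP he)
  have h1 : Irreducible (P.map (phi k x)) := hprim.irreducible_iff_irreducible_map_fraction_map.1 hP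
  have h2 : aeval z (P.map (phi k x)) = 0 := by rw [phi_eval, he]
  refine ⟨h1, ?_⟩
  have h3 := minpoly.eq_of_irreducible h1 h2
  rw [← h3, natDegree_mul_C, natDegree_map_eq_of_injective (phi_inj hx)]
  exact inv_ne_zero (leadingCoeff_ne_zero.2 h1.ne_zero)

/-- reduction of the degree in `z` (an irreducible factor of the relation; Gauss lemma) -/
theorem rel_reduce (hx : Transcendental k x) [FiniteDimensional k⟮x⟯ L] (h : Rel k a b x z) :
    Rel k a (Module.finrank k⟮x⟯ L) x z := by
  obtain ⟨P, hP, -, hPa, he⟩ := exists_irr hx h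
  refine rel_iff.2 ⟨P, hP.ne_zero, ?_, hPa, he⟩
  rw [(irr_degree hx hP he).2]
  exact minpoly.natDegree_le z

/-- an algebraic element satisfies a relation -/
theorem rel_of_alg (hz : IsAlgebraic k⟮x⟯ z) : ∃ a b : ℕ, Rel k a b x z := by
  classical
  by_cases hx : Transcendental k x
  · let _ := (phi k x).toAlgebra
    let _ : Algebra k[X] L := (aeval x : k[X] →ₐ[k] L).toRingHom.toAlgebra
    have := phi_frac hx
    have ht : IsScalarTower k[X] k⟮x⟯ L := IsScalarTower.of_algebraMap_eq fun p => (phi_val x p).symm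
    have h1 := (IsFractionRing.isAlgebraic_iff k[X] k⟮x⟯ L).2 hz
    obtain ⟨P, hP0, hP⟩ := h1
    refine ⟨P.support.sup fun j => (P.coeff j).natDegree, P.natDegree, rel_iff.2 ⟨P, hP0, le_rfl, fun j => ?_, hP⟩⟩
    by_cases hj : P.coeff j = 0
    · rw [hj, natDegree_zero]
      exact Nat.zero_le _
    · exact Finset.le_sup (f := fun j => (P.coeff j).natDegree) (mem_support_iff.2 hj)
  · obtain ⟨P, hP, hPx⟩ := not_not.1 hx
    refine ⟨P.natDegree, 0, fun i _ => P.coeff i, ⟨Fin.last _, 0, ?_⟩, ?_⟩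
    · show P.coeff P.natDegree ≠ 0
      rw [Polynomial.coeff_natDegree]
      exact Polynomial.leadingCoeff_ne_zero.2 hP
    · rw [Polynomial.aeval_eq_sum_range, Finset.sum_range] at hPx
      rw [← hPx]
      refine Finset.sum_congr rfl fun i _ => ?_
      simp [Algebra.smul_def]

/-- the relation between two transcendental elements (Gauss lemma, twice) -/
theorem rel_deg (hx : Transcendental k x) (hz : Transcendental k z) [FiniteDimensional k⟮x⟯ L]
    [FiniteDimensional k⟮z⟯ L] : Rel k (Module.finrank k⟮z⟯ L) (Module.finrank k⟮x⟯ L) x z := by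
  have hz' : IsAlgebraic k⟮x⟯ z := (Algebra.IsAlgebraic.of_finite k⟮x⟯ L).isAlgebraic z
  obtain ⟨a, b, h⟩ := rel_of_alg hz'
  exact (rel_reduce hz (rel_reduce hx h).swap).swap

end Pool.Agent.Helper79.UN
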