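import Pool.Agent.Helper79.UN.UW
import Pool.Agent.Helper79.UN.GC
import Pool.Agent.Helper79.UN.DG
import Pool.Agent.Helper79.RG.RL

set_option autoImplicit false

/-!
# Uniform boundedness for coverings
-/

set_option linter.unusedSectionVars false

universe u

namespace Pool.Agent.Helper79.UN

open scoped WithZero
open Filter
open IntermediateField
open Pool.Agent.Helper79.FE
open Pool.Agent.TH826.MK (KQ symb unitPart)
open Pool.Agent.Helper537_Sym
open Pool.Agent.Helper79.RG
open Pool.Agent.Helper79.QP (up gg mem_UU norm_mem sy_prod_left UU)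

theorem isFun_ext {K L M : Type*} [Field K] [Field L] [Field M] [Algebra K L] [Algebra K M] [Algebra L M]
    [IsScalarTower K L M] [FiniteDimensional L M] (hL : IsFun K L) : IsFun K M := by
  obtain ⟨x, hx, hfin⟩ := hL
  refine ⟨algebraMap L M x, fun h => hx ((isAlgebraic_algebraMap_iff (algebraMap L M).injective).1 h), ?_⟩
  refine Module.finite_of_finrank_pos ?_
  rw [deg_map (K := K) (L := L) (M := M) x]
  exact Nat.mul_pos Module.finrank_pos Module.finrank_pos

theorem isFun_const {K K' M : Type*} [Field K] [Field K'] [Field M] [Algebra K K'] [Algebra K M] [Algebra K' M]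
    [IsScalarTower K K' M] [Algebra.IsAlgebraic K K'] (hM : IsFun K M) : IsFun K' M := by
  obtain ⟨x, hx, hfin⟩ := hM
  refine ⟨x, fun h => hx (h.restrictScalars K), ?_⟩
  have hle : K⟮x⟯ ≤ (K'⟮x⟯).restrictScalars K := by
    rw [IntermediateField.adjoin_simple_le_iff]
    exact IntermediateField.mem_adjoin_simple_self K' x
  let i : K⟮x⟯ →+* K'⟮x⟯ := (IntermediateField.inclusion hle).toRingHom
  let _ : Algebra K⟮x⟯ K'⟮x⟯ := i.toAlgebra
  have : IsScalarTower K⟮x⟯ K'⟮x⟯ M := IsScalarTower.of_algebraMap_eq fun a => rfl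
  exact Module.Finite.of_restrictScalars_finite K⟮x⟯ K'⟮x⟯ M

/-- degrees over a larger field of constants -/
theorem deg_le_ext {K K' M : Type*} [Field K] [Field K'] [Field M] [Algebra K K'] [Algebra K M] [Algebra K' M]
    [IsScalarTower K K' M] [CharZero K] [Algebra.IsAlgebraic K K'] (hM : IsFun K M) {x : M} {A : ℕ}
    (hx : Module.finrank K⟮x⟯ M ≤ A) : Module.finrank K'⟮x⟯ M ≤ A := by
  by_cases h : Transcendental K x
  · have := hM.alg h
    exact (deg_ext x).trans hx
  · rw [deg_const (isFun_const (K := K) hM) (IsAlgebraic.tower_top K' (not_not.1 h))]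
    exact Nat.zero_le _

/-- the degree of `σ f / f` -/
theorem deg_gg {K F M : Type*} [Field K] [CharZero K] [Field F] [Field M] [Algebra K F] [Algebra K M] [Algebra F M]
    [IsScalarTower K F M] (hM : IsFun K M) (σ : M ≃ₐ[F] M) {f : M} {A : ℕ} (hf : Transcendental K f)
    (hfA : Module.finrank K⟮f⟯ M ≤ A) : Module.finrank K⟮σ f / f⟯ M ≤ 2 * A * A := by
  let τ : M ≃ₐ[K] M := AlgEquiv.restrictScalars K σ
  have h1 : σ f = τ f := rfl
  have h2 : Transcendental K (τ f) := by
    intro h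
    exact hf ((isAlgebraic_algHom_iff (τ : M →ₐ[K] M) τ.injective).1 h)
  rw [h1]
  refine (deg_div hM h2 hf).trans ?_
  rw [deg_aut τ f]
  calc (Module.finrank K⟮f⟯ M + Module.finrank K⟮f⟯ M) * Module.finrank K⟮f⟯ M ≤ (A + A) * A :=
        Nat.mul_le_mul (Nat.add_le_add hfA hfA) hfA
    _ = 2 * A * A := by ring

/-- the main step -/
theorem uniform_rel_core (D m B0 : ℕ) : ∃ B : ℕ, ∀ (K F L M : Type u) [Field K] [CharZero K] [Field F] [Field L]
    [Field M] [Algebra K F] [Algebra K L] [Algebra F L] [Algebra K M] [Algebra F M] [Algebra L M]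
    [IsScalarTower K F L] [IsScalarTower K L M] [IsScalarTower F L M] [IsScalarTower K F M]
    [FiniteDimensional F M] [IsGalois F M] [FiniteDimensional L M], Module.finrank F M ≤ m →
    RB K ((2 * (D * m) * (D * m) + D * m) * m) B0 → IsFun K L →
    (∀ x : L, IsAlgebraic K x → ∃ c : K, algebraMap K L c = x) →
    {z : KQ L 2 ⧸ LinearMap.range (KQ.map 2 (algebraMap F L)) | ∃ (f : Lˣ) (u : Fˣ) (β : KQ L 2),
      β ∈ LinearMap.range (KQ.map 2 (algebraMap F L)) ∧ Module.finrank K⟮(f : L)⟯ L ≤ D ∧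
      Module.finrank K⟮algebraMap F L u⟯ L ≤ D ∧
      (∀ v ∈ VN K L, sy f (up F L u) + β ∈ unitPart v 2) ∧
      z = Submodule.Quotient.mk (sy f (up F L u))}.encard ≤ B := by
  obtain ⟨B1, hB1⟩ := uniform_rb.{u} (2 * (D * m) * (D * m) + D * m) B0
  refine ⟨(B1 + 1) ^ m, ?_⟩
  intro K F L M _ _ _ _ _ _ _ _ _ _ _ _ _ _ _ _ _ _ hm hRB hL hK
  classical
  have hfinG : Fintype (M ≃ₐ[F] M) := Fintype.ofFinite _
  set R := LinearMap.range (KQ.map 2 (algebraMap F L)) with hR
  set RM := LinearMap.range (KQ.map 2 (algebraMap F M)) with hRM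
  have hMc : CharZero M := charZero_of_injective_algebraMap (algebraMap K M).injective
  -- the constants of `M`
  let K' := algebraicClosure K M
  obtain ⟨hK'fin, hK'le⟩ := fin_closure (F := K) (K := M) (n := Module.finrank L M) fun x hx =>
    deg_le_of_closed (K := K) (L := L) hK x hx
  have hLMm : Module.finrank L M ≤ m := by
    have h1 := Module.finrank_mul_finrank F L M
    have hFL : FiniteDimensional F L := FiniteDimensional.left F L M
    have h2 : 0 < Module.finrank F L := Module.finrank_pos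
    calc Module.finrank L M ≤ Module.finrank F L * Module.finrank L M := Nat.le_mul_of_pos_left _ h2
      _ = Module.finrank F M := h1
      _ ≤ m := hm
  have hK'c : CharZero K' := charZero_of_injective_algebraMap (algebraMap K K').injective
  have hK' : ∀ x : M, IsAlgebraic K' x → ∃ c : K', algebraMap K' M c = x := by
    intro x hx
    exact ⟨⟨x, mem_algebraicClosure_iff.2 (hx.restrictScalars K)⟩, rfl⟩
  have hRB' : RB K' (2 * (D * m) * (D * m) + D * m) B0 :=
    rb_fin' (RB.mono hRB (Nat.mul_le_mul_left _ (hK'le.trans hLMm)))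
  have hMf : IsFun K M := isFun_ext hL
  have hM'f : IsFun K' M := isFun_const (K := K) hMf
  set RK := LinearMap.range (KQ.map 2 (algebraMap K' M)) with hRK
  have hcls := hB1 K' M hRB' hM'f hK'
  set Z : Set (KQ M 2 ⧸ RK) := {z | ∃ f g : Mˣ, (Module.finrank K'⟮(f : M)⟯ M ≤ 2 * (D * m) * (D * m) + D * m ∧
      Module.finrank K'⟮(g : M)⟯ M ≤ 2 * (D * m) * (D * m) + D * m ∧ ∀ v ∈ VN K' M, sy f g ∈ unitPart v 2) ∧
      z = Submodule.Quotient.mk (sy f g)} with hZ
  -- the maps
  have hρ0 : R ≤ LinearMap.ker ((RM ⊔ RK).mkQ.comp (KQ.map 2 (algebraMap L M))) := by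
    rintro _ ⟨y, rfl⟩
    rw [LinearMap.mem_ker, LinearMap.comp_apply, Submodule.mkQ_apply, Submodule.Quotient.mk_eq_zero]
    refine Submodule.mem_sup_left ⟨y, ?_⟩
    rw [kmap_map (algebraMap F L) (algebraMap L M) (algebraMap F M)
      (fun x => (IsScalarTower.algebraMap_apply F L M x).symm)]
  let ρ : (KQ L 2 ⧸ R) →ₗ[ℚ] (KQ M 2 ⧸ (RM ⊔ RK)) := R.liftQ _ hρ0
  have hρ : ∀ x, ρ (Submodule.Quotient.mk x) = Submodule.Quotient.mk (KQ.map 2 (algebraMap L M) x) := fun x => rfl
  have hinj : Function.Injective ρ := by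
    rw [injective_iff_map_eq_zero]
    intro z hz
    obtain ⟨δ, rfl⟩ := Submodule.Quotient.mk_surjective _ z
    rw [hρ, Submodule.Quotient.mk_eq_zero] at hz
    obtain ⟨_, ⟨b, rfl⟩, _, ⟨y, rfl⟩, hby⟩ := Submodule.mem_sup.1 hz
    rw [Submodule.Quotient.mk_eq_zero]
    obtain ⟨y0, hy0⟩ := descent2 (K := K) (M := M) hK (δ - KQ.map 2 (algebraMap F L) b) y (by
      rw [map_sub, ← hby, kmap_map (algebraMap F L) (algebraMap L M) (algebraMap F M)
        (fun x => (IsScalarTower.algebraMap_apply F L M x).symm), add_sub_cancel_left])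
    refine ⟨b + KQ.map 2 (algebraMap K F) y0, ?_⟩
    rw [map_add, kmap_map (algebraMap K F) (algebraMap F L) (algebraMap K L)
      (fun x => (IsScalarTower.algebraMap_apply K F L x).symm), hy0, add_sub_cancel]
  let τ : (KQ M 2 ⧸ RK) →ₗ[ℚ] (KQ M 2 ⧸ (RM ⊔ RK)) := RK.mapQ _ LinearMap.id (by
    rw [Submodule.comap_id]
    exact le_sup_right)
  let T : ((M ≃ₐ[F] M) → (KQ M 2 ⧸ RK)) → (KQ M 2 ⧸ (RM ⊔ RK)) := fun c =>
    -(((Fintype.card (M ≃ₐ[F] M) : ℕ) : ℚ)⁻¹ • ∑ σ, τ (c σ))
  have hcard : ((Fintype.card (M ≃ₐ[F] M) : ℕ) : ℚ) ≠ 0 := by exact_mod_cast Fintype.card_ne_zero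
  have hpi := encard_pi_le (ι := M ≃ₐ[F] M) (X := fun _ => (KQ M 2 ⧸ RK)) (fun _ => Z) (B1 + 1)
    (fun _ => hcls.trans (by exact_mod_cast Nat.le_succ B1))
  rw [← hinj.encard_image]
  refine (Set.encard_le_encard (t := T '' Set.pi Set.univ fun _ => Z) ?_).trans
    ((Set.encard_image_le _ _).trans (hpi.trans ?_))
  swap
  · refine Nat.cast_le.2 (Nat.pow_le_pow_right (by omega) ?_)
    rw [IsGalois.card_aut_eq_finrank]
    exact hm
  rintro _ ⟨z, ⟨f, u, β, hβ, hf, hu, hun, rfl⟩, rfl⟩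
  have hUU : u ∈ (UU K M f : Subgroup Fˣ) := by
    refine mem_UU (k := K) (M := M) f 1 one_ne_zero u β hβ ?_
    rw [one_smul, Submodule.mem_iInf]
    intro v
    rw [Submodule.mem_iInf]
    exact hun v
  refine ⟨fun σ => Submodule.Quotient.mk (sy (gg (up L M f) σ) (up F M u)), ?_, ?_⟩
  · intro σ _
    refine ⟨gg (up L M f) σ, up F M u, ⟨?_, ?_, fun v hv => hUU σ v ⟨hv.1, fun x hx => ?_⟩⟩, rfl⟩
    · have h1 : ((gg (up L M f) σ : Mˣ) : M) = σ (algebraMap L M (f : L)) / algebraMap L M (f : L) := by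
        rw [gg, Units.val_mul, Units.val_inv_eq_inv_val, Units.coe_map, div_eq_mul_inv]
        rfl
      rw [h1]
      by_cases hft : Transcendental K (f : L)
      · have hft' : Transcendental K (algebraMap L M (f : L)) := fun h =>
          hft ((isAlgebraic_algebraMap_iff (algebraMap L M).injective).1 h)
        have hfd : Module.finrank K⟮algebraMap L M (f : L)⟯ M ≤ D * m := by
          rw [deg_map (K := K) (L := L) (M := M)]
          exact Nat.mul_le_mul hf hLMm
        exact (deg_le_ext (K := K) hMf (deg_gg hMf σ hft' hfd)).trans (by omega)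
      · obtain ⟨c, hc⟩ := hK (f : L) (not_not.1 hft)
        have h2 : σ (algebraMap L M (f : L)) / algebraMap L M (f : L) = 1 := by
          rw [← hc, ← IsScalarTower.algebraMap_apply K L M, IsScalarTower.algebraMap_apply K F M, σ.commutes,
            div_self]
          rw [← IsScalarTower.algebraMap_apply K F M, IsScalarTower.algebraMap_apply K L M, hc]
          exact (map_ne_zero _).2 f.ne_zero
        rw [h2, deg_const hM'f isAlgebraic_one]
        exact Nat.zero_le _
    · have h2 : ((up F M u : Mˣ) : M) = algebraMap L M (algebraMap F L u) :=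
        IsScalarTower.algebraMap_apply F L M (u : F)
      rw [h2]
      refine (deg_le_ext (K := K) hMf (A := D * m) ?_).trans (by omega)
      rw [deg_map (K := K) (L := L) (M := M)]
      exact Nat.mul_le_mul hu hLMm
    · rw [IsScalarTower.algebraMap_apply K K' M]
      exact hv.2 _ ((map_ne_zero _).2 hx)
  · -- the average
    obtain ⟨Nf, hNf⟩ := norm_mem (F := F) (up L M f)
    have hprod : ∏ σ : M ≃ₐ[F] M, gg (up L M f) σ = up F M Nf * ((up L M f) ^ (Fintype.card (M ≃ₐ[F] M)))⁻¹ := by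
      rw [hNf]
      simp only [gg, Finset.prod_mul_distrib, Finset.prod_const, Finset.card_univ, inv_pow]
    have havg : ∑ σ : M ≃ₐ[F] M, sy (gg (up L M f) σ) (up F M u) =
        sy (up F M Nf) (up F M u) - ((Fintype.card (M ≃ₐ[F] M) : ℕ) : ℚ) • sy (up L M f) (up F M u) := by
      rw [← Pool.Agent.Helper79.QP.sy_prod_left, hprod, sy_mul_left, sy_inv_left, sy_pow_left]
      abel
    have hN : sy (up F M Nf) (up F M u) ∈ RM ⊔ RK := by
      refine Submodule.mem_sup_left ⟨sy Nf u, ?_⟩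
      rw [map_sy']
      rfl
    have h1 : KQ.map 2 (algebraMap L M) (sy f (up F L u)) = sy (up L M f) (up F M u) := by
      rw [map_sy']
      congr 1
      apply Units.ext
      exact (IsScalarTower.algebraMap_apply F L M (u : F)).symm
    show T _ = ρ _
    rw [hρ, h1]
    show -(((Fintype.card (M ≃ₐ[F] M) : ℕ) : ℚ)⁻¹ • ∑ σ : M ≃ₐ[F] M,
      (RM ⊔ RK).mkQ (sy (gg (up L M f) σ) (up F M u))) = (RM ⊔ RK).mkQ (sy (up L M f) (up F M u))
    have h3 : ∑ σ : M ≃ₐ[F] M, (RM ⊔ RK).mkQ (sy (gg (up L M f) σ) (up F M u)) =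
        (RM ⊔ RK).mkQ (∑ σ : M ≃ₐ[F] M, sy (gg (up L M f) σ) (up F M u)) := (map_sum _ _ _).symm
    have h4 : (RM ⊔ RK).mkQ (sy (up F M Nf) (up F M u)) = 0 := by
      rw [Submodule.mkQ_apply, Submodule.Quotient.mk_eq_zero]
      exact hN
    rw [h3, havg, map_sub, map_smul, h4, zero_sub, smul_neg, neg_neg, smul_smul, inv_mul_cancel₀ hcard, one_smul]

/-- **uniform boundedness for coverings** -/
theorem uniform_rel (D n e : ℕ) : ∃ B : ℕ, ∀ (K F L : Type u) [Field K] [CharZero K] [Field F] [Field L] [Algebra K F]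
    [Algebra K L] [Algebra F L] [IsScalarTower K F L] [FiniteDimensional F L], Module.finrank F L ≤ e →
    (∀ x : K, IsAlgebraic ℚ x → (minpoly ℚ x).natDegree ≤ n) → IsFun K L →
    (∀ x : L, IsAlgebraic K x → ∃ c : K, algebraMap K L c = x) →
    {z : KQ L 2 ⧸ LinearMap.range (KQ.map 2 (algebraMap F L)) | ∃ (f : Lˣ) (u : Fˣ) (β : KQ L 2),
      β ∈ LinearMap.range (KQ.map 2 (algebraMap F L)) ∧ Module.finrank K⟮(f : L)⟯ L ≤ D ∧
      Module.finrank K⟮algebraMap F L u⟯ L ≤ D ∧
      (∀ v ∈ VN K L, sy f (up F L u) + β ∈ unitPart v 2) ∧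
      z = Submodule.Quotient.mk (sy f (up F L u))}.encard ≤ B := by
  set m := e.factorial with hm
  set D' := (2 * (D * m) * (D * m) + D * m) * m with hD'
  obtain ⟨B, hB⟩ := uniform_rel_core.{u} D m (n * D' * (n * D' + 1)).factorial
  refine ⟨B, ?_⟩
  intro K F L _ _ _ _ _ _ _ _ _ hFe hn hL hK
  have hFc : CharZero F := charZero_of_injective_algebraMap (algebraMap K F).injective
  obtain ⟨M, _, _, _, _, hgal, hfd, hle⟩ := exists_galois (F := F) (L := L)
  let _ : Algebra K M := ((algebraMap L M).comp (algebraMap K L)).toAlgebra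
  have t1 : IsScalarTower K L M := IsScalarTower.of_algebraMap_eq fun x => rfl
  have t2 : IsScalarTower K F M := IsScalarTower.of_algebraMap_eq fun x => by
    rw [IsScalarTower.algebraMap_apply F L M (algebraMap K F x), ← IsScalarTower.algebraMap_apply K F L]
    rfl
  have hLM : FiniteDimensional L M := FiniteDimensional.right F L M
  exact hB K F L M (hle.trans (Nat.factorial_le hFe)) (rb_unif K hn D') hL hK

end Pool.Agent.Helper79.UN
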