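import Pool.Agent.Helper79.UN.AB
import Pool.Agent.Helper79.UN.UX

set_option autoImplicit false

/-!
# Tame symbols of sums of symbols
-/

set_option linter.unusedSectionVars false

namespace Pool.Agent.Helper79.UN

open scoped WithZero
open IntermediateField
open Pool.Agent.Helper79.FE
open Pool.Agent.Helper79.RG
open Pool.Agent.Helper79.QP (up gg)

/-- the tame symbol, as an element of `L` -/
def tm {L : Type*} [Field L] (v : Valuation L ℤᵐ⁰) (f g : L) : L :=
  (-1) ^ (WithZero.log (v f) * WithZero.log (v g)) * f ^ WithZero.log (v g) / g ^ WithZero.log (v f)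

/-- the tame symbol of a sum of symbols of elements of `F` -/
def tmF {F L : Type*} [Field F] [Field L] [Algebra F L] (v : Valuation L ℤᵐ⁰) (l : List (Fˣ × Fˣ)) : L :=
  (l.map fun p => tm v (algebraMap F L p.1) (algebraMap F L p.2)).prod

theorem tm_ne {L : Type*} [Field L] (v : Valuation L ℤᵐ⁰) {f g : L} (hf : f ≠ 0) (hg : g ≠ 0) : tm v f g ≠ 0 :=
  div_ne_zero (mul_ne_zero (zpow_ne_zero _ (neg_ne_zero.2 one_ne_zero)) (zpow_ne_zero _ hf)) (zpow_ne_zero _ hg)

theorem tmF_ne {F L : Type*} [Field F] [Field L] [Algebra F L] (v : Valuation L ℤᵐ⁰) (l : List (Fˣ × Fˣ)) :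
    tmF v l ≠ 0 := by
  induction l with
  | nil => exact one_ne_zero
  | cons p l ih =>
    show (List.map _ (p :: l)).prod ≠ 0
    rw [List.map_cons, List.prod_cons]
    exact mul_ne_zero (tm_ne v ((map_ne_zero _).2 p.1.ne_zero) ((map_ne_zero _).2 p.2.ne_zero)) ih

theorem tm_map {L E : Type*} [Field L] [Field E] [Algebra L E] {v : Valuation L ℤᵐ⁰} {w : Valuation E ℤᵐ⁰} {e : ℕ}
    (hvl : ∀ a : L, a ≠ 0 → WithZero.log (w (algebraMap L E a)) = e * WithZero.log (v a)) {f g : L} (hf : f ≠ 0)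
    (hg : g ≠ 0) : tm w (algebraMap L E f) (algebraMap L E g) = algebraMap L E (tm v f g ^ e) := by
  unfold tm
  rw [hvl f hf, hvl g hg]
  set i := WithZero.log (v f) with hi
  set j := WithZero.log (v g) with hj
  have hsign : ((-1 : L)) ^ ((e : ℤ) * i * (e * j)) = ((-1 : L) ^ (i * j)) ^ (e : ℤ) := by
    rw [← zpow_mul]
    have h2 : (e : ℤ) * i * (e * j) = i * j * e + (e * (e - 1)) * (i * j) := by ring
    obtain ⟨q, hq⟩ := Int.even_mul_pred_self (e : ℤ)
    rw [h2, hq, zpow_add₀ (by norm_num), ← two_mul, mul_assoc 2 q, zpow_mul (-1 : L) 2]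
    norm_num
  have hX2 : (-1 : L) ^ ((e : ℤ) * i * (e * j)) * f ^ ((e : ℤ) * j) / g ^ ((e : ℤ) * i) =
      ((-1) ^ (i * j) * f ^ j / g ^ i) ^ e := by
    rw [hsign, mul_comm (e : ℤ) j, mul_comm (e : ℤ) i, zpow_mul f, zpow_mul g, ← mul_zpow, ← div_zpow,
      zpow_natCast]
  rw [← hX2, map_div₀, map_mul, map_zpow₀, map_zpow₀, map_zpow₀, map_neg, map_one]

theorem tm_triv {L : Type*} [Field L] {w : Valuation L ℤᵐ⁰} {f g : L} (hf : w f = 1) (hg : w g = 1) :
    tm w f g = 1 := by
  unfold tm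
  have h1 : WithZero.log (1 : ℤᵐ⁰) = 0 := by rw [← WithZero.exp_zero, WithZero.log_exp]
  rw [hf, hg, h1, mul_zero, zpow_zero, zpow_zero, zpow_zero, mul_one, div_one]

/-- transfer of the tame symbol of a sum -/
theorem tameF_res {K F L M : Type*} [Field K] [Field F] [Field L] [Field M] [Algebra K L] [Algebra F L] [Algebra L M]
    [Algebra F M] [IsScalarTower F L M] {N : ℕ} {f : L} (hf0 : f ≠ 0) (u : Fˣ) (l : List (Fˣ × Fˣ))
    (h : ∀ v ∈ VN K L, v ((tm v f (algebraMap F L u) * tmF v l) ^ N - 1) < 1) (w : Valuation M ℤᵐ⁰)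
    (hw : ∀ x : K, x ≠ 0 → w (algebraMap L M (algebraMap K L x)) = 1) :
    w ((tm w (algebraMap L M f) (algebraMap F M u) * tmF w l) ^ N - 1) < 1 := by
  have hu0 : ∀ u : Fˣ, algebraMap F L u ≠ 0 := fun u => (map_ne_zero _).2 u.ne_zero
  have hFM : ∀ u : Fˣ, algebraMap F M u = algebraMap L M (algebraMap F L u) := fun u =>
    IsScalarTower.algebraMap_apply F L M _
  by_cases htriv : ∀ a : L, a ≠ 0 → w (algebraMap L M a) = 1
  · have h1 : tmF (L := M) w l = 1 := by
      induction l with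
      | nil => rfl
      | cons p l ih =>
        show (List.map _ (p :: l)).prod = 1
        rw [List.map_cons, List.prod_cons]
        have h2 : tm w (algebraMap F M p.1) (algebraMap F M p.2) = 1 :=
          tm_triv (by rw [hFM]; exact htriv _ (hu0 _)) (by rw [hFM]; exact htriv _ (hu0 _))
        have h3 : tmF (L := M) w l = 1 := by
          clear h ih
          induction l with
          | nil => rfl
          | cons p l ih =>
            show (List.map _ (p :: l)).prod = 1
            rw [List.map_cons, List.prod_cons]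
            have h2 : tm w (algebraMap F M p.1) (algebraMap F M p.2) = 1 :=
              tm_triv (by rw [hFM]; exact htriv _ (hu0 _)) (by rw [hFM]; exact htriv _ (hu0 _))
            rw [h2, one_mul]
            exact ih
        rw [h2, one_mul]
        exact h3
    rw [h1, tm_triv (htriv f hf0) (by rw [hFM]; exact htriv _ (hu0 _)), mul_one, one_pow, sub_self, map_zero]
    exact zero_lt_one
  push Not at htriv
  obtain ⟨v, e, he, hvs, hv1, hvl⟩ := norm_pow (w.comap (algebraMap L M)) htriv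
  have hv : v ∈ VN K L := ⟨hvs, fun x hx => (hv1 _).2 (hw x hx)⟩
  have h1 := h v hv
  have hlt : ∀ a : L, v a < 1 → w (algebraMap L M a) < 1 := fun a ha =>
    lt_of_same (v := v) (w := w.comap (algebraMap L M)) (fun a => (hv1 a).symm) ha
  have hl : ∀ l : List (Fˣ × Fˣ), tmF (L := M) w l = algebraMap L M (tmF v l ^ e) := by
    intro l
    induction l with
    | nil =>
      show (1 : M) = algebraMap L M (1 ^ e)
      rw [one_pow, map_one]
    | cons p l ih =>
      show (List.map _ (p :: l)).prod = algebraMap L M ((List.map _ (p :: l)).prod ^ e)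
      rw [List.map_cons, List.prod_cons, List.map_cons, List.prod_cons, mul_pow, map_mul, hFM, hFM,
        tm_map (v := v) (w := w) hvl (hu0 _) (hu0 _)]
      congr 1
  set X : L := tm v f (algebraMap F L u) * tmF v l with hX
  rw [hFM, tm_map (v := v) (w := w) hvl hf0 (hu0 _), hl, ← map_mul, ← mul_pow, ← hX, ← map_pow,
    ← map_one (algebraMap L M), ← map_sub]
  refine hlt _ ?_
  have hXN : v (X ^ N) ≤ 1 := by
    have : X ^ N = (X ^ N - 1) + 1 := by ring
    rw [this]
    exact (Valuation.map_add v _ _).trans (max_le h1.le (by rw [map_one]))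
  have hfac : (X ^ e) ^ N - 1 = (X ^ N - 1) * ∑ i ∈ Finset.range e, (X ^ N) ^ i := by
    rw [mul_comm, geom_sum_mul, ← pow_mul, ← pow_mul, mul_comm e N]
  rw [hfac, map_mul]
  refine (mul_le_of_le_one_right' ?_).trans_lt h1
  refine Valuation.map_sum_le v fun i _ => ?_
  rw [map_pow]
  exact pow_le_one₀ zero_le hXN

theorem tm_aut {F M : Type*} [Field F] [Field M] [Algebra F M] (σ : M ≃ₐ[F] M) (v : Valuation M ℤᵐ⁰) (f g : M) :
    σ (tm (v.comap (σ : M →+* M)) f g) = tm v (σ f) (σ g) := by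
  unfold tm
  have h1 : ∀ x : M, (v.comap (σ : M →+* M)) x = v (σ x) := fun x => rfl
  rw [h1, h1, map_div₀, map_mul, map_zpow₀, map_zpow₀, map_zpow₀, map_neg, map_one]

/-- the conjugates -/
theorem tame_gal {K F L M : Type*} [Field K] [Field F] [Field L] [Field M] [Algebra K F] [Algebra K L] [Algebra K M]
    [Algebra F L] [Algebra L M]
    [Algebra F M] [IsScalarTower F L M] [IsScalarTower K L M] [IsScalarTower K F M] {N : ℕ} (f : Lˣ) (u : Fˣ)
    (l : List (Fˣ × Fˣ))
    (h : ∀ v ∈ VN K L, v ((tm v (f : L) (algebraMap F L u) * tmF v l) ^ N - 1) < 1) (σ : M ≃ₐ[F] M)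
    (v : Valuation M ℤᵐ⁰) (hv : v ∈ VN K M) : TameTors v N ((gg (up L M f) σ : Mˣ) : M) ((up F M u : Mˣ) : M) := by
  have hA : ∀ w ∈ VN K M, w ((tm w (algebraMap L M f) (algebraMap F M u) * tmF w l) ^ N - 1) < 1 := fun w hw =>
    tameF_res (K := K) f.ne_zero u l h w fun x hx => by
      rw [← IsScalarTower.algebraMap_apply K L M]
      exact hw.2 x hx
  have h1 := hA v hv
  have hv' : v.comap (σ : M →+* M) ∈ VN K M := by
    refine ⟨fun z => ?_, fun x hx => ?_⟩
    · obtain ⟨y, hy⟩ := hv.1 z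
      refine ⟨σ.symm y, ?_⟩
      show v (σ (σ.symm y)) = z
      rw [AlgEquiv.apply_symm_apply, hy]
    · show v (σ (algebraMap K M x)) = 1
      rw [IsScalarTower.algebraMap_apply K F M, σ.commutes, ← IsScalarTower.algebraMap_apply K F M]
      exact hv.2 x hx
  have h2 := hA _ hv'
  have hl : ∀ l : List (Fˣ × Fˣ), σ (tmF (L := M) (v.comap (σ : M →+* M)) l) = tmF v l := by
    intro l
    induction l with
    | nil => exact map_one σ
    | cons p l ih =>
      show σ ((List.map _ (p :: l)).prod) = (List.map _ (p :: l)).prod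
      rw [List.map_cons, List.prod_cons, List.map_cons, List.prod_cons, map_mul, tm_aut, σ.commutes, σ.commutes]
      congr 1
  have h3 : v ((tm v (σ (algebraMap L M f)) (algebraMap F M u) * tmF v l) ^ N - 1) < 1 := by
    have h4 : (v.comap (σ : M →+* M)) ((tm (v.comap (σ : M →+* M)) (algebraMap L M f) (algebraMap F M u) *
        tmF (v.comap (σ : M →+* M)) l) ^ N - 1) = v (σ ((tm (v.comap (σ : M →+* M)) (algebraMap L M f)
          (algebraMap F M u) * tmF (v.comap (σ : M →+* M)) l) ^ N - 1)) := rfl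
    rw [h4, map_sub, map_one, map_pow, map_mul, tm_aut, σ.commutes, hl] at h2
    exact h2
  -- the quotient
  have hf0 : algebraMap L M (f : L) ≠ 0 := (map_ne_zero _).2 f.ne_zero
  have hσ0 : σ (algebraMap L M (f : L)) ≠ 0 := (map_ne_zero _).2 hf0
  have hu0 : algebraMap F M (u : F) ≠ 0 := (map_ne_zero _).2 u.ne_zero
  set X := tm v (σ (algebraMap L M f)) (algebraMap F M u) * tmF v l with hX
  set Y := tm v (algebraMap L M f) (algebraMap F M u) * tmF v l with hY
  have hY0 : Y ≠ 0 := mul_ne_zero (tm_ne v hf0 hu0) (tmF_ne v l)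
  have hYN : v (Y ^ N) = 1 := by
    have h5 : Y ^ N = 1 + (Y ^ N - 1) := by ring
    rw [h5]
    exact Valuation.map_one_add_of_lt v h1
  have hgg : ((gg (up L M f) σ : Mˣ) : M) = σ (algebraMap L M (f : L)) / algebraMap L M (f : L) := by
    rw [gg, Units.val_mul, Units.val_inv_eq_inv_val, Units.coe_map, div_eq_mul_inv]
    rfl
  have hup : ((up F M u : Mˣ) : M) = algebraMap F M u := rfl
  have hquot : tm v (σ (algebraMap L M (f : L)) / algebraMap L M (f : L)) (algebraMap F M u) = X / Y := by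
    have h6 : X / Y = tm v (σ (algebraMap L M f)) (algebraMap F M u) / tm v (algebraMap L M f) (algebraMap F M u) := by
      rw [hX, hY]
      exact mul_div_mul_right _ _ (tmF_ne v l)
    rw [h6]
    have hvf : v (algebraMap L M (f : L)) ≠ 0 := (Valuation.ne_zero_iff v).2 hf0
    have hvs : v (σ (algebraMap L M (f : L))) ≠ 0 := (Valuation.ne_zero_iff v).2 hσ0
    unfold tm
    rw [map_div₀, WithZero.log_div hvs hvf]
    set a := WithZero.log (v (σ (algebraMap L M (f : L))))
    set b := WithZero.log (v (algebraMap L M (f : L)))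
    set c := WithZero.log (v (algebraMap F M (u : F)))
    have hm1 : (-1 : M) ≠ 0 := neg_ne_zero.2 one_ne_zero
    rw [sub_mul, zpow_sub₀ hm1, div_zpow, zpow_sub₀ hu0]
    have g1 : (-1 : M) ^ (b * c) ≠ 0 := zpow_ne_zero _ hm1
    have g2 : (algebraMap L M (f : L)) ^ c ≠ 0 := zpow_ne_zero _ hf0
    have g3 : (algebraMap F M (u : F)) ^ a ≠ 0 := zpow_ne_zero _ hu0
    have g4 : (algebraMap F M (u : F)) ^ b ≠ 0 := zpow_ne_zero _ hu0
    field_simp
  unfold TameTors
  show v ((tm v ((gg (up L M f) σ : Mˣ) : M) ((up F M u : Mˣ) : M)) ^ N - 1) < 1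
  rw [hgg, hup, hquot, div_pow]
  have h7 : X ^ N / Y ^ N - 1 = (X ^ N - 1 - (Y ^ N - 1)) / Y ^ N := by
    field_simp
    ring
  rw [h7, map_div₀, hYN, div_one]
  exact (Valuation.map_sub v _ _).trans_lt (max_lt h3 h1)

end Pool.Agent.Helper79.UN
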