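import Pool.Agent.Helper79.UN.UL

set_option autoImplicit false

/-!
# Module UC: ultraproducts of algebraically closed fields
-/

set_option linter.unusedSectionVars false

universe u

namespace Pool.Agent.Helper79.UN

open Filter

theorem ult_closed {U : Ultrafilter ℕ} {k : ℕ → Type u} [∀ i, Field (k i)] {K : Type u} [Field K]
    {π : ((i : ℕ) → k i) →+* K} (h : IsUlt U k K π) (hc : ∀ i, IsAlgClosed (k i)) : IsAlgClosed K := by
  refine IsAlgClosed.of_exists_root _ fun p hp hirr => ?_
  choose s hs using fun i : ℕ => h.surj (p.coeff i)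
  have hd : p.natDegree ≠ 0 := hirr.natDegree_pos.ne'
  let P : (n : ℕ) → Polynomial (k n) := fun n =>
    ∑ i ∈ Finset.range (p.natDegree + 1), Polynomial.C (s i n) * Polynomial.X ^ i
  have hPc : ∀ n, (P n).coeff p.natDegree = s p.natDegree n := by
    intro n
    simp only [P, Polynomial.finsetSum_coeff, Polynomial.coeff_C_mul, Polynomial.coeff_X_pow]
    rw [Finset.sum_eq_single p.natDegree]
    · simp
    · intro b _ hb
      rw [if_neg (Ne.symm hb), mul_zero]
    · intro h
      exact absurd (Finset.mem_range.2 (Nat.lt_succ_self _)) h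
  have hroot : ∀ n, ∃ r : k n, s p.natDegree n = 1 → (P n).eval r = 0 := by
    intro n
    by_cases h : s p.natDegree n = 1
    · have h1 : (P n).degree ≠ 0 := by
        intro h2
        have h3 := Polynomial.natDegree_eq_of_degree_eq_some h2
        have h4 : (P n).coeff p.natDegree = 0 := Polynomial.coeff_eq_zero_of_natDegree_lt (by
          rw [h3]; exact Nat.pos_of_ne_zero hd)
        rw [hPc, h] at h4
        exact one_ne_zero h4
      have := hc n
      obtain ⟨r, hr⟩ := IsAlgClosed.exists_root (P n) h1
      exact ⟨r, fun _ => hr⟩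
    · exact ⟨0, fun h' => absurd h' h⟩
  choose r hr using hroot
  refine ⟨π r, ?_⟩
  rw [Polynomial.eval_eq_sum_range]
  have h1 : ∑ i ∈ Finset.range (p.natDegree + 1), p.coeff i * (π r) ^ i = π (fun n => (P n).eval (r n)) := by
    have h2 : (fun n => (P n).eval (r n)) = ∑ i ∈ Finset.range (p.natDegree + 1), s i * r ^ i := by
      funext n
      simp only [P, Polynomial.eval_finsetSum, Polynomial.eval_mul, Polynomial.eval_C, Polynomial.eval_pow,
        Polynomial.eval_X, Finset.sum_apply, Pi.mul_apply, Pi.pow_apply]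
    rw [h2, map_sum]
    refine Finset.sum_congr rfl fun i _ => ?_
    rw [map_mul, map_pow, hs]
  rw [h1]
  have h4 : π (s p.natDegree) = π 1 := by
    rw [hs, map_one]
    exact hp
  rw [h.eq_iff] at h4
  rw [h.eq_zero]
  filter_upwards [h4] with n hn
  exact hr n hn

theorem ult_char0 {U : Ultrafilter ℕ} {k : ℕ → Type u} [∀ i, Field (k i)] {K : Type u} [Field K]
    {π : ((i : ℕ) → k i) →+* K} (h : IsUlt U k K π) (hc : ∀ i, CharZero (k i)) : CharZero K := by
  refine charZero_of_inj_zero fun n hn => ?_
  have h1 : π (n : (i : ℕ) → k i) = 0 := by rw [map_natCast, hn]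
  rw [h.eq_zero] at h1
  obtain ⟨i, hi⟩ := h1.exists
  have := hc i
  have h2 : ((n : ℕ) : k i) = 0 := hi
  exact_mod_cast h2

end Pool.Agent.Helper79.UN
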