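import Pool.Agent.Helper79.UN.UR

set_option autoImplicit false

/-!
# The relative algebraic closure of one element of an ultraproduct of function fields
-/

set_option linter.unusedSectionVars false

universe u

namespace Pool.Agent.Helper79.UN

open Filter
open IntermediateField
open Pool.Agent.Helper79.RG

theorem Rel.mono {k L : Type*} [Field k] [Field L] [Algebra k L] {a b b' : ℕ} {x z : L} (h : Rel k a b x z)
    (hb : b ≤ b') : Rel k a b' x z := by
  obtain ⟨c, ⟨i0, j0, hij⟩, hs⟩ := h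
  refine ⟨fun i j => if h : (j : ℕ) < b + 1 then c i ⟨j, h⟩ else 0, ⟨i0, Fin.castLE (by omega) j0, ?_⟩, ?_⟩
  · show (if h : ((Fin.castLE (by omega) j0 : Fin (b' + 1)) : ℕ) < b + 1 then c i0 ⟨_, h⟩ else 0) ≠ 0
    rw [dif_pos (by simpa using j0.2)]
    exact hij
  · rw [← hs]
    refine Finset.sum_congr rfl fun i _ => ?_
    have h1 : ∀ F : ℕ → L, (∀ j, b + 1 ≤ j → F j = 0) → ∑ j : Fin (b' + 1), F j = ∑ j : Fin (b + 1), F j := by
      intro F hF
      rw [← Finset.sum_range, ← Finset.sum_range]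
      symm
      refine Finset.sum_subset (fun j hj => ?_) fun j hj hj2 => ?_
      · rw [Finset.mem_range] at hj ⊢
        omega
      · rw [Finset.mem_range] at hj2
        exact hF j (by omega)
    have h2 := h1 (fun j => algebraMap k L (if h : j < b + 1 then c i ⟨j, h⟩ else 0) * x ^ (i : ℕ) * z ^ j) (by
      intro j hj
      show algebraMap k L (if h : j < b + 1 then c i ⟨j, h⟩ else 0) * x ^ (i : ℕ) * z ^ j = 0
      rw [dif_neg (by omega), map_zero, zero_mul, zero_mul])
    rw [h2]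
    refine Finset.sum_congr rfl fun j _ => ?_
    rw [dif_pos j.2]

theorem Rel.map {k L L' : Type*} [Field k] [Field L] [Field L'] [Algebra k L] [Algebra k L'] {a b : ℕ} {x z : L}
    (φ : L →ₐ[k] L') : Rel k a b (φ x) (φ z) ↔ Rel k a b x z := by
  unfold Rel
  refine exists_congr fun c => and_congr_right fun _ => ?_
  rw [← map_eq_zero_iff φ (φ : L →+* L').injective, map_sum]
  simp only [map_sum, map_mul, map_pow, AlgHom.commutes]

/-- a field all of whose elements satisfy a relation of degree `D` over `t` -/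
theorem clo_fin {K M : Type*} [Field K] [CharZero K] [Field M] [Algebra K M] {t : M} (ht : Transcendental K t) {D : ℕ}
    (hD : ∀ z : M, ∃ a, Rel K a D t z) : FiniteDimensional K⟮t⟯ M ∧ Module.finrank K⟮t⟯ M ≤ D := by
  have h0 : ∀ z : M, IsAlgebraic K⟮t⟯ z ∧ (minpoly K⟮t⟯ z).natDegree ≤ D := fun z => by
    obtain ⟨a, ha⟩ := hD z
    exact ha.alg ht
  have halg : Algebra.IsAlgebraic K⟮t⟯ M := ⟨fun z => (h0 z).1⟩
  have hc : CharZero K⟮t⟯ := charZero_of_injective_algebraMap (algebraMap K K⟮t⟯).injective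
  have hfd : FiniteDimensional K⟮t⟯ M := by
    by_contra hnfd
    obtain ⟨E, hE, hlt⟩ := IntermediateField.exists_lt_finrank_of_infinite_dimensional hnfd D
    obtain ⟨α, hα⟩ := Field.exists_primitive_element K⟮t⟯ E
    have h1 : Module.finrank K⟮t⟯ E = (minpoly K⟮t⟯ α).natDegree := by
      rw [← IntermediateField.adjoin.finrank (Algebra.IsIntegral.isIntegral α), hα, IntermediateField.finrank_top']
    have h2 : minpoly K⟮t⟯ (α : M) = minpoly K⟮t⟯ α :=
      (minpoly.algebraMap_eq (algebraMap E M).injective (α : E))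
    have h3 := (h0 (α : M)).2
    rw [h2, ← h1] at h3
    omega
  refine ⟨hfd, ?_⟩
  obtain ⟨α, hα⟩ := Field.exists_primitive_element K⟮t⟯ M
  have h1 : Module.finrank K⟮t⟯ M = (minpoly K⟮t⟯ α).natDegree := by
    rw [← IntermediateField.adjoin.finrank (Algebra.IsIntegral.isIntegral α), hα, IntermediateField.finrank_top']
  rw [h1]
  exact (h0 α).2

section ult

variable {U : Ultrafilter ℕ} {k L : ℕ → Type u} [∀ i, Field (k i)] [∀ i, Field (L i)] [∀ i, Algebra (k i) (L i)]
  {K E : Type u} [Field K] [Field E] [Algebra K E] {πk : ((i : ℕ) → k i) →+* K} {πL : ((i : ℕ) → L i) →+* E}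

/-- elements algebraic over `K(X)` have bounded degree -/
theorem ult_bd (hk : IsUlt U k K πk) (hL : IsUlt U L E πL)
    (hc : ∀ a : (i : ℕ) → k i, algebraMap K E (πk a) = πL fun i => algebraMap (k i) (L i) (a i)) {D : ℕ}
    {x : (n : ℕ) → L n} (hx : ∀ᶠ n in (U : Filter ℕ), Transcendental (k n) (x n) ∧
      FiniteDimensional (k n)⟮x n⟯ (L n) ∧ Module.finrank (k n)⟮x n⟯ (L n) ≤ D) {Z : E}
    (hz : IsAlgebraic K⟮πL x⟯ Z) : ∃ a, Rel K a D (πL x) Z := by
  obtain ⟨z, rfl⟩ := hL.surj Z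
  obtain ⟨a, b, h⟩ := rel_of_alg hz
  refine ⟨a, ult_rel hk hL hc ?_⟩
  filter_upwards [hx, rel_ult hk hL hc h] with n hn1 hn2
  have := hn1.2.1
  exact (rel_reduce hn1.1 hn2).mono hn1.2.2

/-- two elements of bounded degree satisfy a relation -/
theorem ult_pair (hk : IsUlt U k K πk) (hL : IsUlt U L E πL)
    (hc : ∀ a : (i : ℕ) → k i, algebraMap K E (πk a) = πL fun i => algebraMap (k i) (L i) (a i)) {D : ℕ}
    {x y : (n : ℕ) → L n} (hx : ∀ᶠ n in (U : Filter ℕ), Transcendental (k n) (x n) ∧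
      FiniteDimensional (k n)⟮x n⟯ (L n) ∧ Module.finrank (k n)⟮x n⟯ (L n) ≤ D)
    (hy : ∀ᶠ n in (U : Filter ℕ), Transcendental (k n) (y n) ∧
      FiniteDimensional (k n)⟮y n⟯ (L n) ∧ Module.finrank (k n)⟮y n⟯ (L n) ≤ D) :
    IsAlgebraic K⟮πL x⟯ (πL y) := by
  have hX : Transcendental K (πL x) := ult_trans hk hL hc (hx.mono fun n hn => hn.1)
  have h : Rel K D D (πL x) (πL y) := by
    refine ult_rel hk hL hc ?_
    filter_upwards [hx, hy] with n hn1 hn2
    have := hn1.2.1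
    have := hn2.2.1
    exact ((((rel_deg hn1.1 hn2.1).mono hn1.2.2).swap).mono hn2.2.2).swap
  exact (h.alg hX).1

/-- **the function field of one element of an ultraproduct of function fields** -/
theorem exists_clo (hk : IsUlt U k K πk) (hL : IsUlt U L E πL) [CharZero K]
    (hc : ∀ a : (i : ℕ) → k i, algebraMap K E (πk a) = πL fun i => algebraMap (k i) (L i) (a i)) {D : ℕ}
    {x : (n : ℕ) → L n} (hx : ∀ᶠ n in (U : Filter ℕ), Transcendental (k n) (x n) ∧
      FiniteDimensional (k n)⟮x n⟯ (L n) ∧ Module.finrank (k n)⟮x n⟯ (L n) ≤ D) :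
    ∃ M : IntermediateField K E, IsFun K M ∧ (∀ Z : E, Z ∈ M ↔ IsAlgebraic K⟮πL x⟯ Z) ∧
      ∀ y : (n : ℕ) → L n, (∀ᶠ n in (U : Filter ℕ), Transcendental (k n) (y n) ∧
        FiniteDimensional (k n)⟮y n⟯ (L n) ∧ Module.finrank (k n)⟮y n⟯ (L n) ≤ D) →
        ∃ Y : M, (Y : E) = πL y ∧ Transcendental K Y ∧ Module.finrank K⟮Y⟯ M ≤ D := by
  have hX : Transcendental K (πL x) := ult_trans hk hL hc (hx.mono fun n hn => hn.1)
  let M : IntermediateField K E := (algebraicClosure K⟮πL x⟯ E).restrictScalars K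
  have hM : ∀ Z : E, Z ∈ M ↔ IsAlgebraic K⟮πL x⟯ Z := fun Z => by
    rw [IntermediateField.mem_restrictScalars, mem_algebraicClosure_iff]
  -- the main step
  have key : ∀ y : (n : ℕ) → L n, (∀ᶠ n in (U : Filter ℕ), Transcendental (k n) (y n) ∧
        FiniteDimensional (k n)⟮y n⟯ (L n) ∧ Module.finrank (k n)⟮y n⟯ (L n) ≤ D) →
        ∃ Y : M, (Y : E) = πL y ∧ Transcendental K Y ∧ FiniteDimensional K⟮Y⟯ M ∧ Module.finrank K⟮Y⟯ M ≤ D := by
    intro y hy
    have hYt : Transcendental K (πL y) := ult_trans hk hL hc (hy.mono fun n hn => hn.1)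
    have hYM : πL y ∈ M := (hM _).2 (ult_pair hk hL hc hx hy)
    have hXY : IsAlgebraic K⟮πL y⟯ (πL x) := ult_pair hk hL hc hy hx
    have hle : ∀ Z : E, Z ∈ M → IsAlgebraic K⟮πL y⟯ Z := by
      intro Z hZ
      have h1 := (hM Z).1 hZ
      -- `Z` is algebraic over the algebraic closure of `K(Y)`
      let A := algebraicClosure K⟮πL y⟯ E
      have hXA : πL x ∈ A := mem_algebraicClosure_iff.2 hXY
      have hle : K⟮πL x⟯ ≤ A.restrictScalars K := by
        rw [IntermediateField.adjoin_simple_le_iff]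
        exact hXA
      have h2 : IsAlgebraic A Z :=
        alg_transfer (F1 := K⟮πL x⟯) (F2 := A) (E1 := E) (E2 := E) (IntermediateField.inclusion hle).toRingHom
          (RingHom.id E) (fun a => rfl) h1
      have h3 : Algebra.IsAlgebraic K⟮πL y⟯ A := inferInstance
      exact IsAlgebraic.restrictScalars K⟮πL y⟯ h2
    let Y : M := ⟨πL y, hYM⟩
    have hY : Transcendental K Y := by
      intro h
      exact hYt (h.algebraMap (A := E))
    refine ⟨Y, rfl, hY, clo_fin hY fun z => ?_⟩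
    obtain ⟨a, ha⟩ := ult_bd hk hL hc hy (hle z z.2)
    exact ⟨a, (Rel.map (x := Y) (z := z) M.val).1 ha⟩
  obtain ⟨X', hX1, hX2, hX3, hX4⟩ := key x hx
  refine ⟨M, ⟨X', hX2, hX3⟩, hM, fun y hy => ?_⟩
  obtain ⟨Y, h1, h2, -, h3⟩ := key y hy
  exact ⟨Y, h1, h2, h3⟩

end ult

end Pool.Agent.Helper79.UN
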