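import Pool.Agent.Helper79.UN.UU
import Pool.Agent.Helper79.UN.NG
import Pool.Agent.Helper79.UN.NP

set_option autoImplicit false

/-!
# The genus of the field generated by two elements of an ultraproduct
-/

set_option linter.unusedSectionVars false

universe u

namespace Pool.Agent.Helper79.UN

open scoped WithZero
open Filter
open IntermediateField
open Pool.Agent.Helper79.FE (VN)
open Pool.Agent.Helper79.RG

/-- a field generated by two elements -/
theorem gen_pair {k L : Type*} [Field k] [Field L] [Algebra k L] (u v : L) (u' v' m : IntermediateField.adjoin k {u, v})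
    (hu : (u' : L) = u) (hv : (v' : L) = v) :
    m ∈ IntermediateField.adjoin k ({u', v'} : Set (IntermediateField.adjoin k {u, v})) := by
  have h1 := IntermediateField.adjoin_map k ({u', v'} : Set (IntermediateField.adjoin k {u, v}))
    (IntermediateField.adjoin k {u, v}).val
  have h2 : (IntermediateField.adjoin k {u, v}).val '' ({u', v'} : Set (IntermediateField.adjoin k {u, v})) = {u, v} := by
    rw [Set.image_pair]
    show ({(u' : L), (v' : L)} : Set L) = _
    rw [hu, hv]
  rw [h2] at h1
  have h3 : (m : L) ∈ (IntermediateField.adjoin k ({u', v'} : Set (IntermediateField.adjoin k {u, v}))).map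
      (IntermediateField.adjoin k {u, v}).val := by
    rw [h1]
    exact m.2
  obtain ⟨m', hm', h4⟩ := h3
  have h5 : m' = m := Subtype.ext h4
  rw [← h5]
  exact hm'

section ult

variable {U : Ultrafilter ℕ} {k L : ℕ → Type u} [∀ i, Field (k i)] [∀ i, Field (L i)] [∀ i, Algebra (k i) (L i)]
  {K E : Type u} [Field K] [Field E] [Algebra K E] {πk : ((i : ℕ) → k i) →+* K} {πL : ((i : ℕ) → L i) →+* E}

/-- Los for generated subfields -/
theorem adj_ult (hk : IsUlt U k K πk) (hL : IsUlt U L E πL)
    (hc : ∀ a : (i : ℕ) → k i, algebraMap K E (πk a) = πL fun i => algebraMap (k i) (L i) (a i))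
    (u v : (n : ℕ) → L n) (y : (n : ℕ) → L n) (hy : πL y ∈ IntermediateField.adjoin K {πL u, πL v}) :
    ∀ᶠ n in (U : Filter ℕ), y n ∈ IntermediateField.adjoin (k n) {u n, v n} := by
  have key : ∀ Y ∈ IntermediateField.adjoin K {πL u, πL v}, ∃ y : (n : ℕ) → L n, πL y = Y ∧
      ∀ᶠ n in (U : Filter ℕ), y n ∈ IntermediateField.adjoin (k n) {u n, v n} := by
    intro Y hY
    induction hY using IntermediateField.adjoin_induction with
    | mem y hy =>
      rcases hy with rfl | hy
      · exact ⟨u, rfl, Filter.Eventually.of_forall fun n => IntermediateField.subset_adjoin _ _ (Or.inl rfl)⟩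
      · rw [Set.mem_singleton_iff] at hy
        exact ⟨v, hy.symm, Filter.Eventually.of_forall fun n => IntermediateField.subset_adjoin _ _ (Or.inr rfl)⟩
    | algebraMap c =>
      obtain ⟨a, rfl⟩ := hk.surj c
      exact ⟨fun n => algebraMap (k n) (L n) (a n), (hc a).symm,
        Filter.Eventually.of_forall fun n => IntermediateField.algebraMap_mem _ _⟩
    | add x y _ _ hx hy =>
      obtain ⟨x', rfl, hx'⟩ := hx
      obtain ⟨y', rfl, hy'⟩ := hy
      refine ⟨x' + y', map_add _ _ _, ?_⟩
      filter_upwards [hx', hy'] with n h1 h2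
      exact add_mem h1 h2
    | mul x y _ _ hx hy =>
      obtain ⟨x', rfl, hx'⟩ := hx
      obtain ⟨y', rfl, hy'⟩ := hy
      refine ⟨x' * y', map_mul _ _ _, ?_⟩
      filter_upwards [hx', hy'] with n h1 h2
      exact mul_mem h1 h2
    | inv x _ hx =>
      obtain ⟨x', rfl, hx'⟩ := hx
      refine ⟨fun n => (x' n)⁻¹, ult_inv hL x', ?_⟩
      filter_upwards [hx'] with n h1
      exact inv_mem h1
  obtain ⟨y', h1, h2⟩ := key _ hy
  rw [hL.eq_iff] at h1
  filter_upwards [h1, h2] with n h3 h4
  rw [← h3]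
  exact h4

/-- the contradiction for one index -/
theorem genus_step {k L : Type*} [Field k] [IsAlgClosed k] [CharZero k] [Field L] [Algebra k L] (hL : IsFun k L)
    {f g u v : L} (hf : Transcendental k f) (h : TwoReg k (IntermediateField.adjoin k {f, g}))
    (hu : Transcendental k u) (hfu : f ∈ IntermediateField.adjoin k {u, v})
    (hgu : g ∈ IntermediateField.adjoin k {u, v}) : TwoReg k (IntermediateField.adjoin k {u, v}) := by
  have hle : IntermediateField.adjoin k {f, g} ≤ IntermediateField.adjoin k {u, v} := by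
    rw [IntermediateField.adjoin_le_iff]
    rintro x (rfl | hx)
    · exact hfu
    · rw [Set.mem_singleton_iff] at hx
      rw [hx]
      exact hgu
  let _ : Algebra (IntermediateField.adjoin k {f, g}) (IntermediateField.adjoin k {u, v}) :=
    (IntermediateField.inclusion hle).toRingHom.toAlgebra
  have : IsScalarTower k (IntermediateField.adjoin k {f, g}) (IntermediateField.adjoin k {u, v}) :=
    IsScalarTower.of_algebraMap_eq fun x => rfl
  have hfF : f ∈ IntermediateField.adjoin k {f, g} := IntermediateField.subset_adjoin _ _ (Or.inl rfl)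
  have huF : u ∈ IntermediateField.adjoin k {u, v} := IntermediateField.subset_adjoin _ _ (Or.inl rfl)
  have h1 : IsFun k (IntermediateField.adjoin k {f, g}) := isFun_pair hL ⟨f, hfF⟩ fun h0 => hf (h0.algebraMap (A := L))
  have h2 : IsFun k (IntermediateField.adjoin k {u, v}) := isFun_pair hL ⟨u, huF⟩ fun h0 => hu (h0.algebraMap (A := L))
  exact pull_twoReg h1 h2 h

/-- **the genus in an ultraproduct** -/
theorem genus_ult (hk : IsUlt U k K πk) (hL : IsUlt U L E πL) [IsAlgClosed K] [CharZero K]
    (hc : ∀ a : (i : ℕ) → k i, algebraMap K E (πk a) = πL fun i => algebraMap (k i) (L i) (a i))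
    (hcl : ∀ n, IsAlgClosed (k n)) (hch : ∀ n, CharZero (k n)) (hLf : ∀ n, IsFun (k n) (L n))
    {M : IntermediateField K E} (hM : IsFun K M) {f g : (n : ℕ) → L n} {F G : M} (hF : (F : E) = πL f)
    (hG : (G : E) = πL g) (hFt : Transcendental K F)
    (h : ∀ᶠ n in (U : Filter ℕ), TwoReg (k n) (IntermediateField.adjoin (k n) {f n, g n})) :
    TwoReg K (IntermediateField.adjoin K {F, G}) := by
  by_contra hcon
  have hFm : F ∈ IntermediateField.adjoin K {F, G} := IntermediateField.subset_adjoin _ _ (Or.inl rfl)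
  have hGm : G ∈ IntermediateField.adjoin K {F, G} := IntermediateField.subset_adjoin _ _ (Or.inr rfl)
  have hM1 : IsFun K (IntermediateField.adjoin K {F, G}) := isFun_pair hM ⟨F, hFm⟩ fun h0 => hFt (h0.algebraMap (A := M))
  have hft : ∀ᶠ n in (U : Filter ℕ), Transcendental (k n) (f n) := by
    refine trans_ult hL hc hcl ?_
    rw [← hF]
    exact fun h0 => hFt ((isAlgebraic_algebraMap_iff (algebraMap M E).injective).1 h0)
  -- the field `K(u, v)` in `E`
  have hpush : ∀ (u v : IntermediateField.adjoin K {F, G}) (Y : M),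
      (∀ m : IntermediateField.adjoin K {F, G}, m ∈ IntermediateField.adjoin K ({u, v} : Set _)) →
      Y ∈ IntermediateField.adjoin K {F, G} → (Y : E) ∈ IntermediateField.adjoin K {((u : M) : E), ((v : M) : E)} := by
    intro u v Y hg hY
    have h1 := hg ⟨Y, hY⟩
    have h2 := IntermediateField.adjoin_map K ({u, v} : Set (IntermediateField.adjoin K {F, G}))
      (M.val.comp (IntermediateField.adjoin K {F, G}).val)
    rw [Set.image_pair] at h2
    have h3 : (Y : E) ∈ (IntermediateField.adjoin K ({u, v} : Set (IntermediateField.adjoin K {F, G}))).map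
        (M.val.comp (IntermediateField.adjoin K {F, G}).val) := ⟨_, h1, rfl⟩
    rw [h2] at h3
    exact h3
  have huE : ∀ u : IntermediateField.adjoin K {F, G}, Transcendental K u → Transcendental K ((u : M) : E) := by
    intro u hu h0
    exact hu ((isAlgebraic_algebraMap_iff (algebraMap (IntermediateField.adjoin K {F, G}) M).injective).1
      ((isAlgebraic_algebraMap_iff (algebraMap M E).injective).1 h0))
  rcases genus_le_one hM1 hcon with ⟨u, hu, hgen⟩ | ⟨u, v, p, q, hu, heq, hd, hgen⟩
  · obtain ⟨u', hu'⟩ := hL.surj ((u : M) : E)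
    have hgen' : ∀ m : IntermediateField.adjoin K {F, G}, m ∈ IntermediateField.adjoin K ({u, u} : Set _) := by
      intro m
      rw [Set.pair_eq_singleton]
      exact hgen m
    have h1 := hpush u u F hgen' hFm
    have h2 := hpush u u G hgen' hGm
    rw [← hu', hF] at h1
    rw [← hu', hG] at h2
    have h3 := adj_ult hk hL hc u' u' f h1
    have h4 := adj_ult hk hL hc u' u' g h2
    have h5 : ∀ᶠ n in (U : Filter ℕ), Transcendental (k n) (u' n) := trans_ult hL hc hcl (by
      rw [hu']
      exact huE u hu)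
    obtain ⟨n, h6, h7, h8, h9, h10⟩ := (h3.and (h4.and (h5.and (hft.and h)))).exists
    have := hcl n
    have := hch n
    have h11 := genus_step (hLf n) h9 h10 h8 h6 h7
    have huF : u' n ∈ IntermediateField.adjoin (k n) {u' n, u' n} := IntermediateField.subset_adjoin _ _ (Or.inl rfl)
    refine not_twoReg_rat (k := k n) (u := (⟨u' n, huF⟩ : IntermediateField.adjoin (k n) {u' n, u' n}))
      (fun h0 => h8 (h0.algebraMap (A := L n))) (fun m => ?_) h11
    have h12 := gen_pair (u' n) (u' n) ⟨u' n, huF⟩ ⟨u' n, huF⟩ m rfl rfl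
    rw [Set.pair_eq_singleton (⟨u' n, huF⟩ : IntermediateField.adjoin (k n) {u' n, u' n})] at h12
    exact h12
  · obtain ⟨u', hu'⟩ := hL.surj ((u : M) : E)
    obtain ⟨v', hv'⟩ := hL.surj ((v : M) : E)
    obtain ⟨p', hp'⟩ := hk.surj p
    obtain ⟨q', hq'⟩ := hk.surj q
    have h1 := hpush u v F hgen hFm
    have h2 := hpush u v G hgen hGm
    rw [← hu', ← hv', hF] at h1
    rw [← hu', ← hv', hG] at h2
    have h3 := adj_ult hk hL hc u' v' f h1
    have h4 := adj_ult hk hL hc u' v' g h2
    have h5 : ∀ᶠ n in (U : Filter ℕ), Transcendental (k n) (u' n) := trans_ult hL hc hcl (by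
      rw [hu']
      exact huE u hu)
    have he : ∀ᶠ n in (U : Filter ℕ), (v' n) ^ 2 = (u' n) ^ 3 + algebraMap (k n) (L n) (p' n) * u' n +
        algebraMap (k n) (L n) (q' n) := by
      have e1 : ((v : M) : E) ^ 2 = ((u : M) : E) ^ 3 + algebraMap K E p * ((u : M) : E) + algebraMap K E q := by
        have e2 := congrArg (fun x : IntermediateField.adjoin K {F, G} => ((x : M) : E)) heq
        exact e2
      rw [← hu', ← hv', ← hp', ← hq', hc, hc, ← map_pow, ← map_pow, ← map_mul, ← map_add, ← map_add, hL.eq_iff] at e1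
      exact e1
    have hd' : ∀ᶠ n in (U : Filter ℕ), 4 * (p' n) ^ 3 + 27 * (q' n) ^ 2 ≠ 0 := by
      have e1 : πk (4 * p' ^ 3 + 27 * q' ^ 2) ≠ 0 := by
        rw [map_add, map_mul, map_mul, map_pow, map_pow, hp', hq', map_ofNat, map_ofNat]
        exact hd
      rw [hk.ne_zero] at e1
      exact e1
    obtain ⟨n, h6, h7, h8, h9, h10, h13, h14⟩ := (h3.and (h4.and (h5.and (hft.and (h.and (he.and hd')))))).exists
    have := hcl n
    have := hch n
    have h11 := genus_step (hLf n) h9 h10 h8 h6 h7
    have huF : u' n ∈ IntermediateField.adjoin (k n) {u' n, v' n} := IntermediateField.subset_adjoin _ _ (Or.inl rfl)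
    have hvF : v' n ∈ IntermediateField.adjoin (k n) {u' n, v' n} := IntermediateField.subset_adjoin _ _ (Or.inr rfl)
    refine not_twoReg_ell (k := k n) (u := (⟨u' n, huF⟩ : IntermediateField.adjoin (k n) {u' n, v' n}))
      (v := ⟨v' n, hvF⟩) (p := p' n) (q := q' n)
      (fun h0 => h8 (h0.algebraMap (A := L n))) (Subtype.ext h13) h14 (fun m => ?_) h11
    exact gen_pair (u' n) (v' n) ⟨u' n, huF⟩ ⟨v' n, hvF⟩ m rfl rfl

end ult

/-- there is a function field of one variable with more than `n` pairs -/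
def BadP (D N n : ℕ) : Prop :=
  ∃ (k L : Type u) (_ : Field k) (_ : IsAlgClosed k) (_ : CharZero k) (_ : Field L) (_ : Algebra k L) (f g : ℕ → L),
    IsFun k L ∧ (∀ j, Transcendental k (f j) ∧ Module.finrank k⟮f j⟯ L ≤ D ∧ Transcendental k (g j) ∧
      Module.finrank k⟮g j⟯ L ≤ D ∧ (∀ v ∈ VN k L, TameTors v N (f j) (g j)) ∧
      TwoReg k (IntermediateField.adjoin k {f j, g j})) ∧
    ∀ i j, i < j → j ≤ n → (f i, g i) ≠ (f j, g j)

theorem not_badP (D : ℕ) {N : ℕ} (hN : 0 < N) : ¬ ∀ n, BadP.{u} D N n := by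
  intro hbad
  choose k L ik ic ih iL ia f g hfun hfg hne using hbad
  let U : Ultrafilter ℕ := hyperfilter ℕ
  obtain ⟨K, E, iK, iE, iKE, πk, πL, hk, hL, hc⟩ := exists_ult U k L
  have hKc : IsAlgClosed K := ult_closed hk ic
  have hK0 : CharZero K := ult_char0 hk ih
  have hf : ∀ j, ∀ᶠ n in (U : Filter ℕ), Transcendental (k n) (f n j) ∧
      FiniteDimensional (k n)⟮f n j⟯ (L n) ∧ Module.finrank (k n)⟮f n j⟯ (L n) ≤ D := fun j =>
    Filter.Eventually.of_forall fun n => ⟨(hfg n j).1, (hfun n).alg (hfg n j).1, (hfg n j).2.1⟩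
  have hg : ∀ j, ∀ᶠ n in (U : Filter ℕ), Transcendental (k n) (g n j) ∧
      FiniteDimensional (k n)⟮g n j⟯ (L n) ∧ Module.finrank (k n)⟮g n j⟯ (L n) ≤ D := fun j =>
    Filter.Eventually.of_forall fun n => ⟨(hfg n j).2.2.1, (hfun n).alg (hfg n j).2.2.1, (hfg n j).2.2.2.1⟩
  obtain ⟨M, hM, -, hY⟩ := exists_clo hk hL hc (x := fun n => f n 0) (hf 0)
  choose F hF1 hF2 hF3 using fun j => hY (fun n => f n j) (hf j)
  choose G hG1 hG2 hG3 using fun j => hY (fun n => g n j) (hg j)
  have hF0 : ∀ j, F j ≠ 0 := fun j h => hF2 j (h ▸ isAlgebraic_zero)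
  have hG0 : ∀ j, G j ≠ 0 := fun j h => hG2 j (h ▸ isAlgebraic_zero)
  obtain ⟨m, e, he⟩ := bounded_degree hM D
  have hN' : 0 < 2 * (N * D.factorial) := by positivity
  have hfin := finite_pairs hM e hN'
  have htame : ∀ j, ∀ v ∈ VN K M, TameTors v (2 * (N * D.factorial)) (F j) (G j) := by
    intro j v hv
    obtain ⟨w, hw, hval⟩ := plift hk hL hc ic ih hfun hM hv
    refine tame_ult hL ih hv.1 hw hval (hF1 j) (hG1 j) (hf j) (hg j) ?_
    exact hw.mono fun n hn => (hfg n j).2.2.2.2.1 (w n) hn
  have htwo : ∀ j, TwoReg K (IntermediateField.adjoin K {F j, G j}) := fun j =>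
    genus_ult hk hL hc ic ih hfun hM (hF1 j) (hG1 j) (hF2 j)
      (Filter.Eventually.of_forall fun n => (hfg n j).2.2.2.2.2)
  have hinj : Function.Injective fun j : ℕ => (F j, G j) := by
    have key : ∀ i j, i < j → (F i, G i) = (F j, G j) → False := by
      intro i j hij h
      have h1 : πL (fun n => f n i) = πL (fun n => f n j) := by
        have e1 : F i = F j := congrArg Prod.fst h
        rw [← hF1, ← hF1, e1]
      have h2 : πL (fun n => g n i) = πL (fun n => g n j) := by
        have e1 : G i = G j := congrArg Prod.snd h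
        rw [← hG1, ← hG1, e1]
      rw [hL.eq_iff] at h1 h2
      have h4 : ∀ᶠ n in (U : Filter ℕ), j ≤ n := by
        have h5 : {n : ℕ | j ≤ n}ᶜ.Finite := by
          refine (Set.finite_Iio j).subset fun n hn => ?_
          rw [Set.mem_compl_iff, Set.mem_ofPred_eq, not_le] at hn
          exact hn
        have h6 : {n : ℕ | j ≤ n} ∈ (U : Filter ℕ) := Filter.hyperfilter_le_cofinite (by
          rw [Filter.mem_cofinite]
          exact h5)
        exact h6
      obtain ⟨n, h5, h6, h7⟩ := (h1.and (h2.and h4)).exists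
      exact hne n i j hij h7 (Prod.ext h5 h6)
    intro i j h
    by_contra hij
    rcases lt_or_gt_of_ne hij with h' | h'
    · exact key i j h' h
    · exact key j i h' h.symm
  refine Set.infinite_univ (α := ℕ) ?_
  refine (hfin.preimage hinj.injOn).subset fun j _ => ?_
  exact ⟨he _ (hF2 j) (hF3 j), he _ (hG2 j) (hG3 j), hF0 j, hG0 j, htame j, htwo j⟩

/-- **uniform boundedness of the number of pairs**, algebraically closed fields of constants -/
theorem uniform_pairs_core (D : ℕ) {N : ℕ} (hN : 0 < N) : ∃ B : ℕ, ∀ (k L : Type u) [Field k] [IsAlgClosed k]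
    [CharZero k] [Field L] [Algebra k L], IsFun k L →
    {p : L × L | Transcendental k p.1 ∧ Module.finrank k⟮p.1⟯ L ≤ D ∧ Transcendental k p.2 ∧
      Module.finrank k⟮p.2⟯ L ≤ D ∧ (∀ v ∈ VN k L, TameTors v N p.1 p.2) ∧
      TwoReg k (IntermediateField.adjoin k {p.1, p.2})}.encard ≤ B := by
  have h := not_badP.{u} D hN
  push Not at h
  obtain ⟨n, hn⟩ := h
  refine ⟨n, fun k L _ _ _ _ _ hL => ?_⟩
  set S := {p : L × L | Transcendental k p.1 ∧ Module.finrank k⟮p.1⟯ L ≤ D ∧ Transcendental k p.2 ∧
      Module.finrank k⟮p.2⟯ L ≤ D ∧ (∀ v ∈ VN k L, TameTors v N p.1 p.2) ∧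
      TwoReg k (IntermediateField.adjoin k {p.1, p.2})} with hS
  by_contra hcon
  push Not at hcon
  apply hn
  -- choose `n + 1` elements
  have h1 : ((n + 1 : ℕ) : ℕ∞) ≤ S.encard := by
    rw [Nat.cast_add, Nat.cast_one]
    exact Order.add_one_le_of_lt hcon
  obtain ⟨T, hTS, hT⟩ := Set.exists_subset_encard_eq h1
  have hTf : T.Finite := Set.finite_of_encard_eq_coe hT
  have := hTf.to_subtype
  have hcard : Nat.card T = n + 1 := by
    rw [Nat.card_coe_set_eq, Set.ncard_def, hT]
    rfl
  let ε : T ≃ Fin (n + 1) := Finite.equivFinOfCardEq hcard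
  let p : ℕ → L × L := fun j => (ε.symm ⟨min j n, by omega⟩ : T)
  have hp : ∀ j, p j ∈ S := fun j => hTS (ε.symm ⟨min j n, by omega⟩).2
  refine ⟨k, L, inferInstance, inferInstance, inferInstance, inferInstance, inferInstance, fun j => (p j).1,
    fun j => (p j).2, hL, hp, ?_⟩
  intro i j hij hjn hy
  have h2 : p i = p j := hy
  have h3 : ε.symm ⟨min i n, by omega⟩ = ε.symm ⟨min j n, by omega⟩ := Subtype.ext h2
  have h4 := congrArg Fin.val (ε.symm.injective h3)
  simp only at h4
  omega

end Pool.Agent.Helper79.UN
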