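import Pool.Agent.Helper79.UN.UL

set_option autoImplicit false

/-!
# Module UK: relations in `K_2` of an ultraproduct
-/

set_option linter.unusedSectionVars false

universe u

namespace Pool.Agent.Helper79.UN

open Filter
open Pool.Agent.TH826.MK (KQ symb unitPart)
open Pool.Agent.Helper537_Sym
open Pool.Agent.Helper79.RG

section los

variable (U : Ultrafilter ℕ) (L : ℕ → Type u) [∀ i, Field (L i)]

/-- the families which are eventually zero -/
def evz : Submodule ℚ ((n : ℕ) → KQ (L n) 2) where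
  carrier := {s | ∀ᶠ n in (U : Filter ℕ), s n = 0}
  zero_mem' := Filter.Eventually.of_forall fun _ => rfl
  add_mem' := by
    intro a b ha hb
    filter_upwards [ha, hb] with i h1 h2
    rw [Pi.add_apply, h1, h2, add_zero]
  smul_mem' := by
    intro c a ha
    filter_upwards [ha] with i h1
    rw [Pi.smul_apply, h1, smul_zero]

theorem mk_eq (s t : (n : ℕ) → KQ (L n) 2) : (Submodule.Quotient.mk s : ((n : ℕ) → KQ (L n) 2) ⧸ evz U L) =
    Submodule.Quotient.mk t ↔ ∀ᶠ n in (U : Filter ℕ), s n = t n := by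
  rw [Submodule.Quotient.eq]
  show (∀ᶠ n in (U : Filter ℕ), (s - t) n = 0) ↔ _
  simp only [Pi.sub_apply, sub_eq_zero]

variable {U L} {E : Type u} [Field E] {πL : ((i : ℕ) → L i) →+* E}

theorem los_ult (hL : IsUlt U L E πL) : ∃ Θ : KQ E 2 →ₗ[ℚ] (((n : ℕ) → KQ (L n) 2) ⧸ evz U L),
    ∀ (X Y : Eˣ) (x y : (n : ℕ) → L n), πL x = X → πL y = Y →
      Θ (sy X Y) = Submodule.Quotient.mk fun n => sy (uu (x n)) (uu (y n)) := by
  classical
  let rep : E → (n : ℕ) → L n := fun x => (hL.surj x).choose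
  have hrep : ∀ x, πL (rep x) = x := fun x => (hL.surj x).choose_spec
  let gs : E → E → (((n : ℕ) → KQ (L n) 2) ⧸ evz U L) := fun x y =>
    Submodule.Quotient.mk fun n => sy (uu (rep x n)) (uu (rep y n))
  have hgs : ∀ (x y : (n : ℕ) → L n), gs (πL x) (πL y) = Submodule.Quotient.mk fun n => sy (uu (x n)) (uu (y n)) := by
    intro x y
    show (Submodule.Quotient.mk fun n => sy (uu (rep (πL x) n)) (uu (rep (πL y) n))) = _
    rw [mk_eq]
    have h1 := (hL.eq_iff _ _).1 (hrep (πL x))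
    have h2 := (hL.eq_iff _ _).1 (hrep (πL y))
    filter_upwards [h1, h2] with n hn1 hn2
    rw [hn1, hn2]
  have hadd1 : ∀ x x' y : Eˣ, gs ((x * x' : Eˣ) : E) y = gs x y + gs x' y := by
    intro x x' y
    obtain ⟨s, hs⟩ := hL.surj (x : E)
    obtain ⟨t, ht⟩ := hL.surj (x' : E)
    obtain ⟨r, hr⟩ := hL.surj (y : E)
    have h1 := (hL.ne_zero s).1 (by rw [hs]; exact x.ne_zero)
    have h2 := (hL.ne_zero t).1 (by rw [ht]; exact x'.ne_zero)
    rw [Units.val_mul, ← hs, ← ht, ← hr, ← map_mul, hgs, hgs, hgs, ← Submodule.Quotient.mk_add, mk_eq]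
    filter_upwards [h1, h2] with n hn1 hn2
    rw [Pi.add_apply, Pi.mul_apply, uu_mul hn1 hn2, sy_mul_left]
  have hadd2 : ∀ y x x' : Eˣ, gs y ((x * x' : Eˣ) : E) = gs y x + gs y x' := by
    intro y x x'
    obtain ⟨s, hs⟩ := hL.surj (x : E)
    obtain ⟨t, ht⟩ := hL.surj (x' : E)
    obtain ⟨r, hr⟩ := hL.surj (y : E)
    have h1 := (hL.ne_zero s).1 (by rw [hs]; exact x.ne_zero)
    have h2 := (hL.ne_zero t).1 (by rw [ht]; exact x'.ne_zero)
    rw [Units.val_mul, ← hs, ← ht, ← hr, ← map_mul, hgs, hgs, hgs, ← Submodule.Quotient.mk_add, mk_eq]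
    filter_upwards [h1, h2] with n hn1 hn2
    rw [Pi.add_apply, Pi.mul_apply, uu_mul hn1 hn2, sy_mul_right]
  have hst : ∀ x y : Eˣ, (x : E) + y = 1 → gs x y = 0 := by
    intro x y hxy
    obtain ⟨s, hs⟩ := hL.surj (x : E)
    obtain ⟨r, hr⟩ := hL.surj (y : E)
    have h1 := (hL.ne_zero s).1 (by rw [hs]; exact x.ne_zero)
    have h2 := (hL.ne_zero r).1 (by rw [hr]; exact y.ne_zero)
    rw [← hs, ← hr, ← map_add, ← map_one πL, hL.eq_iff] at hxy
    rw [← hs, ← hr, hgs, ← Submodule.Quotient.mk_zero, mk_eq]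
    filter_upwards [h1, h2, hxy] with n hn1 hn2 hn3
    refine sy_steinberg ?_
    rw [uu_val hn1, uu_val hn2]
    exact hn3
  refine ⟨KQ.lift (fun a => gs (a 0 : E) (a 1 : E)) ?_ ?_, fun X Y x y hx hy => ?_⟩
  · intro a i x y
    fin_cases i
    · simp only [Fin.zero_eta, Function.update_self, ne_eq, one_ne_zero, not_false_eq_true, Function.update_of_ne]
      exact hadd1 x y (a 1)
    · simp only [Fin.mk_one, Function.update_self, ne_eq, zero_ne_one, not_false_eq_true, Function.update_of_ne]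
      exact hadd2 (a 0) x y
  · rintro a ⟨i, j, hij, h⟩
    have hi : i = 0 := by omega
    have hj : j = 1 := by omega
    subst hi
    subst hj
    exact hst (a 0) (a 1) h
  · unfold sy
    rw [KQ.lift_symb]
    show gs (X : E) (Y : E) = _
    rw [← hx, ← hy, hgs]
    rfl

end los

/-- an equality of symbols modulo constants in `K_2` of an ultraproduct holds for almost all indices -/
theorem ult_kq {U : Ultrafilter ℕ} {k L : ℕ → Type u} [∀ i, Field (k i)] [∀ i, Field (L i)] [∀ i, Algebra (k i) (L i)]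
    {K E : Type u} [Field K] [Field E] [Algebra K E] {πk : ((i : ℕ) → k i) →+* K} {πL : ((i : ℕ) → L i) →+* E}
    (hk : IsUlt U k K πk) (hL : IsUlt U L E πL)
    (hc : ∀ a : (i : ℕ) → k i, algebraMap K E (πk a) = πL fun i => algebraMap (k i) (L i) (a i))
    (f g f' g' : (i : ℕ) → (L i)ˣ) (F G F' G' : Eˣ)
    (hF : (F : E) = πL fun i => (f i : L i)) (hG : (G : E) = πL fun i => (g i : L i))
    (hF' : (F' : E) = πL fun i => (f' i : L i)) (hG' : (G' : E) = πL fun i => (g' i : L i)) (y : KQ K 2)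
    (h : sy F G - sy F' G' = KQ.map 2 (algebraMap K E) y) :
    ∀ᶠ i in (U : Filter ℕ), ∃ y' : KQ (k i) 2,
      sy (f i) (g i) - sy (f' i) (g' i) = KQ.map 2 (algebraMap (k i) (L i)) y' := by
  obtain ⟨Θ, hΘ⟩ := los_ult hL
  have h1 : Θ (sy F G - sy F' G') = Submodule.Quotient.mk fun n => sy (f n) (g n) - sy (f' n) (g' n) := by
    rw [map_sub, hΘ F G (fun i => (f i : L i)) (fun i => (g i : L i)) hF.symm hG.symm,
      hΘ F' G' (fun i => (f' i : L i)) (fun i => (g' i : L i)) hF'.symm hG'.symm, ← Submodule.Quotient.mk_sub]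
    congr 1
    funext n
    rw [Pi.sub_apply, uu_unit, uu_unit, uu_unit, uu_unit]
  have h3 : ∀ y : KQ K 2, ∃ s : (n : ℕ) → KQ (k n) 2, Θ (KQ.map 2 (algebraMap K E) y) =
      Submodule.Quotient.mk fun n => KQ.map 2 (algebraMap (k n) (L n)) (s n) := by
    intro y
    have hs := sy_span y
    induction hs using Submodule.span_induction with
    | mem x hx =>
      obtain ⟨p, rfl⟩ := hx
      obtain ⟨s, hs⟩ := hk.surj (p.1 : K)
      obtain ⟨t, ht⟩ := hk.surj (p.2 : K)
      have hs0 := (hk.ne_zero s).1 (by rw [hs]; exact p.1.ne_zero)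
      have ht0 := (hk.ne_zero t).1 (by rw [ht]; exact p.2.ne_zero)
      refine ⟨fun n => sy (uu (s n)) (uu (t n)), ?_⟩
      show Θ (KQ.map 2 (algebraMap K E) (sy p.1 p.2)) = _
      rw [map_sy', hΘ _ _ (fun n => algebraMap (k n) (L n) (s n)) (fun n => algebraMap (k n) (L n) (t n)) (by
        rw [← hc, hs]
        rfl) (by
        rw [← hc, ht]
        rfl), mk_eq]
      filter_upwards [hs0, ht0] with n hn1 hn2
      rw [map_sy']
      congr 1
      · refine Units.ext ?_
        rw [uu_val ((map_ne_zero _).2 hn1)]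
        show _ = algebraMap (k n) (L n) (uu (s n) : k n)
        rw [uu_val hn1]
      · refine Units.ext ?_
        rw [uu_val ((map_ne_zero _).2 hn2)]
        show _ = algebraMap (k n) (L n) (uu (t n) : k n)
        rw [uu_val hn2]
    | zero =>
      refine ⟨fun _ => 0, ?_⟩
      rw [map_zero, map_zero, ← Submodule.Quotient.mk_zero]
      rw [mk_eq]
      exact Filter.Eventually.of_forall fun n => (map_zero _).symm
    | add x y _ _ h h' =>
      obtain ⟨s, hs⟩ := h
      obtain ⟨t, ht⟩ := h'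
      refine ⟨fun n => s n + t n, ?_⟩
      rw [map_add, map_add, hs, ht, ← Submodule.Quotient.mk_add]
      congr 1
      funext n
      rw [Pi.add_apply, map_add]
    | smul r x _ h =>
      obtain ⟨s, hs⟩ := h
      refine ⟨fun n => r • s n, ?_⟩
      rw [map_smul, map_smul, hs, ← Submodule.Quotient.mk_smul]
      congr 1
      funext n
      rw [Pi.smul_apply, map_smul]
  obtain ⟨s, hs⟩ := h3 y
  rw [h, hs, mk_eq] at h1
  filter_upwards [h1] with i hi
  exact ⟨s i, hi.symm⟩

end Pool.Agent.Helper79.UN
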