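import Pool.Agent.Helper79.RG.VX

set_option autoImplicit false

/-!
# Ultraproducts of fields
-/

set_option linter.unusedSectionVars false

universe u

namespace Pool.Agent.Helper79.UN

open Filter

/-- `E` is the ultraproduct of the fields `L i` -/
structure IsUlt (U : Ultrafilter ℕ) (L : ℕ → Type u) [∀ i, Field (L i)] (E : Type u) [Field E]
    (π : ((i : ℕ) → L i) →+* E) : Prop where
  surj : Function.Surjective π
  eq_zero : ∀ a, π a = 0 ↔ ∀ᶠ i in (U : Filter ℕ), a i = 0

section basic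

variable {U : Ultrafilter ℕ} {L : ℕ → Type u} [∀ i, Field (L i)] {E : Type u} [Field E]
  {π : ((i : ℕ) → L i) →+* E}

theorem IsUlt.eq_iff (h : IsUlt U L E π) (a b : (i : ℕ) → L i) : π a = π b ↔ ∀ᶠ i in (U : Filter ℕ), a i = b i := by
  rw [← sub_eq_zero, ← map_sub, h.eq_zero]
  simp only [Pi.sub_apply, sub_eq_zero]

theorem IsUlt.ne_zero (h : IsUlt U L E π) (a : (i : ℕ) → L i) : π a ≠ 0 ↔ ∀ᶠ i in (U : Filter ℕ), a i ≠ 0 := by
  rw [Ne, h.eq_zero, Ultrafilter.eventually_not]

end basic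

/-- the ideal of the sequences which are eventually zero -/
def ultIdeal (U : Ultrafilter ℕ) (L : ℕ → Type u) [∀ i, Field (L i)] : Ideal ((i : ℕ) → L i) where
  carrier := {a | ∀ᶠ i in (U : Filter ℕ), a i = 0}
  zero_mem' := Filter.Eventually.of_forall fun _ => rfl
  add_mem' := by
    intro a b ha hb
    filter_upwards [ha, hb] with i h1 h2
    rw [Pi.add_apply, h1, h2, add_zero]
  smul_mem' := by
    intro c a ha
    filter_upwards [ha] with i h1
    rw [smul_eq_mul, Pi.mul_apply, h1, mul_zero]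

theorem mem_ultIdeal (U : Ultrafilter ℕ) (L : ℕ → Type u) [∀ i, Field (L i)] (a : (i : ℕ) → L i) :
    a ∈ ultIdeal U L ↔ ∀ᶠ i in (U : Filter ℕ), a i = 0 := Iff.rfl

theorem ultIdeal_max (U : Ultrafilter ℕ) (L : ℕ → Type u) [∀ i, Field (L i)] : (ultIdeal U L).IsMaximal := by
  classical
  rw [Ideal.isMaximal_iff]
  constructor
  · intro h
    rw [mem_ultIdeal] at h
    obtain ⟨i, hi⟩ := h.exists
    exact one_ne_zero hi
  · intro J x hJ hx hxJ
    rw [mem_ultIdeal, ← Ultrafilter.eventually_not] at hx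
    let y : (i : ℕ) → L i := fun i => (x i)⁻¹
    have h1 : y * x ∈ J := J.mul_mem_left y hxJ
    have h2 : 1 - y * x ∈ J := hJ (by
      rw [mem_ultIdeal]
      filter_upwards [hx] with i hi
      show 1 - (x i)⁻¹ * x i = 0
      rw [inv_mul_cancel₀ hi, sub_self])
    have h3 := J.add_mem h2 h1
    rwa [sub_add_cancel] at h3

/-- **existence of ultraproducts** of extensions -/
theorem exists_ult (U : Ultrafilter ℕ) (k L : ℕ → Type u) [∀ i, Field (k i)] [∀ i, Field (L i)]
    [∀ i, Algebra (k i) (L i)] : ∃ (K E : Type u) (_ : Field K) (_ : Field E) (_ : Algebra K E)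
      (πk : ((i : ℕ) → k i) →+* K) (πL : ((i : ℕ) → L i) →+* E), IsUlt U k K πk ∧ IsUlt U L E πL ∧
      ∀ a : (i : ℕ) → k i, algebraMap K E (πk a) = πL fun i => algebraMap (k i) (L i) (a i) := by
  have hk := ultIdeal_max U k
  have hL := ultIdeal_max U L
  let K := ((i : ℕ) → k i) ⧸ ultIdeal U k
  let E := ((i : ℕ) → L i) ⧸ ultIdeal U L
  let fK : Field K := Ideal.Quotient.field _
  let fE : Field E := Ideal.Quotient.field _
  let j : ((i : ℕ) → k i) →+* ((i : ℕ) → L i) := Pi.ringHom fun i => (algebraMap (k i) (L i)).comp (Pi.evalRingHom k i)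
  let φ : K →+* E := Ideal.Quotient.lift _ ((Ideal.Quotient.mk (ultIdeal U L)).comp j) (by
    intro a ha
    rw [RingHom.comp_apply, Ideal.Quotient.eq_zero_iff_mem, mem_ultIdeal]
    rw [mem_ultIdeal] at ha
    filter_upwards [ha] with i hi
    show algebraMap (k i) (L i) (a i) = 0
    rw [hi, map_zero])
  refine ⟨K, E, fK, fE, φ.toAlgebra, Ideal.Quotient.mk _, Ideal.Quotient.mk _, ⟨Ideal.Quotient.mk_surjective, fun a => ?_⟩,
    ⟨Ideal.Quotient.mk_surjective, fun a => ?_⟩, fun a => ?_⟩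
  · rw [Ideal.Quotient.eq_zero_iff_mem, mem_ultIdeal]
  · rw [Ideal.Quotient.eq_zero_iff_mem, mem_ultIdeal]
  · rfl

end Pool.Agent.Helper79.UN
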