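import Pool.Agent.Helper79.UN.UF
import Pool.Agent.Helper79.UN.RC

set_option autoImplicit false

/-!
# Places of the relative closure come from sequences of places
-/

set_option linter.unusedSectionVars false

universe u

namespace Pool.Agent.Helper79.UN

open scoped WithZero
open Filter
open IntermediateField
open Pool.Agent.Helper79.FE (VN)
open Pool.Agent.Helper79.RG

/-- a relation with a constant term has no common zero at a place -/
theorem evc_place {k L : Type*} [Field k] [Field L] [Algebra k L] {a b : ℕ} (c : Fin (a + 1) → Fin (b + 1) → k)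
    (h0 : c 0 0 ≠ 0) {x z : L} {v : Valuation L ℤᵐ⁰} (hv : v ∈ VN k L) (hx : v x < 1) (hz : v z < 1) :
    evc c x z ≠ 0 := by
  intro h
  have h1 : ∀ i j, (i, j) ≠ ((0 : Fin (a + 1)), (0 : Fin (b + 1))) →
      v (algebraMap k L (c i j) * x ^ (i : ℕ) * z ^ (j : ℕ)) < 1 := by
    intro i j hij
    rw [map_mul, map_mul, map_pow, map_pow]
    have hc : v (algebraMap k L (c i j)) ≤ 1 := val_k hv _
    have h2 : v x ^ (i : ℕ) ≤ 1 := pow_le_one₀ zero_le hx.le
    have h3 : v z ^ (j : ℕ) ≤ 1 := pow_le_one₀ zero_le hz.le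
    by_cases hi : i = 0
    · have hj : (j : ℕ) ≠ 0 := by
        intro hj
        apply hij
        rw [hi]
        congr 1
        exact Fin.ext hj
      exact (mul_le_of_le_one_left' (mul_le_one' hc h2)).trans_lt (pow_lt_one₀ zero_le hz hj)
    · have hi' : (i : ℕ) ≠ 0 := fun h => hi (Fin.ext h)
      refine (mul_le_of_le_one_right' h3).trans_lt ?_
      exact (mul_le_of_le_one_left' hc).trans_lt (pow_lt_one₀ zero_le hx hi')
  unfold evc at h
  have hmem : ((0 : Fin (a + 1)), (0 : Fin (b + 1))) ∈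
      (Finset.univ ×ˢ Finset.univ : Finset (Fin (a + 1) × Fin (b + 1))) :=
    Finset.mem_product.2 ⟨Finset.mem_univ _, Finset.mem_univ _⟩
  rw [← Finset.sum_product', ← Finset.add_sum_erase _ _ hmem] at h
  have h4 : v (∑ p ∈ (Finset.univ ×ˢ Finset.univ : Finset (Fin (a + 1) × Fin (b + 1))).erase (0, 0),
      algebraMap k L (c p.1 p.2) * x ^ (p.1 : ℕ) * z ^ (p.2 : ℕ)) < 1 := by
    refine Valuation.map_sum_lt v one_ne_zero fun p hp => ?_
    exact h1 p.1 p.2 (Finset.ne_of_mem_erase hp)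
  have h5 : v (algebraMap k L (c 0 0)) = 1 := hv.2 _ h0
  simp only [Fin.val_zero, pow_zero, mul_one] at h
  rw [eq_neg_of_add_eq_zero_left h, Valuation.map_neg] at h5
  exact h4.ne h5

section ult

variable {U : Ultrafilter ℕ} {k L : ℕ → Type u} [∀ i, Field (k i)] [∀ i, Field (L i)] [∀ i, Algebra (k i) (L i)]
  {K E : Type u} [Field K] [Field E] [Algebra K E] {πk : ((i : ℕ) → k i) →+* K} {πL : ((i : ℕ) → L i) →+* E}

/-- **places of the relative closure** come from sequences of places -/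
theorem plift (hk : IsUlt U k K πk) (hL : IsUlt U L E πL) [CharZero K]
    (hc : ∀ a : (i : ℕ) → k i, algebraMap K E (πk a) = πL fun i => algebraMap (k i) (L i) (a i))
    (hcl : ∀ n, IsAlgClosed (k n)) (hch : ∀ n, CharZero (k n)) (hLf : ∀ n, IsFun (k n) (L n))
    {M : IntermediateField K E} (hM : IsFun K M) {v : Valuation M ℤᵐ⁰} (hv : v ∈ VN K M) :
    ∃ w : (n : ℕ) → Valuation (L n) ℤᵐ⁰, (∀ᶠ n in (U : Filter ℕ), w n ∈ VN (k n) (L n)) ∧
      ∀ (Y : M) (y : (n : ℕ) → L n), (Y : E) = πL y → (v Y ≤ 1 ↔ ∀ᶠ n in (U : Filter ℕ), w n (y n) ≤ 1) := by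
  classical
  obtain ⟨s, b, hs, hvs, hvb, huniq⟩ := sep_place hM hv
  obtain ⟨s', hs'⟩ := hL.surj (s : E)
  obtain ⟨b', hb'⟩ := hL.surj (b : E)
  have hsE : Transcendental K (πL s') := by
    rw [hs']
    intro h
    exact hs ((isAlgebraic_algebraMap_iff (algebraMap M E).injective).1 h)
  have hst := trans_ult hL hc hcl hsE
  -- the relation
  have hfinM := hM.alg hs
  have halg : IsAlgebraic K⟮s⟯ b := (Algebra.IsAlgebraic.of_finite K⟮s⟯ M).isAlgebraic b
  obtain ⟨d, e, hrel⟩ := rel_of_alg halg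
  have hrelE : Rel K d e (πL s') (πL b') := by
    rw [hs', hb']
    exact (Rel.map (x := s) (z := b) M.val).2 hrel
  have hreln := rel_ult hk hL hc hrelE
  -- the places
  have hex : ∀ᶠ n in (U : Filter ℕ), ∃ w ∈ VN (k n) (L n), w (s' n) < 1 ∧ w (b' n) < 1 := by
    by_contra hcon
    rw [← Ultrafilter.eventually_not] at hcon
    obtain ⟨c, hc0, hcs⟩ := ult_rel0 (a := d) (b := e) (x := s') (z := b') hk hL hc (by
      filter_upwards [hcon, hst, hreln] with n h1 h2 h3
      have := hch n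
      have := (hLf n).alg h2
      exact rel_const h2 h3 h1)
    rw [hs', hb'] at hcs
    have h4 : evc c s b = 0 := by
      apply (algebraMap M E).injective
      rw [map_zero, ← hcs]
      unfold evc
      rw [map_sum]
      refine Finset.sum_congr rfl fun i _ => ?_
      rw [map_sum]
      refine Finset.sum_congr rfl fun j _ => ?_
      rw [map_mul, map_mul, map_pow, map_pow]
      rfl
    exact evc_place c hc0 hv hvs hvb h4
  let w : (n : ℕ) → Valuation (L n) ℤᵐ⁰ := fun n =>
    if h : ∃ w ∈ VN (k n) (L n), w (s' n) < 1 ∧ w (b' n) < 1 then h.choose else 1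
  have hw : ∀ᶠ n in (U : Filter ℕ), w n ∈ VN (k n) (L n) ∧ w n (s' n) < 1 ∧ w n (b' n) < 1 := by
    filter_upwards [hex] with n hn
    have h1 : w n = hn.choose := dif_pos hn
    rw [h1]
    exact hn.choose_spec
  refine ⟨w, hw.mono fun n hn => hn.1, ?_⟩
  -- independence of the representative
  have hrep : ∀ y y' : (n : ℕ) → L n, πL y = πL y' →
      ((∀ᶠ n in (U : Filter ℕ), w n (y n) ≤ 1) → ∀ᶠ n in (U : Filter ℕ), w n (y' n) ≤ 1) := by
    intro y y' h h1
    rw [hL.eq_iff] at h
    filter_upwards [h, h1] with n hn1 hn2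
    rw [← hn1]
    exact hn2
  -- the valuation ring
  let P : E → Prop := fun Y => ∃ y : (n : ℕ) → L n, πL y = Y ∧ ∀ᶠ n in (U : Filter ℕ), w n (y n) ≤ 1
  have hP : ∀ (Y : E) (y : (n : ℕ) → L n), πL y = Y → (P Y ↔ ∀ᶠ n in (U : Filter ℕ), w n (y n) ≤ 1) := by
    intro Y y hy
    constructor
    · rintro ⟨y', hy', h⟩
      exact hrep y' y (by rw [hy, hy']) h
    · exact fun h => ⟨y, hy, h⟩
  let O : ValuationSubring M :=
    { carrier := {Y | P (Y : E)}
      mul_mem' := by
        rintro X Y ⟨x, hx, hx1⟩ ⟨y, hy, hy1⟩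
        refine ⟨x * y, by rw [map_mul, hx, hy]; rfl, ?_⟩
        filter_upwards [hx1, hy1] with n h1 h2
        rw [Pi.mul_apply, map_mul]
        exact mul_le_one' h1 h2
      one_mem' := ⟨1, map_one _, Filter.Eventually.of_forall fun n => by rw [Pi.one_apply, map_one]⟩
      add_mem' := by
        rintro X Y ⟨x, hx, hx1⟩ ⟨y, hy, hy1⟩
        refine ⟨x + y, by rw [map_add, hx, hy]; rfl, ?_⟩
        filter_upwards [hx1, hy1] with n h1 h2
        rw [Pi.add_apply]
        exact (Valuation.map_add _ _ _).trans (max_le h1 h2)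
      zero_mem' := ⟨0, map_zero _, Filter.Eventually.of_forall fun n => by rw [Pi.zero_apply, map_zero]; exact zero_le_one⟩
      neg_mem' := by
        rintro X ⟨x, hx, hx1⟩
        refine ⟨-x, by rw [map_neg, hx]; rfl, ?_⟩
        filter_upwards [hx1] with n h1
        rw [Pi.neg_apply, Valuation.map_neg]
        exact h1
      mem_or_inv_mem' := by
        intro X
        obtain ⟨x, hx⟩ := hL.surj (X : E)
        by_cases h : ∀ᶠ n in (U : Filter ℕ), w n (x n) ≤ 1
        · exact Or.inl ⟨x, hx, h⟩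
        · right
          rw [← Ultrafilter.eventually_not] at h
          have hx0 : (X : E) ≠ 0 := by
            rw [← hx, hL.ne_zero]
            filter_upwards [h] with n hn h0
            apply hn
            rw [h0, map_zero]
            exact zero_le_one
          refine ⟨fun n => (x n)⁻¹, ?_, ?_⟩
          · show _ = (X : E)⁻¹
            refine eq_inv_of_mul_eq_one_left ?_
            rw [← hx, ← map_mul, ← map_one πL, hL.eq_iff]
            rw [← hx, hL.ne_zero] at hx0
            filter_upwards [hx0] with n hn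
            rw [Pi.mul_apply, Pi.one_apply, inv_mul_cancel₀ hn]
          · filter_upwards [h] with n hn
            rw [map_inv₀]
            push Not at hn
            exact inv_le_one_of_one_le₀ hn.le }
  have hO : ∀ Y : M, Y ∈ O ↔ P (Y : E) := fun Y => Iff.rfl
  have hOk : ∀ c : K, algebraMap K M c ∈ O := by
    intro c
    obtain ⟨a, rfl⟩ := hk.surj c
    refine ⟨fun n => algebraMap (k n) (L n) (a n), (hc a).symm, ?_⟩
    filter_upwards [hw] with n hn
    exact val_k hn.1 _
  -- elements with value smaller than one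
  have hsm : ∀ (Y : M) (y : (n : ℕ) → L n), πL y = (Y : E) → Y ≠ 0 → (∀ᶠ n in (U : Filter ℕ), w n (y n) < 1) →
      Y⁻¹ ∉ O := by
    intro Y y hy hY0 h1 h2
    have hY0' : πL y ≠ 0 := by
      rw [hy]
      exact fun h => hY0 (Subtype.ext h)
    have h3 : πL (fun n => (y n)⁻¹) = ((Y⁻¹ : M) : E) := by
      show _ = (Y : E)⁻¹
      refine eq_inv_of_mul_eq_one_left ?_
      rw [← hy, ← map_mul, ← map_one πL, hL.eq_iff]
      rw [hL.ne_zero] at hY0'
      filter_upwards [hY0'] with n hn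
      rw [Pi.mul_apply, Pi.one_apply, inv_mul_cancel₀ hn]
    rw [hO, hP _ _ h3] at h2
    rw [hL.ne_zero] at hY0'
    obtain ⟨n, h4, h5, h6⟩ := (h1.and (h2.and hY0')).exists
    rw [map_inv₀, inv_le_one₀ (zero_lt_iff.2 ((Valuation.ne_zero_iff _).2 h6))] at h5
    exact absurd h4 (not_lt.2 h5)
  have hs0 : s ≠ 0 := by
    rintro rfl
    exact hs isAlgebraic_zero
  have hsO : s⁻¹ ∉ O := hsm s s' hs' hs0 (hw.mono fun n hn => hn.2.1)
  obtain ⟨v0, hv0, hv0O⟩ := val_ring hM O hOk ⟨_, hsO⟩
  have hlt : ∀ Y : M, Y ≠ 0 → Y⁻¹ ∉ O → v0 Y < 1 := by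
    intro Y hY0 hY
    rw [← hv0O, map_inv₀, not_le] at hY
    rwa [one_lt_inv₀ (zero_lt_iff.2 ((Valuation.ne_zero_iff _).2 hY0))] at hY
  have hv0s : v0 s < 1 := hlt s hs0 hsO
  have hv0b : v0 b < 1 := by
    by_cases hb0 : b = 0
    · rw [hb0, map_zero]
      exact zero_lt_one
    · exact hlt b hb0 (hsm b b' hb' hb0 (hw.mono fun n hn => hn.2.2))
  have hv0v : v0 = v := huniq v0 hv0 hv0s hv0b
  intro Y y hy
  rw [← hv0v, hv0O, hO, hP _ _ hy.symm]

end ult

end Pool.Agent.Helper79.UN
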