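import Pool.Agent.Helper79.UN.RE

set_option autoImplicit false

/-!
# Relations of bounded degree in an ultraproduct
-/

set_option linter.unusedSectionVars false

universe u

namespace Pool.Agent.Helper79.UN

open Filter
open IntermediateField
open Pool.Agent.Helper79.RG

/-- the value of a coefficient array -/
def evc {k L : Type*} [Field k] [Field L] [Algebra k L] {a b : ℕ} (c : Fin (a + 1) → Fin (b + 1) → k) (x z : L) : L :=
  ∑ i, ∑ j, algebraMap k L (c i j) * x ^ (i : ℕ) * z ^ (j : ℕ)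

section ult

variable {U : Ultrafilter ℕ} {k L : ℕ → Type u} [∀ i, Field (k i)] [∀ i, Field (L i)] [∀ i, Algebra (k i) (L i)]
  {K E : Type u} [Field K] [Field E] [Algebra K E] {πk : ((i : ℕ) → k i) →+* K} {πL : ((i : ℕ) → L i) →+* E}

theorem evc_ult (hc : ∀ a : (i : ℕ) → k i, algebraMap K E (πk a) = πL fun i => algebraMap (k i) (L i) (a i))
    {a b : ℕ} (γ : (n : ℕ) → Fin (a + 1) → Fin (b + 1) → k n) (x z : (n : ℕ) → L n) :
    evc (fun i j => πk fun n => γ n i j) (πL x) (πL z) = πL fun n => evc (γ n) (x n) (z n) := by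
  have h1 : (fun n => evc (γ n) (x n) (z n)) =
      ∑ i : Fin (a + 1), ∑ j : Fin (b + 1), (fun n => algebraMap (k n) (L n) (γ n i j)) * x ^ (i : ℕ) * z ^ (j : ℕ) := by
    funext n
    rw [Finset.sum_apply]
    refine Finset.sum_congr rfl fun i _ => ?_
    rw [Finset.sum_apply]
    rfl
  rw [h1, map_sum]
  refine Finset.sum_congr rfl fun i _ => ?_
  rw [map_sum]
  refine Finset.sum_congr rfl fun j _ => ?_
  rw [map_mul, map_mul, map_pow, map_pow, hc]

/-- Los for relations, first direction -/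
theorem rel_ult (hk : IsUlt U k K πk) (hL : IsUlt U L E πL)
    (hc : ∀ a : (i : ℕ) → k i, algebraMap K E (πk a) = πL fun i => algebraMap (k i) (L i) (a i))
    {a b : ℕ} {x z : (n : ℕ) → L n} (h : Rel K a b (πL x) (πL z)) :
    ∀ᶠ n in (U : Filter ℕ), Rel (k n) a b (x n) (z n) := by
  obtain ⟨c, ⟨i0, j0, hij⟩, hs⟩ := h
  choose γ hγ using fun i j => hk.surj (c i j)
  have h1 : ∀ᶠ n in (U : Filter ℕ), γ i0 j0 n ≠ 0 := by
    rw [← hk.ne_zero, hγ]
    exact hij
  have h2 : evc (fun i j => πk fun n => γ i j n) (πL x) (πL z) = 0 := by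
    have h3 : (fun i j => πk fun n => γ i j n) = c := by
      funext i j
      exact hγ i j
    rw [h3]
    exact hs
  rw [evc_ult hc (fun n i j => γ i j n), hL.eq_zero] at h2
  filter_upwards [h1, h2] with n hn1 hn2
  exact ⟨fun i j => γ i j n, ⟨i0, j0, hn1⟩, hn2⟩

/-- Los for relations, second direction, general form -/
theorem ult_rel_aux (hL : IsUlt U L E πL)
    (hc : ∀ a : (i : ℕ) → k i, algebraMap K E (πk a) = πL fun i => algebraMap (k i) (L i) (a i))
    {a b : ℕ} {x z : (n : ℕ) → L n} (P : (n : ℕ) → (Fin (a + 1) → Fin (b + 1) → k n) → Prop)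
    (h : ∀ᶠ n in (U : Filter ℕ), ∃ c, P n c ∧ evc c (x n) (z n) = 0) :
    ∃ γ : (n : ℕ) → Fin (a + 1) → Fin (b + 1) → k n, (∀ᶠ n in (U : Filter ℕ), P n (γ n)) ∧
      evc (fun i j => πk fun n => γ n i j) (πL x) (πL z) = 0 := by
  classical
  let γ : (n : ℕ) → Fin (a + 1) → Fin (b + 1) → k n := fun n =>
    if h : ∃ c, P n c ∧ evc c (x n) (z n) = 0 then h.choose else 0
  have hγ : ∀ᶠ n in (U : Filter ℕ), P n (γ n) ∧ evc (γ n) (x n) (z n) = 0 := by
    filter_upwards [h] with n hn
    have h1 : γ n = hn.choose := dif_pos hn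
    rw [h1]
    exact hn.choose_spec
  refine ⟨γ, hγ.mono fun n hn => hn.1, ?_⟩
  rw [evc_ult hc γ, hL.eq_zero]
  exact hγ.mono fun n hn => hn.2

/-- Los for relations, second direction -/
theorem ult_rel (hk : IsUlt U k K πk) (hL : IsUlt U L E πL)
    (hc : ∀ a : (i : ℕ) → k i, algebraMap K E (πk a) = πL fun i => algebraMap (k i) (L i) (a i))
    {a b : ℕ} {x z : (n : ℕ) → L n} (h : ∀ᶠ n in (U : Filter ℕ), Rel (k n) a b (x n) (z n)) :
    Rel K a b (πL x) (πL z) := by
  obtain ⟨γ, hγ, hs⟩ := ult_rel_aux hL hc (fun n c => ∃ i j, c i j ≠ 0) h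
  refine ⟨_, ?_, hs⟩
  by_contra hcon
  push Not at hcon
  have h1 : ∀ i j, ∀ᶠ n in (U : Filter ℕ), γ n i j = 0 := fun i j => (hk.eq_zero _).1 (hcon i j)
  have h2 : ∀ᶠ n in (U : Filter ℕ), ∀ i j, γ n i j = 0 :=
    Filter.eventually_all.2 fun i => Filter.eventually_all.2 fun j => h1 i j
  obtain ⟨n, hn1, i, j, hn2⟩ := (h2.and hγ).exists
  exact hn2 (hn1 i j)

/-- Los for relations with a constant term -/
theorem ult_rel0 (hk : IsUlt U k K πk) (hL : IsUlt U L E πL)
    (hc : ∀ a : (i : ℕ) → k i, algebraMap K E (πk a) = πL fun i => algebraMap (k i) (L i) (a i))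
    {a b : ℕ} {x z : (n : ℕ) → L n} (h : ∀ᶠ n in (U : Filter ℕ), ∃ c : Fin (a + 1) → Fin (b + 1) → k n,
      c 0 0 ≠ 0 ∧ evc c (x n) (z n) = 0) :
    ∃ c : Fin (a + 1) → Fin (b + 1) → K, c 0 0 ≠ 0 ∧ evc c (πL x) (πL z) = 0 := by
  obtain ⟨γ, hγ, hs⟩ := ult_rel_aux hL hc (fun n c => c 0 0 ≠ 0) h
  exact ⟨_, (hk.ne_zero _).2 hγ, hs⟩

/-- Los for transcendental elements, first direction -/
theorem trans_ult (hL : IsUlt U L E πL)
    (hc : ∀ a : (i : ℕ) → k i, algebraMap K E (πk a) = πL fun i => algebraMap (k i) (L i) (a i))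
    (hcl : ∀ i, IsAlgClosed (k i)) {x : (n : ℕ) → L n} (h : Transcendental K (πL x)) :
    ∀ᶠ n in (U : Filter ℕ), Transcendental (k n) (x n) := by
  classical
  by_contra hcon
  rw [← Ultrafilter.eventually_not] at hcon
  have h1 : ∀ᶠ n in (U : Filter ℕ), ∃ c : k n, algebraMap (k n) (L n) c = x n := by
    filter_upwards [hcon] with n hn
    have h2 : IsAlgebraic (k n) (x n) := not_not.1 hn
    have : IsAlgClosed (k n) := hcl n
    have h5 : x n ∈ (⊥ : Subalgebra (k n) (L n)) := by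
      have h7 : (minpoly (k n) (x n)).degree = 1 :=
        IsAlgClosed.degree_eq_one_of_irreducible (k n) (minpoly.irreducible h2.isIntegral)
      exact minpoly.mem_range_of_degree_eq_one (k n) (x n) h7
    exact h5
  let γ : (n : ℕ) → k n := fun n => if h : ∃ c : k n, algebraMap (k n) (L n) c = x n then h.choose else 0
  have h3 : algebraMap K E (πk γ) = πL x := by
    rw [hc, hL.eq_iff]
    filter_upwards [h1] with n hn
    have h4 : γ n = hn.choose := dif_pos hn
    rw [h4]
    exact hn.choose_spec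
  exact h (h3 ▸ isAlgebraic_algebraMap (πk γ))

/-- an algebraic element satisfies a relation of degree zero in the second variable -/
theorem rel_alg0 {k L : Type*} [Field k] [Field L] [Algebra k L] {x : L} (hx : IsAlgebraic k x) (z : L) :
    ∃ a, Rel k a 0 x z := by
  obtain ⟨P, hP, hPx⟩ := hx
  refine ⟨P.natDegree, fun i _ => P.coeff i, ⟨Fin.last _, 0, ?_⟩, ?_⟩
  · show P.coeff P.natDegree ≠ 0
    rw [Polynomial.coeff_natDegree]
    exact Polynomial.leadingCoeff_ne_zero.2 hP
  · rw [Polynomial.aeval_eq_sum_range, Finset.sum_range] at hPx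
    rw [← hPx]
    refine Finset.sum_congr rfl fun i _ => ?_
    simp [Algebra.smul_def]

theorem alg_of_rel0 {k L : Type*} [Field k] [Field L] [Algebra k L] {a : ℕ} {x z : L} (h : Rel k a 0 x z) :
    IsAlgebraic k x := by
  obtain ⟨c, ⟨i0, j0, hij⟩, hs⟩ := h
  let P : Polynomial k := ∑ i : Fin (a + 1), Polynomial.C (c i 0) * Polynomial.X ^ (i : ℕ)
  refine ⟨P, ?_, ?_⟩
  · intro h0
    have h1 : P.coeff i0 = c i0 0 := by
      show (∑ i : Fin (a + 1), Polynomial.C (c i 0) * Polynomial.X ^ (i : ℕ)).coeff i0 = _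
      rw [Polynomial.finset_sum_coeff]
      simp only [Polynomial.coeff_C_mul_X_pow]
      rw [Finset.sum_eq_single i0]
      · simp
      · intro i _ hi
        rw [if_neg]
        intro h
        exact hi (Fin.ext h.symm)
      · intro h
        exact absurd (Finset.mem_univ _) h
    rw [h0, Polynomial.coeff_zero] at h1
    have hj : j0 = 0 := by ext; omega
    rw [hj] at hij
    exact hij h1.symm
  · show Polynomial.aeval x (∑ i : Fin (a + 1), Polynomial.C (c i 0) * Polynomial.X ^ (i : ℕ)) = 0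
    rw [← hs, map_sum]
    refine Finset.sum_congr rfl fun i _ => ?_
    simp

/-- Los for transcendental elements, second direction -/
theorem ult_trans (hk : IsUlt U k K πk) (hL : IsUlt U L E πL)
    (hc : ∀ a : (i : ℕ) → k i, algebraMap K E (πk a) = πL fun i => algebraMap (k i) (L i) (a i))
    {x : (n : ℕ) → L n} (h : ∀ᶠ n in (U : Filter ℕ), Transcendental (k n) (x n)) : Transcendental K (πL x) := by
  intro hcon
  obtain ⟨a, ha⟩ := rel_alg0 hcon (πL x)
  obtain ⟨n, hn1, hn2⟩ := ((rel_ult hk hL hc ha).and h).exists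
  exact hn2 (alg_of_rel0 hn1)

end ult

end Pool.Agent.Helper79.UN
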