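import Pool.Agent.Helper79.UN.UP

set_option autoImplicit false

/-!
# Tame symbols in an ultraproduct of function fields
-/

set_option linter.unusedSectionVars false

universe u

namespace Pool.Agent.Helper79.UN

open scoped WithZero
open Filter
open IntermediateField
open Pool.Agent.Helper79.FE (VN)
open Pool.Agent.Helper79.RG

theorem log_zpow' {L : Type*} [Field L] (w : Valuation L ℤᵐ⁰) {x : L} (hx : x ≠ 0) (z : ℤ) :
    WithZero.log (w (x ^ z)) = z * WithZero.log (w x) := by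
  have h0 : w x ≠ 0 := (Valuation.ne_zero_iff w).2 hx
  rw [map_zpow₀, WithZero.log_zpow, smul_eq_mul]

theorem log_mul' {L : Type*} [Field L] (w : Valuation L ℤᵐ⁰) {x y : L} (hx : x ≠ 0) (hy : y ≠ 0) :
    WithZero.log (w (x * y)) = WithZero.log (w x) + WithZero.log (w y) := by
  rw [map_mul, WithZero.log_mul ((Valuation.ne_zero_iff w).2 hx) ((Valuation.ne_zero_iff w).2 hy)]

/-- powers congruent to one -/
theorem pow_one_dvd {L : Type*} [Field L] (w : Valuation L ℤᵐ⁰) {x : L} {m m' : ℕ} (hx : w x = 1)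
    (h : w (x ^ m - 1) < 1) (hd : m ∣ m') : w (x ^ m' - 1) < 1 := by
  obtain ⟨e, rfl⟩ := hd
  have h1 : x ^ (m * e) - 1 = (x ^ m - 1) * ∑ i ∈ Finset.range e, (x ^ m) ^ i := by
    rw [mul_comm (x ^ m - 1), geom_sum_mul, ← pow_mul]
  rw [h1, map_mul]
  refine (mul_le_of_le_one_right' ?_).trans_lt h
  refine Valuation.map_sum_le w fun i _ => ?_
  rw [map_pow, map_pow, hx, one_pow, one_pow]

section ult

variable {U : Ultrafilter ℕ} {k L : ℕ → Type u} [∀ i, Field (k i)] [∀ i, Field (L i)] [∀ i, Algebra (k i) (L i)]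
  {K E : Type u} [Field K] [Field E] [Algebra K E] {πk : ((i : ℕ) → k i) →+* K} {πL : ((i : ℕ) → L i) →+* E}

theorem ult_inv (hL : IsUlt U L E πL) (y : (n : ℕ) → L n) : πL (fun n => (y n)⁻¹) = (πL y)⁻¹ := by
  by_cases h : πL y = 0
  · rw [h, inv_zero, hL.eq_zero]
    rw [hL.eq_zero] at h
    filter_upwards [h] with n hn
    rw [hn, inv_zero]
  · refine eq_inv_of_mul_eq_one_left ?_
    rw [← map_mul, ← map_one πL, hL.eq_iff]
    rw [← Ne, hL.ne_zero] at h
    filter_upwards [h] with n hn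
    rw [Pi.mul_apply, Pi.one_apply, inv_mul_cancel₀ hn]

theorem ult_zpow (hL : IsUlt U L E πL) (y : (n : ℕ) → L n) (z : ℤ) : πL (fun n => (y n) ^ z) = (πL y) ^ z := by
  rcases z with z | z
  · have h1 : (fun n => (y n) ^ (Int.ofNat z)) = y ^ z := by
      funext n
      rw [Pi.pow_apply]
      exact zpow_natCast _ _
    rw [h1, map_pow]
    exact (zpow_natCast _ _).symm
  · have h1 : (fun n => (y n) ^ (Int.negSucc z)) = fun n => ((y ^ (z + 1)) n)⁻¹ := by
      funext n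
      rw [zpow_negSucc, Pi.pow_apply]
    rw [h1, ult_inv hL, map_pow, zpow_negSucc]

variable {M : IntermediateField K E} {v : Valuation M ℤᵐ⁰} {w : (n : ℕ) → Valuation (L n) ℤᵐ⁰}

theorem val_lt_iff (hL : IsUlt U L E πL)
    (hval : ∀ (Y : M) (y : (n : ℕ) → L n), (Y : E) = πL y → (v Y ≤ 1 ↔ ∀ᶠ n in (U : Filter ℕ), w n (y n) ≤ 1))
    {Y : M} {y : (n : ℕ) → L n} (hY : (Y : E) = πL y) : v Y < 1 ↔ ∀ᶠ n in (U : Filter ℕ), w n (y n) < 1 := by
  by_cases h0 : Y = 0
  · rw [h0, map_zero]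
    have h1 : ∀ᶠ n in (U : Filter ℕ), y n = 0 := by
      rw [← hL.eq_zero, ← hY, h0]
      rfl
    refine ⟨fun _ => ?_, fun _ => zero_lt_one⟩
    filter_upwards [h1] with n hn
    rw [hn, map_zero]
    exact zero_lt_one
  · have h1 : ∀ᶠ n in (U : Filter ℕ), y n ≠ 0 := by
      rw [← hL.ne_zero, ← hY]
      exact fun h => h0 (Subtype.ext h)
    have h2 := hval Y⁻¹ (fun n => (y n)⁻¹) (by
      rw [ult_inv hL, ← hY]
      rfl)
    have h3 : v Y < 1 ↔ ¬ v Y⁻¹ ≤ 1 := by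
      rw [map_inv₀, not_le, one_lt_inv₀ (zero_lt_iff.2 ((Valuation.ne_zero_iff _).2 h0))]
    rw [h3, h2, ← Ultrafilter.eventually_not]
    constructor
    · intro h
      filter_upwards [h, h1] with n hn1 hn2
      rwa [map_inv₀, not_le, one_lt_inv₀ (zero_lt_iff.2 ((Valuation.ne_zero_iff _).2 hn2))] at hn1
    · intro h
      filter_upwards [h, h1] with n hn1 hn2
      rwa [map_inv₀, not_le, one_lt_inv₀ (zero_lt_iff.2 ((Valuation.ne_zero_iff _).2 hn2))]

theorem val_eq_iff (hL : IsUlt U L E πL)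
    (hval : ∀ (Y : M) (y : (n : ℕ) → L n), (Y : E) = πL y → (v Y ≤ 1 ↔ ∀ᶠ n in (U : Filter ℕ), w n (y n) ≤ 1))
    {Y : M} {y : (n : ℕ) → L n} (hY : (Y : E) = πL y) : v Y = 1 ↔ ∀ᶠ n in (U : Filter ℕ), w n (y n) = 1 := by
  have h1 := hval Y y hY
  have h2 := val_lt_iff hL hval hY
  constructor
  · intro h
    have h3 : ¬ v Y < 1 := by rw [h]; exact lt_irrefl _
    rw [h2, ← Ultrafilter.eventually_not] at h3
    filter_upwards [h1.1 h.le, h3] with n hn1 hn2
    exact le_antisymm hn1 (not_lt.1 hn2)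
  · intro h
    refine le_antisymm (h1.2 (h.mono fun n hn => hn.le)) (not_lt.1 fun h3 => ?_)
    obtain ⟨n, hn1, hn2⟩ := (h.and (h2.1 h3)).exists
    exact hn2.ne hn1

/-- **tame symbols in an ultraproduct** -/
theorem tame_ult (hL : IsUlt U L E πL) (hch : ∀ n, CharZero (k n))
    (hvs : Function.Surjective v) (hw : ∀ᶠ n in (U : Filter ℕ), w n ∈ VN (k n) (L n))
    (hval : ∀ (Y : M) (y : (n : ℕ) → L n), (Y : E) = πL y → (v Y ≤ 1 ↔ ∀ᶠ n in (U : Filter ℕ), w n (y n) ≤ 1))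
    {D N : ℕ} {f g : (n : ℕ) → L n} {F G : M} (hF : (F : E) = πL f) (hG : (G : E) = πL g)
    (hf : ∀ᶠ n in (U : Filter ℕ), Transcendental (k n) (f n) ∧
      FiniteDimensional (k n)⟮f n⟯ (L n) ∧ Module.finrank (k n)⟮f n⟯ (L n) ≤ D)
    (hg : ∀ᶠ n in (U : Filter ℕ), Transcendental (k n) (g n) ∧
      FiniteDimensional (k n)⟮g n⟯ (L n) ∧ Module.finrank (k n)⟮g n⟯ (L n) ≤ D)
    (ht : ∀ᶠ n in (U : Filter ℕ), TameTors (w n) N (f n) (g n)) :
    TameTors v (2 * (N * D.factorial)) F G := by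
  -- nonzero elements
  have hf0 : ∀ᶠ n in (U : Filter ℕ), f n ≠ 0 := hf.mono fun n hn h => hn.1 (h ▸ isAlgebraic_zero)
  have hg0 : ∀ᶠ n in (U : Filter ℕ), g n ≠ 0 := hg.mono fun n hn h => hn.1 (h ▸ isAlgebraic_zero)
  have hF0 : F ≠ 0 := by
    rintro rfl
    have h1 : πL f = 0 := hF.symm
    rw [hL.eq_zero] at h1
    obtain ⟨n, h2, h3⟩ := (h1.and hf0).exists
    exact h3 h2
  have hG0 : G ≠ 0 := by
    rintro rfl
    have h1 : πL g = 0 := hG.symm
    rw [hL.eq_zero] at h1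
    obtain ⟨n, h2, h3⟩ := (h1.and hg0).exists
    exact h3 h2
  -- a uniformizer
  obtain ⟨t, htv⟩ := hvs (WithZero.exp (-1 : ℤ))
  have ht0 : t ≠ 0 := by
    rintro rfl
    rw [map_zero] at htv
    exact WithZero.exp_ne_zero htv.symm
  obtain ⟨t', ht'⟩ := hL.surj (t : E)
  have ht'0 : ∀ᶠ n in (U : Filter ℕ), t' n ≠ 0 := by
    rw [← hL.ne_zero, ht']
    exact fun h => ht0 (Subtype.ext h)
  have htlt : ∀ᶠ n in (U : Filter ℕ), w n (t' n) < 1 := by
    rw [← val_lt_iff hL hval ht'.symm, htv, ← WithZero.exp_zero, WithZero.exp_lt_exp]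
    norm_num
  -- orders
  have hord : ∀ (Y : M) (y : (n : ℕ) → L n), Y ≠ 0 → (Y : E) = πL y → (∀ᶠ n in (U : Filter ℕ), y n ≠ 0) →
      ∀ᶠ n in (U : Filter ℕ), WithZero.log (w n (y n)) =
        -(WithZero.log (v Y)) * WithZero.log (w n (t' n)) := by
    intro Y y hY0 hY hy0
    set r := WithZero.log (v Y) with hr
    have hvY : v Y = WithZero.exp r := (WithZero.exp_log ((Valuation.ne_zero_iff _).2 hY0)).symm
    have h1 : v (Y * t ^ r) = 1 := by
      rw [map_mul, map_zpow₀, htv, ← WithZero.exp_zsmul, hvY, ← WithZero.exp_add, smul_eq_mul,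
        show r + r * -1 = 0 by ring, WithZero.exp_zero]
    rw [val_eq_iff hL hval (y := fun n => y n * (t' n) ^ r) (by
      show (Y : E) * (t : E) ^ r = _
      rw [hY, ← ht', ← ult_zpow hL, ← map_mul]
      rfl)] at h1
    filter_upwards [h1, hy0, ht'0] with n hn1 hn2 hn3
    have h2 := congrArg WithZero.log hn1
    rw [log_mul' _ hn2 (zpow_ne_zero _ hn3), log_zpow' _ hn3, ← WithZero.exp_zero, WithZero.log_exp] at h2
    linarith
  have hof := hord F f hF0 hF hf0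
  have hog := hord G g hG0 hG hg0
  set a := WithZero.log (v F) with ha
  set b := WithZero.log (v G) with hb
  by_cases hab : a = 0 ∧ b = 0
  · unfold TameTors
    rw [← ha, ← hb, hab.1, hab.2, mul_zero, zpow_zero, zpow_zero, zpow_zero, mul_one, div_one, one_pow, sub_self,
      map_zero]
    exact zero_lt_one
  -- the bound for the ramification
  have hγ : ∀ᶠ n in (U : Filter ℕ), ∃ γ : ℕ, 0 < γ ∧ γ ∣ D.factorial ∧ WithZero.log (w n (t' n)) = -(γ : ℤ) := by
    filter_upwards [hf, hg, hof, hog, htlt, ht'0, hw] with n h1 h2 h3 h4 h5 h6 h7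
    have hwt : w n (t' n) ≠ 0 := (Valuation.ne_zero_iff _).2 h6
    obtain ⟨r, hr⟩ : ∃ r : ℤ, w n (t' n) = WithZero.exp r := ⟨_, (WithZero.exp_log hwt).symm⟩
    rw [hr, WithZero.log_exp] at h3 h4 ⊢
    have hr0 : r < 0 := by rwa [hr, ← WithZero.exp_zero, WithZero.exp_lt_exp] at h5
    have := hch n
    have := h1.2.1
    have := h2.2.1
    have h8 := val_bound h1.1 h7
    have h9 := val_bound h2.1 h7
    rw [h3] at h8
    rw [h4] at h9
    have hDf : ((Module.finrank (k n)⟮f n⟯ (L n) : ℕ) : ℤ) ≤ D := by exact_mod_cast h1.2.2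
    have hDg : ((Module.finrank (k n)⟮g n⟯ (L n) : ℕ) : ℤ) ≤ D := by exact_mod_cast h2.2.2
    have hrD : |r| ≤ D := by
      by_cases ha0 : a = 0
      · have hb0 : b ≠ 0 := fun h => hab ⟨ha0, h⟩
        have h10 : 1 ≤ |(-b)| := by
          rw [abs_neg]
          exact Int.one_le_abs hb0
        rw [abs_mul] at h9
        nlinarith [abs_nonneg r]
      · have h10 : 1 ≤ |(-a)| := by
          rw [abs_neg]
          exact Int.one_le_abs ha0
        rw [abs_mul] at h8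
        nlinarith [abs_nonneg r]
    rw [abs_of_neg hr0] at hrD
    refine ⟨(-r).toNat, by omega, Nat.dvd_factorial (by omega) (by omega), by omega⟩
  -- the tame symbols
  have hlast : ∀ᶠ n in (U : Filter ℕ), w n (((f n) ^ b / (g n) ^ a) ^ (2 * (N * D.factorial)) - 1) < 1 := by
    filter_upwards [hγ, hof, hog, ht, hf0, hg0] with n h1 h3 h4 h5 h6 h7
    obtain ⟨γ, hγ0, hγD, hγt⟩ := h1
    rw [hγt] at h3 h4
    have e3 : WithZero.log (w n (f n)) = a * γ := by rw [h3]; ring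
    have e4 : WithZero.log (w n (g n)) = b * γ := by rw [h4]; ring
    have hu : w n ((f n) ^ b / (g n) ^ a) = 1 := by
      have h8 : w n ((f n) ^ b / (g n) ^ a) ≠ 0 :=
        (Valuation.ne_zero_iff _).2 (div_ne_zero (zpow_ne_zero _ h6) (zpow_ne_zero _ h7))
      rw [← WithZero.exp_log h8, div_eq_mul_inv, log_mul' _ (zpow_ne_zero _ h6) (inv_ne_zero (zpow_ne_zero _ h7)),
        ← zpow_neg, log_zpow' _ h6, log_zpow' _ h7, e3, e4, show b * (a * γ) + -a * (b * γ) = 0 by ring,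
        WithZero.exp_zero]
    unfold TameTors at h5
    rw [e3, e4] at h5
    have h8 : (-1 : L n) ^ (a * γ * (b * γ)) * (f n) ^ (b * γ) / (g n) ^ (a * γ) =
        (-1 : L n) ^ (a * γ * (b * γ)) * ((f n) ^ b / (g n) ^ a) ^ γ := by
      rw [mul_div_assoc, zpow_mul (f n), zpow_mul (g n), zpow_natCast, zpow_natCast, div_pow]
    rw [h8] at h5
    have hs : ((-1 : L n) ^ (a * γ * (b * γ))) ^ 2 = 1 := by
      rw [← zpow_natCast ((-1 : L n) ^ (a * γ * (b * γ))) 2, ← zpow_mul,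
        show a * γ * (b * γ) * ((2 : ℕ) : ℤ) = 2 * (a * γ * (b * γ)) by push_cast; ring, zpow_mul]
      norm_num
    have h9 : w n (((-1 : L n) ^ (a * γ * (b * γ)) * ((f n) ^ b / (g n) ^ a) ^ γ)) = 1 := by
      rw [map_mul, map_pow, hu, one_pow, mul_one]
      have h10 := congrArg (w n) hs
      rw [map_pow, map_one] at h10
      exact (pow_eq_one_iff_of_nonneg zero_le two_ne_zero).1 h10
    have h11 := pow_one_dvd (w n) h9 h5 (Dvd.intro_left 2 rfl : N ∣ 2 * N)
    rw [mul_pow, pow_mul ((-1 : L n) ^ (a * γ * (b * γ))), hs, one_pow, one_mul, ← pow_mul] at h11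
    refine pow_one_dvd (w n) hu h11 ?_
    obtain ⟨e, he⟩ := hγD
    exact ⟨e, by rw [he]; ring⟩
  unfold TameTors
  rw [← ha, ← hb]
  have hs : ((-1 : M) ^ (a * b)) ^ (2 * (N * D.factorial)) = 1 := by
    rw [pow_mul, ← zpow_natCast ((-1 : M) ^ (a * b)) 2, ← zpow_mul,
      show a * b * ((2 : ℕ) : ℤ) = 2 * (a * b) by push_cast; ring, zpow_mul]
    norm_num
  rw [mul_div_assoc, mul_pow, hs, one_mul]
  rw [val_lt_iff hL hval (y := fun n => ((f n) ^ b / (g n) ^ a) ^ (2 * (N * D.factorial)) - 1)]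
  · exact hlast
  · show ((F : E) ^ b / (G : E) ^ a) ^ (2 * (N * D.factorial)) - 1 = _
    rw [hF, hG, ← ult_zpow hL, ← ult_zpow hL, div_eq_mul_inv, ← ult_inv hL, ← map_mul, ← map_pow, ← map_one πL,
      ← map_sub]
    congr 1
    funext n
    show ((f n) ^ b * ((g n) ^ a)⁻¹) ^ (2 * (N * D.factorial)) - 1 = _
    rw [div_eq_mul_inv]

end ult

end Pool.Agent.Helper79.UN
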