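import Pool.Agent.Helper79.UN.UT
import Pool.Agent.Helper79.UN.UC
import Pool.Agent.Helper79.UN.UK

set_option autoImplicit false

/-!
# Uniform boundedness of the number of classes of unramified symbols of bounded degree
-/

set_option linter.unusedSectionVars false

universe u

namespace Pool.Agent.Helper79.UN

open scoped WithZero
open Filter
open IntermediateField
open Pool.Agent.Helper79.FE (VN)
open Pool.Agent.TH826.MK (KQ symb unitPart)
open Pool.Agent.Helper537_Sym
open Pool.Agent.Helper79.RG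

/-- there is a function field of one variable with more than `n` classes -/
def Bad (D N n : ℕ) : Prop :=
  ∃ (k L : Type u) (_ : Field k) (_ : IsAlgClosed k) (_ : CharZero k) (_ : Field L) (_ : Algebra k L) (f g : ℕ → Lˣ),
    IsFun k L ∧ (∀ j, Transcendental k (f j : L) ∧ Module.finrank k⟮(f j : L)⟯ L ≤ D ∧ Transcendental k (g j : L) ∧
      Module.finrank k⟮(g j : L)⟯ L ≤ D ∧ ∀ v ∈ VN k L, TameTors v N (f j : L) (g j : L)) ∧
    ∀ i j, i < j → j ≤ n → ¬ ∃ y : KQ k 2, sy (f i) (g i) - sy (f j) (g j) = KQ.map 2 (algebraMap k L) y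

theorem not_bad (D : ℕ) {N : ℕ} (hN : 0 < N) : ¬ ∀ n, Bad.{u} D N n := by
  intro hbad
  choose k L ik ic ih iL ia f g hfun hfg hne using hbad
  let U : Ultrafilter ℕ := hyperfilter ℕ
  obtain ⟨K, E, iK, iE, iKE, πk, πL, hk, hL, hc⟩ := exists_ult U k L
  have hKc : IsAlgClosed K := ult_closed hk ic
  have hK0 : CharZero K := ult_char0 hk ih
  have hf : ∀ j, ∀ᶠ n in (U : Filter ℕ), Transcendental (k n) (f n j : L n) ∧
      FiniteDimensional (k n)⟮(f n j : L n)⟯ (L n) ∧ Module.finrank (k n)⟮(f n j : L n)⟯ (L n) ≤ D := fun j =>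
    Filter.Eventually.of_forall fun n => ⟨(hfg n j).1, (hfun n).alg (hfg n j).1, (hfg n j).2.1⟩
  have hg : ∀ j, ∀ᶠ n in (U : Filter ℕ), Transcendental (k n) (g n j : L n) ∧
      FiniteDimensional (k n)⟮(g n j : L n)⟯ (L n) ∧ Module.finrank (k n)⟮(g n j : L n)⟯ (L n) ≤ D := fun j =>
    Filter.Eventually.of_forall fun n => ⟨(hfg n j).2.2.1, (hfun n).alg (hfg n j).2.2.1, (hfg n j).2.2.2.1⟩
  obtain ⟨M, hM, -, hY⟩ := exists_clo hk hL hc (x := fun n => (f n 0 : L n)) (hf 0)
  choose F hF1 hF2 hF3 using fun j => hY (fun n => (f n j : L n)) (hf j)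
  choose G hG1 hG2 hG3 using fun j => hY (fun n => (g n j : L n)) (hg j)
  have hF0 : ∀ j, F j ≠ 0 := fun j h => hF2 j (h ▸ isAlgebraic_zero)
  have hG0 : ∀ j, G j ≠ 0 := fun j h => hG2 j (h ▸ isAlgebraic_zero)
  let FF : ℕ → Mˣ := fun j => Units.mk0 (F j) (hF0 j)
  let GG : ℕ → Mˣ := fun j => Units.mk0 (G j) (hG0 j)
  obtain ⟨m, e, he⟩ := bounded_degree hM D
  have hN' : 0 < 2 * (N * D.factorial) := by positivity
  have hfin := finite_classes hM e hN'
  have htame : ∀ j, ∀ v ∈ VN K M, TameTors v (2 * (N * D.factorial)) (F j) (G j) := by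
    intro j v hv
    obtain ⟨w, hw, hval⟩ := plift hk hL hc ic ih hfun hM hv
    refine tame_ult hL ih hv.1 hw hval (hF1 j) (hG1 j) (hf j) (hg j) ?_
    exact hw.mono fun n hn => (hfg n j).2.2.2.2 (w n) hn
  have hmem : ∀ j, (Submodule.Quotient.mk (sy (FF j) (GG j)) : KQ M 2 ⧸ LinearMap.range (KQ.map 2 (algebraMap K M))) ∈
      {z : KQ M 2 ⧸ LinearMap.range (KQ.map 2 (algebraMap K M)) | ∃ f g : Mˣ, Quo K e (f : M) ∧ Quo K e (g : M) ∧
      (∀ v ∈ VN K M, TameTors v (2 * (N * D.factorial)) (f : M) (g : M)) ∧ z = Submodule.Quotient.mk (sy f g)} :=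
    fun j => ⟨FF j, GG j, he _ (hF2 j) (hF3 j), he _ (hG2 j) (hG3 j), htame j, rfl⟩
  have := hfin.to_subtype
  obtain ⟨i, j, hij, heq⟩ := Finite.exists_ne_map_eq_of_infinite fun j : ℕ =>
    (⟨_, hmem j⟩ : {z : KQ M 2 ⧸ LinearMap.range (KQ.map 2 (algebraMap K M)) | ∃ f g : Mˣ, Quo K e (f : M) ∧
      Quo K e (g : M) ∧ (∀ v ∈ VN K M, TameTors v (2 * (N * D.factorial)) (f : M) (g : M)) ∧
      z = Submodule.Quotient.mk (sy f g)})
  have key : ∀ i j, i < j → (Submodule.Quotient.mk (sy (FF i) (GG i)) :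
      KQ M 2 ⧸ LinearMap.range (KQ.map 2 (algebraMap K M))) = Submodule.Quotient.mk (sy (FF j) (GG j)) → False := by
    intro i j hij h
    rw [Submodule.Quotient.eq] at h
    obtain ⟨y, hy⟩ := h
    have hME : Function.Injective (algebraMap M E) := (algebraMap M E).injective
    let up : Mˣ → Eˣ := Units.map ((algebraMap M E : M →+* E) : M →* E)
    have h1 : sy (up (FF i)) (up (GG i)) - sy (up (FF j)) (up (GG j)) = KQ.map 2 (algebraMap K E) y := by
      have h2 := congrArg (KQ.map 2 (algebraMap M E)) hy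
      rw [map_sub, map_sy', map_sy'] at h2
      rw [kmap_map (algebraMap K M) (algebraMap M E) (algebraMap K E) (fun x => rfl)] at h2
      exact h2.symm
    have h3 := ult_kq hk hL hc (fun n => f n i) (fun n => g n i) (fun n => f n j) (fun n => g n j) (up (FF i))
      (up (GG i)) (up (FF j)) (up (GG j)) (hF1 i) (hG1 i) (hF1 j) (hG1 j) y h1
    have h4 : ∀ᶠ n in (U : Filter ℕ), j ≤ n := by
      have h5 : {n : ℕ | j ≤ n}ᶜ.Finite := by
        refine (Set.finite_Iio j).subset fun n hn => ?_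
        rw [Set.mem_compl_iff, Set.mem_ofPred_eq, not_le] at hn
        exact hn
      have h6 : {n : ℕ | j ≤ n} ∈ (U : Filter ℕ) := Filter.hyperfilter_le_cofinite (by
        rw [Filter.mem_cofinite]
        exact h5)
      exact h6
    obtain ⟨n, h5, h6⟩ := (h3.and h4).exists
    exact hne n i j hij h6 h5
  have heq' := congrArg Subtype.val heq
  rcases lt_or_gt_of_ne hij with h | h
  · exact key i j h heq'
  · exact key j i h heq'.symm

/-- **uniform boundedness**, algebraically closed fields of constants -/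
theorem uniform_core (D : ℕ) {N : ℕ} (hN : 0 < N) : ∃ B : ℕ, ∀ (k L : Type u) [Field k] [IsAlgClosed k] [CharZero k]
    [Field L] [Algebra k L], IsFun k L → ∀ S : Set (KQ L 2 ⧸ LinearMap.range (KQ.map 2 (algebraMap k L))),
    (∀ z ∈ S, ∃ f g : Lˣ, Transcendental k (f : L) ∧ Module.finrank k⟮(f : L)⟯ L ≤ D ∧ Transcendental k (g : L) ∧
      Module.finrank k⟮(g : L)⟯ L ≤ D ∧ (∀ v ∈ VN k L, TameTors v N (f : L) (g : L)) ∧
      z = Submodule.Quotient.mk (sy f g)) → S.encard ≤ B := by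
  have h := not_bad.{u} D hN
  push Not at h
  obtain ⟨n, hn⟩ := h
  refine ⟨n, fun k L _ _ _ _ _ hL S hS => ?_⟩
  by_contra hcon
  push Not at hcon
  apply hn
  -- choose `n + 1` elements
  have h1 : ((n + 1 : ℕ) : ℕ∞) ≤ S.encard := by
    rw [Nat.cast_add, Nat.cast_one]
    exact Order.add_one_le_of_lt hcon
  obtain ⟨T, hTS, hT⟩ := Set.exists_subset_encard_eq h1
  have hTf : T.Finite := Set.finite_of_encard_eq_coe hT
  have := hTf.to_subtype
  have hcard : Nat.card T = n + 1 := by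
    rw [Nat.card_coe_set_eq, Set.ncard_def, hT]
    rfl
  let ε : T ≃ Fin (n + 1) := Finite.equivFinOfCardEq hcard
  let p : ℕ → KQ L 2 ⧸ LinearMap.range (KQ.map 2 (algebraMap k L)) := fun j =>
    (ε.symm ⟨min j n, by omega⟩ : T)
  have hp : ∀ j, p j ∈ S := fun j => hTS (ε.symm ⟨min j n, by omega⟩).2
  choose f g hf1 hf2 hg1 hg2 hfg hz using fun j => hS _ (hp j)
  refine ⟨k, L, inferInstance, inferInstance, inferInstance, inferInstance, inferInstance, f, g, hL,
    fun j => ⟨hf1 j, hf2 j, hg1 j, hg2 j, hfg j⟩, ?_⟩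
  rintro i j hij hjn ⟨y, hy⟩
  have h2 : p i = p j := by
    rw [hz, hz, Submodule.Quotient.eq, hy]
    exact ⟨y, rfl⟩
  have h3 : ε.symm ⟨min i n, by omega⟩ = ε.symm ⟨min j n, by omega⟩ := Subtype.ext h2
  have h4 := congrArg Fin.val (ε.symm.injective h3)
  simp only at h4
  omega

end Pool.Agent.Helper79.UN
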