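import Pool.Agent.Helper79.UN.UU
import Pool.Agent.Helper79.UN.NU
import Pool.Agent.Helper79.RG.TI

set_option autoImplicit false

/-!
# Uniform boundedness over fields with few roots of unity
-/

set_option linter.unusedSectionVars false

universe u

namespace Pool.Agent.Helper79.UN

open scoped WithZero
open Filter
open IntermediateField
open Pool.Agent.Helper79.FE
open Pool.Agent.TH826.MK (KQ symb unitPart)
open Pool.Agent.Helper537_Sym
open Pool.Agent.Helper79.RG

/-- **uniform boundedness**, fields with a bound for the roots of unity -/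
theorem uniform_rb (D B0 : ℕ) : ∃ B : ℕ, ∀ (K L : Type u) [Field K] [CharZero K] [Field L] [Algebra K L],
    RB K D B0 → IsFun K L → (∀ x : L, IsAlgebraic K x → ∃ c : K, algebraMap K L c = x) →
    {z : KQ L 2 ⧸ LinearMap.range (KQ.map 2 (algebraMap K L)) | ∃ f g : Lˣ, (Module.finrank K⟮(f : L)⟯ L ≤ D ∧
      Module.finrank K⟮(g : L)⟯ L ≤ D ∧ ∀ v ∈ VN K L, sy f g ∈ unitPart v 2) ∧
      z = Submodule.Quotient.mk (sy f g)}.encard ≤ B := by
  by_cases hB0 : 0 < B0
  swap
  · exact ⟨0, fun K L _ _ _ _ hRB => absurd hRB.1 hB0⟩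
  obtain ⟨B, hB⟩ := uniform_core.{u} D (N := 2 * B0) (by omega)
  refine ⟨B + 1, fun K L _ _ _ _ hRB hL hK => ?_⟩
  obtain ⟨k, L0, _, _, _, _, _, _, _, _, _, _, _, hL0, htr, hdeg⟩ := exists_bc hL
  have hLL0 : Algebra.IsAlgebraic L L0 := by
    obtain ⟨x, hx, -⟩ := hL
    have := hL0.alg (htr x hx)
    exact alg_bc (K := K) (k := k) x
  -- the map on quotients
  let Φ : (KQ L 2 ⧸ LinearMap.range (KQ.map 2 (algebraMap K L))) →ₗ[ℚ]
      (KQ L0 2 ⧸ LinearMap.range (KQ.map 2 (algebraMap k L0))) :=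
    Submodule.mapQ _ _ (KQ.map 2 (algebraMap L L0)) (by
      rintro _ ⟨y, rfl⟩
      refine ⟨KQ.map 2 (algebraMap K k) y, ?_⟩
      rw [kmap_map (algebraMap K k) (algebraMap k L0) (algebraMap K L0)
        (fun x => (IsScalarTower.algebraMap_apply K k L0 x).symm),
        kmap_map (algebraMap K L) (algebraMap L L0) (algebraMap K L0)
        (fun x => (IsScalarTower.algebraMap_apply K L L0 x).symm)])
  have hΦ : Function.Injective Φ := by
    rw [injective_iff_map_eq_zero]
    intro z hz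
    obtain ⟨δ, rfl⟩ := Submodule.Quotient.mk_surjective _ z
    have h1 : Φ (Submodule.Quotient.mk δ) = Submodule.Quotient.mk (KQ.map 2 (algebraMap L L0) δ) := rfl
    rw [h1, Submodule.Quotient.mk_eq_zero] at hz
    obtain ⟨y, hy⟩ := hz
    rw [Submodule.Quotient.mk_eq_zero]
    exact descent hK δ y hy.symm
  set S1 := {z : KQ L0 2 ⧸ LinearMap.range (KQ.map 2 (algebraMap k L0)) | ∃ f g : L0ˣ, Transcendental k (f : L0) ∧
    Module.finrank k⟮(f : L0)⟯ L0 ≤ D ∧ Transcendental k (g : L0) ∧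
      Module.finrank k⟮(g : L0)⟯ L0 ≤ D ∧ (∀ v ∈ VN k L0, TameTors v (2 * B0) (f : L0) (g : L0)) ∧
      z = Submodule.Quotient.mk (sy f g)} with hS1
  have hS1B : S1.encard ≤ B := hB k L0 hL0 S1 fun z hz => hz
  rw [← hΦ.encard_image]
  have hsub : Φ '' {z : KQ L 2 ⧸ LinearMap.range (KQ.map 2 (algebraMap K L)) | ∃ f g : Lˣ,
      (Module.finrank K⟮(f : L)⟯ L ≤ D ∧ Module.finrank K⟮(g : L)⟯ L ≤ D ∧ ∀ v ∈ VN K L, sy f g ∈ unitPart v 2) ∧
      z = Submodule.Quotient.mk (sy f g)} ⊆ S1 ∪ {0} := by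
    rintro _ ⟨z, ⟨f, g, ⟨hfd, hgd, hun⟩, rfl⟩, rfl⟩
    by_cases hf : Transcendental K (f : L)
    · by_cases hg : Transcendental K (g : L)
      · left
        refine ⟨Units.map ((algebraMap L L0 : L →+* L0) : L →* L0) f,
          Units.map ((algebraMap L L0 : L →+* L0) : L →* L0) g, htr _ hf, (hdeg _ hf).trans hfd, htr _ hg,
          (hdeg _ hg).trans hgd, fun v hv => ?_, ?_⟩
        · refine tame_bound_expl K hRB f g (hL.alg hf) hfd (hL.alg hg) hgd hun v fun x hx => ?_
          rw [← IsScalarTower.algebraMap_apply K L L0, IsScalarTower.algebraMap_apply K k L0]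
          exact hv.2 _ ((map_ne_zero _).2 hx)
        · show Submodule.Quotient.mk (KQ.map 2 (algebraMap L L0) (sy f g)) = _
          rw [map_sy']
      · right
        have hg' : ∃ a : K, algebraMap K L a = g := by
          obtain ⟨c, hc⟩ := hK g (not_not.1 hg)
          exact ⟨c, hc⟩
        have h1 : sy f g = 0 := by
          rw [sy_swap, one_const' hL g f (fun v hv => unitPart_swap v f g (hun v hv)) hg' hf, neg_zero]
        rw [h1, Submodule.Quotient.mk_zero, map_zero]
        rfl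
    · right
      obtain ⟨a, ha⟩ := hK f (not_not.1 hf)
      by_cases hg : Transcendental K (g : L)
      · rw [one_const' hL f g hun ⟨a, ha⟩ hg, Submodule.Quotient.mk_zero, map_zero]
        rfl
      · obtain ⟨b, hb⟩ := hK g (not_not.1 hg)
        obtain ⟨a', ha'⟩ := unit_sub a f ha
        obtain ⟨b', hb'⟩ := unit_sub b g hb
        have h1 : (Submodule.Quotient.mk (sy f g) : KQ L 2 ⧸ LinearMap.range (KQ.map 2 (algebraMap K L))) = 0 := by
          rw [Submodule.Quotient.mk_eq_zero]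
          exact ⟨sy a' b', by rw [map_sy', ha', hb']⟩
        rw [h1, map_zero]
        rfl
  calc (Φ '' _).encard ≤ (S1 ∪ {0}).encard := Set.encard_le_encard hsub
    _ ≤ S1.encard + ({0} : Set _).encard := Set.encard_union_le _ _
    _ ≤ (B : ℕ∞) + 1 := by
        rw [Set.encard_singleton]
        exact add_le_add hS1B le_rfl
    _ = ((B + 1 : ℕ) : ℕ∞) := by rw [Nat.cast_add, Nat.cast_one]

/-- **uniform boundedness**, fields whose algebraic numbers are of degree at most `n` -/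
theorem uniform_classes (D n : ℕ) : ∃ B : ℕ, ∀ (K L : Type u) [Field K] [CharZero K] [Field L] [Algebra K L],
    (∀ x : K, IsAlgebraic ℚ x → (minpoly ℚ x).natDegree ≤ n) → IsFun K L →
    (∀ x : L, IsAlgebraic K x → ∃ c : K, algebraMap K L c = x) →
    {z : KQ L 2 ⧸ LinearMap.range (KQ.map 2 (algebraMap K L)) | ∃ f g : Lˣ, (Module.finrank K⟮(f : L)⟯ L ≤ D ∧
      Module.finrank K⟮(g : L)⟯ L ≤ D ∧ ∀ v ∈ VN K L, sy f g ∈ unitPart v 2) ∧
      z = Submodule.Quotient.mk (sy f g)}.encard ≤ B := by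
  obtain ⟨B, hB⟩ := uniform_rb.{u} D (n * D * (n * D + 1)).factorial
  exact ⟨B, fun K L _ _ _ _ hn hL hK => hB K L (rb_unif K hn D) hL hK⟩

end Pool.Agent.Helper79.UN
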