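import Pool.Agent.Helper79.UN.UV
import Pool.Agent.Helper79.RG.VX

set_option autoImplicit false

/-!
# Uniform boundedness for varieties
-/

set_option linter.unusedSectionVars false

universe u

namespace Pool.Agent.Helper79.UN

open scoped WithZero
open Filter
open IntermediateField
open Pool.Agent.Helper79.FE
open Pool.Agent.TH826.MK (KQ symb unitPart)
open Pool.Agent.Helper537_Sym
open Pool.Agent.Helper79.RG

/-- the one-dimensional case, inside the algebraic closure of `L` -/
theorem uniform_curve (D B0 : ℕ) : ∃ B : ℕ, ∀ (K L : Type u) [Field K] [CharZero K] [Field L] [Algebra K L],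
    RB K D B0 → IsFun K L → ∀ (C : Type u) [Field C] [Algebra C (AlgebraicClosure L)],
    (∀ x : AlgebraicClosure L, IsAlgebraic K x → ∃ c : C, algebraMap C (AlgebraicClosure L) c = x) →
    {z : KQ (AlgebraicClosure L) 2 ⧸ LinearMap.range (KQ.map 2 (algebraMap C (AlgebraicClosure L))) |
      ∃ f g : Lˣ, Module.finrank K⟮(f : L)⟯ L ≤ D ∧ Module.finrank K⟮(g : L)⟯ L ≤ D ∧
      (∀ v ∈ VN K L, sy f g ∈ unitPart v 2) ∧
      z = Submodule.Quotient.mk (KQ.map 2 (algebraMap L (AlgebraicClosure L)) (sy f g))}.encard ≤ B := by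
  by_cases hB0 : 0 < B0
  swap
  · exact ⟨0, fun K L _ _ _ _ hRB => absurd hRB.1 hB0⟩
  obtain ⟨B, hB⟩ := uniform_core.{u} D (N := 2 * B0) (by omega)
  refine ⟨B + 1, fun K L _ _ _ _ hRB hL C _ _ hC => ?_⟩
  obtain ⟨k, L0, _, _, _, _, _, _, _, _, _, _, _, _, _, _, _, _, hL0, htr, hdeg⟩ := exists_bc2 hL
  -- `k → C`
  obtain ⟨i, hi⟩ := exists_hom (R1 := k) (R2 := C) (L := AlgebraicClosure L)
    (algebraMap C (AlgebraicClosure L)).injective (fun a => hC _ (by
      exact (Algebra.IsAlgebraic.isAlgebraic (R := K) a).algebraMap))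
  let Φ : (KQ L0 2 ⧸ LinearMap.range (KQ.map 2 (algebraMap k L0))) →ₗ[ℚ]
      (KQ (AlgebraicClosure L) 2 ⧸ LinearMap.range (KQ.map 2 (algebraMap C (AlgebraicClosure L)))) :=
    Submodule.mapQ _ _ (KQ.map 2 (algebraMap L0 (AlgebraicClosure L))) (by
      rintro _ ⟨y, rfl⟩
      refine ⟨KQ.map 2 i y, ?_⟩
      rw [kmap_map i (algebraMap C (AlgebraicClosure L)) (algebraMap k (AlgebraicClosure L)) hi,
        kmap_map (algebraMap k L0) (algebraMap L0 (AlgebraicClosure L)) (algebraMap k (AlgebraicClosure L))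
        (fun x => (IsScalarTower.algebraMap_apply k L0 (AlgebraicClosure L) x).symm)])
  set S1 := {z : KQ L0 2 ⧸ LinearMap.range (KQ.map 2 (algebraMap k L0)) | ∃ f g : L0ˣ, Transcendental k (f : L0) ∧
    Module.finrank k⟮(f : L0)⟯ L0 ≤ D ∧ Transcendental k (g : L0) ∧
      Module.finrank k⟮(g : L0)⟯ L0 ≤ D ∧ (∀ v ∈ VN k L0, TameTors v (2 * B0) (f : L0) (g : L0)) ∧
      z = Submodule.Quotient.mk (sy f g)} with hS1
  have hS1B : S1.encard ≤ B := hB k L0 hL0 S1 fun z hz => hz
  have hsub : {z : KQ (AlgebraicClosure L) 2 ⧸ LinearMap.range (KQ.map 2 (algebraMap C (AlgebraicClosure L))) |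
      ∃ f g : Lˣ, Module.finrank K⟮(f : L)⟯ L ≤ D ∧ Module.finrank K⟮(g : L)⟯ L ≤ D ∧
      (∀ v ∈ VN K L, sy f g ∈ unitPart v 2) ∧
      z = Submodule.Quotient.mk (KQ.map 2 (algebraMap L (AlgebraicClosure L)) (sy f g))} ⊆ Φ '' S1 ∪ {0} := by
    rintro z ⟨f, g, hfd, hgd, hun, rfl⟩
    by_cases hf : Transcendental K (f : L)
    · by_cases hg : Transcendental K (g : L)
      · left
        let f0 : L0ˣ := Units.map ((algebraMap L L0 : L →+* L0) : L →* L0) f
        let g0 : L0ˣ := Units.map ((algebraMap L L0 : L →+* L0) : L →* L0) g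
        have hm : (Submodule.Quotient.mk (sy f0 g0) : KQ L0 2 ⧸ LinearMap.range (KQ.map 2 (algebraMap k L0))) ∈ S1 := by
          refine ⟨f0, g0, htr (f : L) hf, (hdeg (f : L) hf).trans hfd, htr (g : L) hg,
            (hdeg (g : L) hg).trans hgd, fun v hv => ?_, rfl⟩
          refine tame_bound_expl K hRB f g (hL.alg hf) hfd (hL.alg hg) hgd hun v fun x hx => ?_
          rw [← IsScalarTower.algebraMap_apply K L L0, IsScalarTower.algebraMap_apply K k L0]
          exact hv.2 _ ((map_ne_zero _).2 hx)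
        refine ⟨_, hm, ?_⟩
        show Submodule.Quotient.mk (KQ.map 2 (algebraMap L0 (AlgebraicClosure L)) (sy f0 g0)) = _
        have h3 : sy f0 g0 = KQ.map 2 (algebraMap L L0) (sy f g) := by rw [map_sy']
        rw [h3, kmap_map (algebraMap L L0) (algebraMap L0 (AlgebraicClosure L)) (algebraMap L (AlgebraicClosure L))
          (fun x => (IsScalarTower.algebraMap_apply L L0 (AlgebraicClosure L) x).symm)]
      · right
        have h1 : sy f g = 0 := by
          rw [sy_swap, one_alg hL g f (fun v hv => unitPart_swap v f g (hun v hv)) (not_not.1 hg) hf, neg_zero]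
        rw [h1, map_zero, Submodule.Quotient.mk_zero]
        rfl
    · right
      by_cases hg : Transcendental K (g : L)
      · rw [one_alg hL f g hun (not_not.1 hf) hg, map_zero, Submodule.Quotient.mk_zero]
        rfl
      · obtain ⟨a, ha⟩ := hC (algebraMap L (AlgebraicClosure L) (f : L)) (not_not.1 hf).algebraMap
        obtain ⟨b, hb⟩ := hC (algebraMap L (AlgebraicClosure L) (g : L)) (not_not.1 hg).algebraMap
        let F : (AlgebraicClosure L)ˣ := Units.map ((algebraMap L (AlgebraicClosure L) : L →+* _) : L →* _) f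
        let G : (AlgebraicClosure L)ˣ := Units.map ((algebraMap L (AlgebraicClosure L) : L →+* _) : L →* _) g
        have hF : algebraMap C (AlgebraicClosure L) a = (F : AlgebraicClosure L) := ha
        have hG : algebraMap C (AlgebraicClosure L) b = (G : AlgebraicClosure L) := hb
        obtain ⟨a', ha'⟩ := unit_sub a F hF
        obtain ⟨b', hb'⟩ := unit_sub b G hG
        rw [map_sy']
        have h2 : (Submodule.Quotient.mk (sy F G) :
            KQ (AlgebraicClosure L) 2 ⧸ LinearMap.range (KQ.map 2 (algebraMap C (AlgebraicClosure L)))) = 0 := by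
          rw [Submodule.Quotient.mk_eq_zero]
          exact ⟨sy a' b', by rw [map_sy', ha', hb']⟩
        exact h2
  calc _ ≤ (Φ '' S1 ∪ {0}).encard := Set.encard_le_encard hsub
    _ ≤ (Φ '' S1).encard + ({0} : Set _).encard := Set.encard_union_le _ _
    _ ≤ (B : ℕ∞) + 1 := by
        rw [Set.encard_singleton]
        exact add_le_add ((Set.encard_image_le _ _).trans hS1B) le_rfl
    _ = ((B + 1 : ℕ) : ℕ∞) := by rw [Nat.cast_add, Nat.cast_one]

theorem encard_pi_le {ι : Type*} [Finite ι] {X : ι → Type*} (Z : (i : ι) → Set (X i)) (B : ℕ)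
    (hZ : ∀ i, (Z i).encard ≤ B) : (Set.pi Set.univ Z).encard ≤ ((B ^ Nat.card ι : ℕ) : ℕ∞) := by
  classical
  have := Fintype.ofFinite ι
  have hfin : ∀ i, (Z i).Finite := fun i => Set.finite_of_encard_le_coe (hZ i)
  have h1 : Set.pi Set.univ Z = ↑(Fintype.piFinset fun i => (hfin i).toFinset) := by
    rw [Fintype.coe_piFinset]
    congr 1
    funext i
    rw [Set.Finite.coe_toFinset]
  rw [h1, Set.encard_coe_eq_coe_finsetCard, Fintype.card_piFinset, Nat.card_eq_fintype_card]
  refine Nat.cast_le.2 ?_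
  calc ∏ i, (hfin i).toFinset.card ≤ ∏ _i : ι, B := by
        refine Finset.prod_le_prod' fun i _ => ?_
        have h2 := hZ i
        rw [(hfin i).encard_eq_coe_toFinset_card] at h2
        exact_mod_cast h2
    _ = B ^ Fintype.card ι := by rw [Finset.prod_const, Finset.card_univ]

/-- **uniform boundedness**, finitely generated extensions -/
theorem uniform_var_rb (D B0 d : ℕ) : ∃ B : ℕ, ∀ (K L : Type u) [Field K] [CharZero K] [Field L] [Algebra K L],
    RB K D B0 → (∃ S : Finset L, IntermediateField.adjoin K (S : Set L) = ⊤) →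
    (∀ x : L, IsAlgebraic K x → ∃ c : K, algebraMap K L c = x) → ∀ u : Set L, u.Finite → u.ncard ≤ d →
    IsTranscendenceBasis K ((↑) : u → L) →
    {z : KQ L 2 ⧸ LinearMap.range (KQ.map 2 (algebraMap K L)) | ∃ f g : Lˣ,
      ((∀ t ∈ u, Module.finrank (IntermediateField.adjoin K (u \ {t}))⟮(f : L)⟯ L ≤ D ∧
        Module.finrank (IntermediateField.adjoin K (u \ {t}))⟮(g : L)⟯ L ≤ D) ∧
      ∀ v ∈ VN K L, sy f g ∈ unitPart v 2) ∧ z = Submodule.Quotient.mk (sy f g)}.encard ≤ B := by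
  obtain ⟨B, hB⟩ := uniform_curve.{u} D B0
  refine ⟨(B + 1) ^ d, fun K L _ _ _ _ hRB hfg hK u hufin hud hu => ?_⟩
  classical
  obtain ⟨S, hS⟩ := hfg
  have hLc : CharZero L := charZero_of_injective_algebraMap (algebraMap K L).injective
  let Ω := AlgebraicClosure L
  have hufin' : Finite u := hufin.to_subtype
  -- the constants of the intermediate fields
  have hKu : ∀ j : L, (∀ x : IntermediateField.adjoin K (u \ {j}), IsAlgebraic K x →
      ∃ c : K, algebraMap K (IntermediateField.adjoin K (u \ {j})) c = x) := by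
    intro j x hx
    obtain ⟨c, hc⟩ := hK (x : L) (hx.algebraMap)
    exact ⟨c, Subtype.ext hc⟩
  -- the finite sets
  let Z : (j : u) → Set (KQ Ω 2 ⧸ LinearMap.range (KQ.map 2 (algebraMap (KA K Ω (u \ {(j : L)})) Ω))) := fun j =>
    {z | ∃ f g : Lˣ, Module.finrank (IntermediateField.adjoin K (u \ {(j : L)}))⟮(f : L)⟯ L ≤ D ∧
        Module.finrank (IntermediateField.adjoin K (u \ {(j : L)}))⟮(g : L)⟯ L ≤ D ∧
        (∀ v ∈ VN (IntermediateField.adjoin K (u \ {(j : L)})) L, sy f g ∈ unitPart v 2) ∧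
      z = Submodule.Quotient.mk (KQ.map 2 (algebraMap L Ω) (sy f g))}
  have hZ : ∀ j, (Z j).encard ≤ ((B + 1 : ℕ) : ℕ∞) := by
    intro j
    refine (hB (IntermediateField.adjoin K (u \ {(j : L)})) L (rb_ext (hKu j) hRB) (basis_isFun hu S hS j.2)
      (KA K Ω (u \ {(j : L)})) (fun x hx => ?_)).trans (by exact_mod_cast Nat.le_succ B)
    exact ⟨⟨x, (mem_KA Ω _ x).2 hx⟩, rfl⟩
  -- the map
  have hle : ∀ j : u, LinearMap.range (KQ.map 2 (algebraMap K L)) ≤
      LinearMap.ker ((LinearMap.range (KQ.map 2 (algebraMap (KA K Ω (u \ {(j : L)})) Ω))).mkQ.comp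
        (KQ.map 2 (algebraMap L Ω))) := by
    rintro j _ ⟨y, rfl⟩
    rw [LinearMap.mem_ker, LinearMap.comp_apply, Submodule.mkQ_apply, Submodule.Quotient.mk_eq_zero]
    refine ⟨KQ.map 2 (algebraMap K (KA K Ω (u \ {(j : L)}))) y, ?_⟩
    rw [kmap_map (algebraMap K (KA K Ω (u \ {(j : L)}))) (algebraMap _ Ω) (algebraMap K Ω) (fun x => rfl),
      kmap_map (algebraMap K L) (algebraMap L Ω) (algebraMap K Ω)
        (fun x => (IsScalarTower.algebraMap_apply K L Ω x).symm)]
  let Ψ : (KQ L 2 ⧸ LinearMap.range (KQ.map 2 (algebraMap K L))) →ₗ[ℚ]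
      ((j : u) → (KQ Ω 2 ⧸ LinearMap.range (KQ.map 2 (algebraMap (KA K Ω (u \ {(j : L)})) Ω)))) :=
    LinearMap.pi fun j => (LinearMap.range (KQ.map 2 (algebraMap K L))).liftQ _ (hle j)
  have hΨ : ∀ (x : KQ L 2) (j : u), Ψ (Submodule.Quotient.mk x) j =
      Submodule.Quotient.mk (KQ.map 2 (algebraMap L Ω) x) := fun x j => rfl
  have hinj : Function.Injective Ψ := by
    rw [injective_iff_map_eq_zero]
    intro z hz
    obtain ⟨δ, rfl⟩ := Submodule.Quotient.mk_surjective _ z
    rw [Submodule.Quotient.mk_eq_zero]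
    have h1 : ∀ j ∈ u, KQ.map 2 (algebraMap L Ω) δ ∈
        LinearMap.range (KQ.map 2 (algebraMap (KA K Ω (u \ {j})) Ω)) := by
      intro j hj
      have h2 := congrFun hz ⟨j, hj⟩
      rw [hΨ] at h2
      exact (Submodule.Quotient.mk_eq_zero _).1 h2
    have h3 := inter_all u hu _ h1 hufin.toFinset (by rw [hufin.coe_toFinset])
    rw [hufin.coe_toFinset, Set.diff_self] at h3
    obtain ⟨y, hy⟩ := h3
    have c1 := KA_closed (K := K) Ω (∅ : Set L)
    have c2 : Algebra.IsAlgebraic K (KA K Ω (∅ : Set L)) := by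
      constructor
      intro x
      have h4 := (mem_KA Ω (∅ : Set L) (x : Ω)).1 x.2
      refine alg_over (Ω := Ω) (F1 := IntermediateField.adjoin K (∅ : Set L)) (fun a => ?_) x h4
      have h5 : (a : L) ∈ (⊥ : IntermediateField K L) := by
        rw [← IntermediateField.adjoin_empty]
        exact a.2
      obtain ⟨c, hc⟩ := IntermediateField.mem_bot.1 h5
      refine ⟨c, ?_⟩
      have h6 : algebraMap (IntermediateField.adjoin K (∅ : Set L)) Ω a = algebraMap L Ω (a : L) := rfl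
      rw [h6, ← hc, ← IsScalarTower.algebraMap_apply K L Ω]
      rfl
    exact descent hK δ y hy.symm
  rw [← hinj.encard_image]
  refine (Set.encard_le_encard (t := Set.pi Set.univ Z) ?_).trans ((encard_pi_le Z (B + 1) hZ).trans ?_)
  · rintro _ ⟨z, ⟨f, g, ⟨hfg, hun⟩, rfl⟩, rfl⟩ j _
    refine ⟨f, g, (hfg j j.2).1, (hfg j j.2).2, fun v hv => hun v ⟨hv.1, fun x hx => ?_⟩, hΨ _ _⟩
    rw [IsScalarTower.algebraMap_apply K (IntermediateField.adjoin K (u \ {(j : L)})) L]
    exact hv.2 _ ((map_ne_zero _).2 hx)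
  · rw [Nat.card_coe_set_eq]
    refine Nat.cast_le.2 ?_
    exact Nat.pow_le_pow_right (by omega) hud

/-- **uniform boundedness**, varieties -/
theorem uniform_var (D n d : ℕ) : ∃ B : ℕ, ∀ (K L : Type u) [Field K] [CharZero K] [Field L] [Algebra K L],
    (∀ x : K, IsAlgebraic ℚ x → (minpoly ℚ x).natDegree ≤ n) →
    (∃ S : Finset L, IntermediateField.adjoin K (S : Set L) = ⊤) →
    (∀ x : L, IsAlgebraic K x → ∃ c : K, algebraMap K L c = x) → ∀ u : Set L, u.Finite → u.ncard ≤ d →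
    IsTranscendenceBasis K ((↑) : u → L) →
    {z : KQ L 2 ⧸ LinearMap.range (KQ.map 2 (algebraMap K L)) | ∃ f g : Lˣ,
      ((∀ t ∈ u, Module.finrank (IntermediateField.adjoin K (u \ {t}))⟮(f : L)⟯ L ≤ D ∧
        Module.finrank (IntermediateField.adjoin K (u \ {t}))⟮(g : L)⟯ L ≤ D) ∧
      ∀ v ∈ VN K L, sy f g ∈ unitPart v 2) ∧ z = Submodule.Quotient.mk (sy f g)}.encard ≤ B := by
  obtain ⟨B, hB⟩ := uniform_var_rb.{u} D (n * D * (n * D + 1)).factorial d
  exact ⟨B, fun K L _ _ _ _ hn => hB K L (rb_unif K hn D)⟩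

end Pool.Agent.Helper79.UN
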